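import Pool.Agent.Run7.h881.GP.Thr
import Pool.Agent.H562R2.PerfectSdp

/-!
Perfect solutions of the pairwise semidefinite program of `d`-to-1 games: propagation in balls.
-/

set_option autoImplicit false
set_option linter.unusedSectionVars false

namespace Run7.h881.GP

open Finset Pool.Agent.H562R2 Pool.Agent.H818R3.Defl

section
variable {U V E A B D : Type} [Fintype U] [Fintype V] [Fintype E] [Fintype A] [Fintype B]
  [DecidableEq U] [DecidableEq V] [DecidableEq E] [DecidableEq A] [DecidableEq B] [Fintype D]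

/-- the left vertices at distance at most `2 k` from `r` -/
def SU (s : E → U) (t : E → V) (R : Finset E) (r : U) : ℕ → Finset U
  | 0 => {r}
  | k + 1 => SU s t R r k ∪
      (R.filter fun e => ∃ e' ∈ R, s e' ∈ SU s t R r k ∧ t e' = t e).image s

/-- the right vertices adjacent to `SU k` -/
def SV (s : E → U) (t : E → V) (R : Finset E) (r : U) (k : ℕ) : Finset V :=
  (R.filter fun e => s e ∈ SU s t R r k).image t

theorem mem_SV {s : E → U} {t : E → V} {R : Finset E} {r : U} {k : ℕ} {v : V} :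
    v ∈ SV s t R r k ↔ ∃ e ∈ R, s e ∈ SU s t R r k ∧ t e = v := by
  unfold SV
  rw [mem_image]
  constructor
  · rintro ⟨e, he, h⟩
    rw [mem_filter] at he
    exact ⟨e, he.1, he.2, h⟩
  · rintro ⟨e, h1, h2, h3⟩
    exact ⟨e, mem_filter.2 ⟨h1, h2⟩, h3⟩

theorem mem_SU {s : E → U} {t : E → V} {R : Finset E} {r : U} {k : ℕ} {u : U} :
    u ∈ SU s t R r (k + 1) ↔ u ∈ SU s t R r k ∨ ∃ e ∈ R, t e ∈ SV s t R r k ∧ s e = u := by
  rw [SU, mem_union, mem_image]
  refine or_congr Iff.rfl ?_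
  constructor
  · rintro ⟨e, he, h⟩
    rw [mem_filter] at he
    obtain ⟨h1, e', h2, h3, h4⟩ := he
    exact ⟨e, h1, mem_SV.2 ⟨e', h2, h3, h4⟩, h⟩
  · rintro ⟨e, h1, h2, h3⟩
    obtain ⟨e', h4, h5, h6⟩ := mem_SV.1 h2
    exact ⟨e, mem_filter.2 ⟨h1, e', h4, h5, h6⟩, h3⟩

/-- a short distance at which the balls grow slowly -/
theorem slow (s : E → U) (t : E → V) (R : Finset E) (hR : R.Nonempty) (m : ℕ) (θ : ℝ)
    (hθ : 0 < θ) (hθm : (Fintype.card U : ℝ) ≤ θ ^ (2 * m + 1)) :
    ∃ r : U, (0 < (R.filter fun e => s e ∈ SU s t R r 0).card) ∧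
      ((∃ k ≤ m, ((R.filter fun e => t e ∈ SV s t R r k).card : ℝ) ≤
        θ * ((R.filter fun e => s e ∈ SU s t R r k).card : ℝ)) ∨
      (∃ k < m, ((R.filter fun e => s e ∈ SU s t R r (k + 1)).card : ℝ) ≤
        θ * ((R.filter fun e => t e ∈ SV s t R r k).card : ℝ))) := by
  obtain ⟨e0, he0⟩ := hR
  have : Nonempty U := ⟨s e0⟩
  obtain ⟨r, -, hr⟩ := exists_max_image (univ : Finset U)
    (fun u => (R.filter fun e => s e = u).card) ⟨s e0, mem_univ _⟩
  have hsum : (R.card : ℝ) ≤ (Fintype.card U : ℝ) * ((R.filter fun e => s e = r).card : ℝ) := by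
    have h1 : R.card = ∑ u : U, (R.filter fun e => s e = u).card :=
      card_eq_sum_card_fiberwise (fun e _ => mem_univ (s e))
    have h2 : ∑ u : U, (R.filter fun e => s e = u).card ≤
        ∑ _u : U, (R.filter fun e => s e = r).card := sum_le_sum fun u _ => hr u (mem_univ u)
    rw [sum_const, card_univ, smul_eq_mul, ← h1] at h2
    exact_mod_cast h2
  have h0 : (R.filter fun e => s e ∈ SU s t R r 0) = R.filter fun e => s e = r := by
    ext e; simp [SU]
  have hpos : 0 < (R.filter fun e => s e = r).card := by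
    have h1 := hr (s e0) (mem_univ _)
    refine lt_of_lt_of_le (card_pos.2 ⟨e0, ?_⟩) h1
    rw [mem_filter]
    exact ⟨he0, rfl⟩
  refine ⟨r, by rw [h0]; exact hpos, ?_⟩
  by_contra hcon
  push Not at hcon
  obtain ⟨c1, c2⟩ := hcon
  have key : ∀ k ≤ m, θ ^ (2 * k) * ((R.filter fun e => s e = r).card : ℝ) ≤
      ((R.filter fun e => s e ∈ SU s t R r k).card : ℝ) := by
    intro k
    induction k with
    | zero => intro _; rw [h0]; simp
    | succ k ih =>
      intro hk
      have h1 := ih (by omega)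
      have h2 := c1 k (by omega)
      have h3 := c2 k (by omega)
      calc θ ^ (2 * (k + 1)) * ((R.filter fun e => s e = r).card : ℝ)
          = θ * (θ * (θ ^ (2 * k) * ((R.filter fun e => s e = r).card : ℝ))) := by ring
        _ ≤ θ * (θ * ((R.filter fun e => s e ∈ SU s t R r k).card : ℝ)) :=
            mul_le_mul_of_nonneg_left (mul_le_mul_of_nonneg_left h1 hθ.le) hθ.le
        _ ≤ θ * ((R.filter fun e => t e ∈ SV s t R r k).card : ℝ) :=
            mul_le_mul_of_nonneg_left h2.le hθ.le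
        _ ≤ _ := h3.le
  have h4 := key m le_rfl
  have h5 := c1 m le_rfl
  have h6 : ((R.filter fun e => t e ∈ SV s t R r m).card : ℝ) ≤ R.card := by
    exact_mod_cast card_filter_le _ _
  have h7 : (R.card : ℝ) < R.card := by
    calc (R.card : ℝ) ≤ (Fintype.card U : ℝ) * ((R.filter fun e => s e = r).card : ℝ) := hsum
      _ ≤ θ ^ (2 * m + 1) * ((R.filter fun e => s e = r).card : ℝ) :=
          mul_le_mul_of_nonneg_right hθm (Nat.cast_nonneg _)
      _ = θ * (θ ^ (2 * m) * ((R.filter fun e => s e = r).card : ℝ)) := by ring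
      _ ≤ θ * ((R.filter fun e => s e ∈ SU s t R r m).card : ℝ) :=
          mul_le_mul_of_nonneg_left h4 hθ.le
      _ < _ := h5
      _ ≤ _ := h6
  exact lt_irrefl _ h7

/-- the labels near the root -/
theorem near_labels (s : E → U) (t : E → V) (π : E → A → B) (d : ℕ) (hd : 0 < d)
    (hfib : ∀ e b, (Finset.univ.filter fun a => π e a = b).card ≤ d)
    {x : U → A → D → ℝ} {y : V → B → D → ℝ} (hsd : SdpFeasible x y)
    (hval : (Fintype.card E : ℝ) ≤ ∑ e, ∑ a, x (s e) a ⬝ᵥ y (t e) (π e a))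
    (R : Finset E) (r : U) :
    ∃ (p : U → A → ℝ) (q : V → B → ℝ), (∀ u a, 0 ≤ p u a) ∧ (∀ u, ∑ a, p u a = 1) ∧
      (∀ v b, 0 ≤ q v b) ∧
      (∀ e b, q (t e) b = ∑ a with π e a = b, p (s e) a) ∧
      ∀ k, (∀ u ∈ SU s t R r k, ∃ a, 1 / (d : ℝ) ^ k ≤ p u a) ∧
        ∀ v ∈ SV s t R r k, ∃ b, 1 / (d : ℝ) ^ k ≤ q v b := by
  obtain ⟨z, hx, hy⟩ := hsd.left
  obtain ⟨-, -, -, -, -, -, hxx, hxy, -⟩ := hsd
  have h1 : ∀ e ∈ (Finset.univ : Finset E), ∑ a, x (s e) a ⬝ᵥ y (t e) (π e a) ≤ 1 :=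
    fun e _ => edge_val_le (hx _) (hy _) (fun a b => hxy _ _ _ _) (π e)
  have h2 : ∀ e, 1 ≤ ∑ a, x (s e) a ⬝ᵥ y (t e) (π e a) := by
    have h3 : ∑ e, (1 - ∑ a, x (s e) a ⬝ᵥ y (t e) (π e a)) ≤ 0 := by
      rw [Finset.sum_sub_distrib, Finset.sum_const, Finset.card_univ, nsmul_eq_mul, mul_one]
      linarith
    have h4 := (Finset.sum_eq_zero_iff_of_nonneg (fun e he => sub_nonneg.mpr (h1 e he))).mp
      (le_antisymm h3 (Finset.sum_nonneg fun e he => sub_nonneg.mpr (h1 e he)))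
    intro e
    have := h4 e (Finset.mem_univ e)
    linarith
  have hp : ∀ e b, y (t e) b = ∑ a with π e a = b, x (s e) a := fun e b =>
    edge_perfect (hx _) (hy _) (fun a b => hxy _ _ _ _) (π e) (h2 e) b
  obtain ⟨a0, ha0⟩ : ∃ a0, 0 < x r a0 ⬝ᵥ x r a0 := by
    by_contra hc
    push Not at hc
    have h3 := (hx r).sum_norm
    have h4 : ∑ a, x r a ⬝ᵥ x r a ≤ 0 := sum_nonpos fun a _ => hc a
    linarith
  obtain ⟨ω, hω⟩ : ∃ ω, ω = x r a0 ⬝ᵥ x r a0 := ⟨_, rfl⟩
  have hω0 : 0 < ω := by rw [hω]; exact ha0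
  have hgz : x r a0 ⬝ᵥ z = ω := by rw [hω]; exact (hx r).dot_z a0
  have hdr : (0 : ℝ) < d := by exact_mod_cast hd
  have hd1 : (1 : ℝ) ≤ d := by exact_mod_cast hd
  have hq : ∀ e b, (x r a0 ⬝ᵥ y (t e) b) / ω = ∑ a with π e a = b, (x r a0 ⬝ᵥ x (s e) a) / ω := by
    intro e b
    rw [hp e b, dotProduct_sum, sum_div]
  refine ⟨fun u a => (x r a0 ⬝ᵥ x u a) / ω, fun v b => (x r a0 ⬝ᵥ y v b) / ω,
    fun u a => div_nonneg (hxx _ _ _ _) hω0.le, fun u => ?_,
    fun v b => div_nonneg (hxy _ _ _ _) hω0.le, hq, ?_⟩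
  · rw [← sum_div, ← dotProduct_sum, (hx u).sum, hgz, div_self hω0.ne']
  · have hV : ∀ k, (∀ u ∈ SU s t R r k, ∃ a, 1 / (d : ℝ) ^ k ≤ (x r a0 ⬝ᵥ x u a) / ω) →
        ∀ v ∈ SV s t R r k, ∃ b, 1 / (d : ℝ) ^ k ≤ (x r a0 ⬝ᵥ y v b) / ω := by
      intro k hk v hv
      obtain ⟨e, -, he, rfl⟩ := mem_SV.1 hv
      obtain ⟨a, ha⟩ := hk _ he
      refine ⟨π e a, ha.trans ?_⟩
      rw [hq e (π e a)]
      exact single_le_sum (f := fun a => (x r a0 ⬝ᵥ x (s e) a) / ω)
        (fun a _ => div_nonneg (hxx _ _ _ _) hω0.le) (mem_filter.2 ⟨mem_univ a, rfl⟩)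
    intro k
    induction k with
    | zero =>
      have h0 : ∀ u ∈ SU s t R r 0, ∃ a, 1 / (d : ℝ) ^ 0 ≤ (x r a0 ⬝ᵥ x u a) / ω := by
        intro u hu
        rw [SU, mem_singleton] at hu
        refine ⟨a0, ?_⟩
        rw [hu, ← hω, div_self hω0.ne']
        simp
      exact ⟨h0, hV 0 h0⟩
    | succ k ih =>
      have h0 : ∀ u ∈ SU s t R r (k + 1), ∃ a, 1 / (d : ℝ) ^ (k + 1) ≤ (x r a0 ⬝ᵥ x u a) / ω := by
        intro u hu
        rcases mem_SU.1 hu with hu | ⟨e, -, he, rfl⟩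
        · obtain ⟨a, ha⟩ := ih.1 u hu
          refine ⟨a, le_trans ?_ ha⟩
          exact one_div_le_one_div_of_le (by positivity) (pow_le_pow_right₀ hd1 (by omega))
        · obtain ⟨b, hb⟩ := ih.2 _ he
          beta_reduce at hb
          rw [hq e b] at hb
          by_contra hc
          push Not at hc
          have h3 : ∑ a with π e a = b, (x r a0 ⬝ᵥ x (s e) a) / ω < 1 / (d : ℝ) ^ k := by
            by_cases hne : (univ.filter fun a => π e a = b).Nonempty
            · calc ∑ a with π e a = b, (x r a0 ⬝ᵥ x (s e) a) / ω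
                  < ∑ a with π e a = b, 1 / (d : ℝ) ^ (k + 1) :=
                    sum_lt_sum_of_nonempty hne fun a _ => hc a
                _ = ((univ.filter fun a => π e a = b).card : ℝ) * (1 / (d : ℝ) ^ (k + 1)) := by
                    rw [sum_const, nsmul_eq_mul]
                _ ≤ d * (1 / (d : ℝ) ^ (k + 1)) := by
                    refine mul_le_mul_of_nonneg_right ?_ (by positivity)
                    exact_mod_cast hfib e b
                _ = 1 / (d : ℝ) ^ k := by rw [pow_succ]; field_simp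
            · rw [not_nonempty_iff_eq_empty] at hne
              rw [hne, sum_empty]
              positivity
          linarith
      exact ⟨h0, hV (k + 1) h0⟩

/-- rounding inside of a ball -/
theorem ball_round (s : E → U) (t : E → V) (π : E → A → B)
    (p : U → A → ℝ) (q : V → B → ℝ) (hp : ∀ u a, 0 ≤ p u a) (hp1 : ∀ u, ∑ a, p u a = 1)
    (hpq : ∀ e b, q (t e) b = ∑ a with π e a = b, p (s e) a) (F : Finset E) (δ : ℝ)
    (hF : ∀ e ∈ F, ∃ b, δ ≤ q (t e) b) (b0 : V → B) :
    ∃ (L : U → A) (M : V → B), δ * (F.card : ℝ) ≤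
      ((F.filter fun e => π e (L (s e)) = M (t e)).card : ℝ) := by
  have hch : ∀ v, ∃ b, (∃ b', δ ≤ q v b') → δ ≤ q v b := by
    intro v
    by_cases h : ∃ b', δ ≤ q v b'
    · obtain ⟨b, hb⟩ := h
      exact ⟨b, fun _ => hb⟩
    · exact ⟨b0 v, fun h' => absurd h' h⟩
  choose m hm using hch
  obtain ⟨L, M, hLM⟩ := wderand s t π (fun e => if e ∈ F then 1 else 0) p
    (fun v b => if b = m v then 1 else 0) hp hp1
    (fun v b => by split_ifs <;> norm_num) (fun v => by simp)
  refine ⟨L, M, ?_⟩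
  have h1 : ∑ e, (if e ∈ F then (1 : ℝ) else 0) * (if π e (L (s e)) = M (t e) then 1 else 0) =
      ((F.filter fun e => π e (L (s e)) = M (t e)).card : ℝ) := by
    have h2 : ∀ e, (if e ∈ F then (1 : ℝ) else 0) * (if π e (L (s e)) = M (t e) then 1 else 0) =
        if e ∈ F then (if π e (L (s e)) = M (t e) then (1 : ℝ) else 0) else 0 := by
      intro e; split_ifs <;> norm_num
    simp only [h2]
    rw [sum_ite_mem, univ_inter, sum_boole]
  rw [← h1]
  refine le_trans ?_ hLM
  have h3 : δ * (F.card : ℝ) = ∑ e, if e ∈ F then δ else 0 := by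
    rw [sum_ite_mem, univ_inter, sum_const, nsmul_eq_mul, mul_comm]
  rw [h3]
  refine sum_le_sum fun e _ => ?_
  by_cases he : e ∈ F
  · rw [if_pos he, if_pos he, one_mul]
    have h4 := hm (t e) (hF e he)
    rw [hpq e (m (t e))] at h4
    refine h4.trans (le_of_eq ?_)
    rw [sum_filter]
    refine sum_congr rfl fun a _ => ?_
    split_ifs <;> ring
  · rw [if_neg he, if_neg he, zero_mul]

/-- **perfect solutions** -/
theorem perfect_gap (s : E → U) (t : E → V) (π : E → A → B) (d : ℕ) (hd : 0 < d)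
    (hfib : ∀ e b, (Finset.univ.filter fun a => π e a = b).card ≤ d)
    {x : U → A → D → ℝ} {y : V → B → D → ℝ} (hsd : SdpFeasible x y)
    (hval : (Fintype.card E : ℝ) ≤ ∑ e, ∑ a, x (s e) a ⬝ᵥ y (t e) (π e a))
    (hlab : Nonempty (U → A) ∧ Nonempty (V → B)) (m : ℕ) :
    ∃ (L : U → A) (M : V → B),
      1 / (d : ℝ) ^ m * (1 / (Fintype.card U : ℝ) ^ (1 / (2 * m + 1 : ℝ))) *
        (Fintype.card E : ℝ) ≤ ((univ.filter fun e => π e (L (s e)) = M (t e)).card : ℝ) := by
  obtain ⟨⟨L0⟩, ⟨M0⟩⟩ := hlab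
  have hd0 : (0 : ℝ) < d := by exact_mod_cast hd
  have hd1 : (1 : ℝ) ≤ d := by exact_mod_cast hd
  by_cases hU : Fintype.card U = 0
  · have hE : IsEmpty E := by
      rw [Fintype.card_eq_zero_iff] at hU
      exact ⟨fun e => hU.false (s e)⟩
    refine ⟨L0, M0, ?_⟩
    simp
  have hU0 : (0 : ℝ) < Fintype.card U := by exact_mod_cast Nat.pos_of_ne_zero hU
  obtain ⟨θ, hθ⟩ : ∃ θ : ℝ, θ = (Fintype.card U : ℝ) ^ (1 / (2 * m + 1 : ℝ)) := ⟨_, rfl⟩
  have hθ0 : 0 < θ := by rw [hθ]; positivity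
  have hθm : θ ^ (2 * m + 1) = (Fintype.card U : ℝ) := by
    rw [hθ, ← Real.rpow_natCast, ← Real.rpow_mul hU0.le]
    have : 1 / (2 * (m : ℝ) + 1) * ((2 * m + 1 : ℕ) : ℝ) = 1 := by
      push_cast
      field_simp
    rw [this, Real.rpow_one]
  rw [← hθ]
  have hρ : 0 ≤ 1 / (d : ℝ) ^ m * (1 / θ) := by positivity
  obtain ⟨L, M, hLM⟩ := greedy s t π (1 / (d : ℝ) ^ m * (1 / θ)) 0 hρ L0 M0 (by
    intro R _ hRn
    obtain ⟨r, hr0, hr⟩ := slow s t R hRn m θ hθ0 hθm.ge
    obtain ⟨p, q, h1, h2, h3, h4, h5⟩ := near_labels s t π d hd hfib hsd hval R r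
    have hmono : ∀ k ≤ m, 1 / (d : ℝ) ^ m ≤ 1 / (d : ℝ) ^ k := fun k hk =>
      one_div_le_one_div_of_le (by positivity) (pow_le_pow_right₀ hd1 hk)
    have hsub0 : ∀ k, SU s t R r 0 ⊆ SU s t R r k := by
      intro k
      induction k with
      | zero => exact subset_rfl
      | succ k ih => exact ih.trans (fun u hu => mem_SU.2 (Or.inl hu))
    have hUV : ∀ k, ∀ e ∈ R, s e ∈ SU s t R r k → t e ∈ SV s t R r k :=
      fun k e he h => mem_SV.2 ⟨e, he, h, rfl⟩
    have hVU : ∀ k, ∀ e ∈ R, t e ∈ SV s t R r k → s e ∈ SU s t R r (k + 1) :=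
      fun k e he h => mem_SU.2 (Or.inr ⟨e, he, h, rfl⟩)
    rcases hr with ⟨k, hk, hkr⟩ | ⟨k, hk, hkr⟩
    · -- inside: left end in `SU k`; touched: right end in `SV k`
      obtain ⟨L, M, hLM⟩ := ball_round s t π p q h1 h2 h4
        (R.filter fun e => s e ∈ SU s t R r k) (1 / (d : ℝ) ^ k) (by
          intro e he
          rw [mem_filter] at he
          exact (h5 k).2 _ (hUV k e he.1 he.2)) M0
      refine ⟨(SU s t R r k).disjSum (SV s t R r k), L, M, ?_, ?_⟩
      · refine lt_of_lt_of_le hr0 (card_le_card ?_)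
        intro e he
        rw [mem_filter] at he ⊢
        exact ⟨he.1, Or.inl (inl_mem_disjSum.2 (hsub0 k he.2))⟩
      · have e1 : (R.filter fun e => Sum.inl (s e) ∈ (SU s t R r k).disjSum (SV s t R r k) ∨
            Sum.inr (t e) ∈ (SU s t R r k).disjSum (SV s t R r k)) =
            R.filter fun e => t e ∈ SV s t R r k := by
          refine filter_congr fun e he => ?_
          rw [inl_mem_disjSum, inr_mem_disjSum]
          exact ⟨fun h => h.elim (hUV k e he) id, Or.inr⟩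
        have e2 : (R.filter fun e => Sum.inl (s e) ∈ (SU s t R r k).disjSum (SV s t R r k) ∧
            Sum.inr (t e) ∈ (SU s t R r k).disjSum (SV s t R r k) ∧ π e (L (s e)) = M (t e)) =
            (R.filter fun e => s e ∈ SU s t R r k).filter
              fun e => π e (L (s e)) = M (t e) := by
          rw [filter_filter]
          refine filter_congr fun e he => ?_
          rw [inl_mem_disjSum, inr_mem_disjSum]
          exact ⟨fun h => ⟨h.1, h.2.2⟩, fun h => ⟨h.1, hUV k e he h.1, h.2⟩⟩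
        rw [e1, e2]
        refine le_trans ?_ hLM
        calc 1 / (d : ℝ) ^ m * (1 / θ) * ((R.filter fun e => t e ∈ SV s t R r k).card : ℝ)
            ≤ 1 / (d : ℝ) ^ m * (1 / θ) *
              (θ * ((R.filter fun e => s e ∈ SU s t R r k).card : ℝ)) :=
              mul_le_mul_of_nonneg_left hkr hρ
          _ = 1 / (d : ℝ) ^ m * ((R.filter fun e => s e ∈ SU s t R r k).card : ℝ) := by
              field_simp
          _ ≤ _ := mul_le_mul_of_nonneg_right (hmono k hk) (Nat.cast_nonneg _)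
    · obtain ⟨L, M, hLM⟩ := ball_round s t π p q h1 h2 h4
        (R.filter fun e => t e ∈ SV s t R r k) (1 / (d : ℝ) ^ k) (by
          intro e he
          rw [mem_filter] at he
          exact (h5 k).2 _ he.2) M0
      refine ⟨(SU s t R r (k + 1)).disjSum (SV s t R r k), L, M, ?_, ?_⟩
      · refine lt_of_lt_of_le hr0 (card_le_card ?_)
        intro e he
        rw [mem_filter] at he ⊢
        exact ⟨he.1, Or.inl (inl_mem_disjSum.2 (hsub0 (k + 1) he.2))⟩
      · have e1 : (R.filter fun e => Sum.inl (s e) ∈ (SU s t R r (k + 1)).disjSum (SV s t R r k) ∨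
            Sum.inr (t e) ∈ (SU s t R r (k + 1)).disjSum (SV s t R r k)) =
            R.filter fun e => s e ∈ SU s t R r (k + 1) := by
          refine filter_congr fun e he => ?_
          rw [inl_mem_disjSum, inr_mem_disjSum]
          exact ⟨fun h => h.elim id (hVU k e he), Or.inl⟩
        have e2 : (R.filter fun e => Sum.inl (s e) ∈
            (SU s t R r (k + 1)).disjSum (SV s t R r k) ∧
            Sum.inr (t e) ∈ (SU s t R r (k + 1)).disjSum (SV s t R r k) ∧
            π e (L (s e)) = M (t e)) =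
            (R.filter fun e => t e ∈ SV s t R r k).filter
              fun e => π e (L (s e)) = M (t e) := by
          rw [filter_filter]
          refine filter_congr fun e he => ?_
          rw [inl_mem_disjSum, inr_mem_disjSum]
          exact ⟨fun h => h.2, fun h => ⟨hVU k e he h.1, h.1, h.2⟩⟩
        rw [e1, e2]
        refine le_trans ?_ hLM
        calc 1 / (d : ℝ) ^ m * (1 / θ) * ((R.filter fun e => s e ∈ SU s t R r (k + 1)).card : ℝ)
            ≤ 1 / (d : ℝ) ^ m * (1 / θ) *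
              (θ * ((R.filter fun e => t e ∈ SV s t R r k).card : ℝ)) :=
              mul_le_mul_of_nonneg_left hkr hρ
          _ = 1 / (d : ℝ) ^ m * ((R.filter fun e => t e ∈ SV s t R r k).card : ℝ) := by
              field_simp
          _ ≤ _ := mul_le_mul_of_nonneg_right (hmono k hk.le) (Nat.cast_nonneg _)) le_rfl
    _ univ rfl
  refine ⟨L, M, le_trans (le_of_eq ?_) hLM⟩
  rw [card_univ, sub_zero]

end

end Run7.h881.GP
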