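import Pool.Agent.Run7.h881.GP.Glob

/-!
The integrality gap of the basic semidefinite program: final form.
-/

set_option autoImplicit false
set_option linter.unusedSectionVars false

namespace Run7.h881.GP

open Finset Pool.Agent.H562R2 Pool.Agent.H818R3.Defl

/-- many edges have a large local value -/
theorem choice {E : Type} [Fintype E] [Nonempty E] (f : E → ℝ) (hf : ∀ e, f e ≤ 1)
    (κ : ℝ) (hκ0 : 0 < κ) (hκ1 : κ ≤ 1) (hval : κ * (Fintype.card E : ℝ) ≤ ∑ e, f e) :
    ∃ κ' ω : ℝ, 0 < κ' ∧ κ' ≤ 1 ∧ κ ^ 8 ≤ κ' ∧ 0 < ω ∧ ω ≤ 1 ∧ κ / 4 ≤ ω ∧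
      2 * ω * (Fintype.card E : ℝ) ≤ ((univ.filter fun e => κ' ≤ f e).card : ℝ) := by
  have hE : (0 : ℝ) < Fintype.card E := by exact_mod_cast Fintype.card_pos
  have hsplit : ∀ κ' : ℝ, ((univ.filter fun e => κ' ≤ f e).card : ℝ) +
      ((univ.filter fun e => ¬ κ' ≤ f e).card : ℝ) = Fintype.card E := by
    intro κ'
    have := card_filter_add_card_filter_not (s := (univ : Finset E)) (fun e => κ' ≤ f e)
    rw [card_univ] at this
    exact_mod_cast this
  have hsum : ∀ κ' : ℝ, ∑ e, f e ≤ ((univ.filter fun e => κ' ≤ f e).card : ℝ) +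
      κ' * ((univ.filter fun e => ¬ κ' ≤ f e).card : ℝ) := by
    intro κ'
    rw [← sum_filter_add_sum_filter_not univ (fun e => κ' ≤ f e)]
    have h1 : ∑ e ∈ univ.filter (fun e => κ' ≤ f e), f e ≤
        ∑ e ∈ univ.filter (fun e => κ' ≤ f e), (1 : ℝ) := sum_le_sum fun e _ => hf e
    have h2 : ∑ e ∈ univ.filter (fun e => ¬ κ' ≤ f e), f e ≤
        ∑ e ∈ univ.filter (fun e => ¬ κ' ≤ f e), κ' := sum_le_sum fun e he => by
      rw [mem_filter] at he
      exact (not_le.1 he.2).le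
    rw [sum_const, nsmul_eq_mul, mul_one] at h1
    rw [sum_const, nsmul_eq_mul] at h2
    linarith
  by_cases hk : 7 / 8 ≤ κ
  · refine ⟨4 * κ - 3, 3 / 8, by linarith, by linarith, ?_, by norm_num, by norm_num,
      by linarith, ?_⟩
    · have h1 : κ ^ 2 ≤ 15 / 8 * κ - 7 / 8 := by nlinarith
      have h2 : κ ^ 4 ≤ (15 / 8 * κ - 7 / 8) ^ 2 := by
        have := pow_le_pow_left₀ (by positivity) h1 2
        calc κ ^ 4 = (κ ^ 2) ^ 2 := by ring
          _ ≤ _ := this
      have h3 : κ ^ 4 ≤ 33 / 10 * κ - 23 / 10 := by nlinarith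
      have h4 : κ ^ 8 ≤ (33 / 10 * κ - 23 / 10) ^ 2 := by
        have := pow_le_pow_left₀ (by positivity) h3 2
        calc κ ^ 8 = (κ ^ 4) ^ 2 := by ring
          _ ≤ _ := this
      nlinarith
    · rcases hκ1.eq_or_lt with h1 | h1
      · have e1 : 4 * κ - 3 = 1 := by rw [h1]; norm_num
        rw [e1]
        have h2 : ∑ e, (1 - f e) ≤ 0 := by
          rw [sum_sub_distrib, sum_const, card_univ, nsmul_eq_mul, mul_one]
          rw [h1] at hval
          linarith
        have h3 := (sum_eq_zero_iff_of_nonneg (fun e _ => sub_nonneg.2 (hf e))).1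
          (le_antisymm h2 (sum_nonneg fun e _ => sub_nonneg.2 (hf e)))
        have h4 : (univ.filter fun e => 1 ≤ f e) = univ := by
          ext e
          simp only [mem_filter, mem_univ, true_and, iff_true]
          have := h3 e (mem_univ e)
          linarith
        rw [h4, card_univ]
        linarith
      · have h2 := hsum (4 * κ - 3)
        have h3 := hsplit (4 * κ - 3)
        set G := ((univ.filter fun e => 4 * κ - 3 ≤ f e).card : ℝ) with hG
        set Bd := ((univ.filter fun e => ¬ 4 * κ - 3 ≤ f e).card : ℝ) with hBd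
        have h5 : κ * (G + Bd) ≤ G + (4 * κ - 3) * Bd := by
          rw [h3]; linarith
        have h6 : (1 - κ) * (3 * Bd) ≤ (1 - κ) * G := by nlinarith
        have h7 := le_of_mul_le_mul_left h6 (by linarith)
        rw [← h3]
        linarith
  · push Not at hk
    refine ⟨κ / 2, κ / 4, by linarith, by linarith, ?_, by linarith, by linarith, le_rfl, ?_⟩
    · have h1 : κ ^ 7 ≤ (7 / 8) ^ 7 := pow_le_pow_left₀ hκ0.le hk.le 7
      have h2 : κ ^ 8 = κ * κ ^ 7 := by ring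
      rw [h2]
      have h3 : κ ^ 7 ≤ 1 / 2 := h1.trans (by norm_num)
      nlinarith
    · have h2 := hsum (κ / 2)
      have h3 := hsplit (κ / 2)
      set G := ((univ.filter fun e => κ / 2 ≤ f e).card : ℝ) with hG
      set Bd := ((univ.filter fun e => ¬ κ / 2 ≤ f e).card : ℝ) with hBd
      have hG0 : 0 ≤ G := Nat.cast_nonneg _
      have h4 : κ / 2 * Bd ≤ κ / 2 * (Fintype.card E : ℝ) := by
        refine mul_le_mul_of_nonneg_left ?_ (by linarith)
        linarith
      linarith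

section
variable {U V E A B D : Type} [Fintype U] [Fintype V] [Fintype E] [Fintype A] [Fintype B]
  [DecidableEq U] [DecidableEq V] [DecidableEq E] [DecidableEq A] [DecidableEq B] [Fintype D]

set_option maxHeartbeats 2000000 in
/-- **the integrality gap of the basic semidefinite program** -/
theorem gap [Nonempty E] (s : E → U) (t : E → V) (π : E → A → B) (dd : ℕ) (hdd : 0 < dd)
    (hfib : ∀ e b, (Finset.univ.filter fun a => π e a = b).card ≤ dd)
    {x : U → A → D → ℝ} {y : V → B → D → ℝ} (hsd : SdpFeasible x y) (κ : ℝ)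
    (hκ0 : 0 < κ) (hκ1 : κ ≤ 1)
    (hval : κ * (Fintype.card E : ℝ) ≤ ∑ e, ∑ a, x (s e) a ⬝ᵥ y (t e) (π e a))
    (h N : ℝ) (hh : h = Real.log (dd / κ)) (hN : N = Real.log (Fintype.card (U ⊕ V))) :
    ∃ (L : U → A) (M : V → B),
      Real.exp (-(3000 * (Real.sqrt (h * N * Real.log (N + 2)) + (h + 1) * Real.log (N + 2)))) *
        (Fintype.card E : ℝ) ≤ ((univ.filter fun e => π e (L (s e)) = M (t e)).card : ℝ) := by
  obtain ⟨κ', ω, c1, c2, c3, c4, c5, c6, c7⟩ := choice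
    (fun e => ∑ a, x (s e) a ⬝ᵥ y (t e) (π e a)) (fun e => sat_le_one hsd _ _ _) κ hκ0 hκ1 hval
  have hdd1 : (1 : ℝ) ≤ dd := by exact_mod_cast hdd
  have hdd0 : (0 : ℝ) < dd := by linarith
  have hlκ : Real.log κ ≤ 0 := Real.log_nonpos hκ0.le hκ1
  have hld : 0 ≤ Real.log dd := Real.log_nonneg hdd1
  have hh' : h = Real.log dd - Real.log κ := by
    rw [hh, Real.log_div hdd0.ne' hκ0.ne']
  have hh0 : 0 ≤ h := by linarith
  obtain ⟨e0⟩ := ‹Nonempty E›
  have : Nonempty (U ⊕ V) := ⟨Sum.inl (s e0)⟩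
  have : Nonempty E := ⟨e0⟩
  obtain ⟨nn, hnn⟩ : ∃ nn : ℝ, nn = Fintype.card (U ⊕ V) := ⟨_, rfl⟩
  have hnn1 : 1 ≤ nn := by rw [hnn]; exact_mod_cast Fintype.card_pos
  have hN' : N = Real.log nn := by rw [hN, hnn]
  have hN0 : 0 ≤ N := by rw [hN']; exact Real.log_nonneg hnn1
  obtain ⟨a, j, a1, a2, a3, a4, a5, a6⟩ := params h N hh0 hN0
  obtain ⟨lm, hlm⟩ : ∃ lm, lm = 2 * ω / 3 * (1 / (3 * nn)) ^ a := ⟨_, rfl⟩
  have hlm0 : 0 < lm := by rw [hlm]; positivity
  have hlm1 : lm ≤ 1 := by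
    rw [hlm]
    have h1 : (1 / (3 * nn)) ^ a ≤ 1 := by
      refine Real.rpow_le_one (by positivity) ?_ a1.le
      rw [div_le_one (by positivity)]
      linarith
    have h2 : 0 ≤ (1 / (3 * nn)) ^ a := by positivity
    nlinarith
  obtain ⟨τ, hτ⟩ : ∃ τ, τ = Real.exp (Real.log (16 / (a * lm)) + 3 / 2) := ⟨_, rfl⟩
  have hτ1 : 1 ≤ τ := by
    rw [hτ]
    refine Real.one_le_exp ?_
    have : 0 ≤ Real.log (16 / (a * lm)) := by
      refine Real.log_nonneg ?_
      rw [le_div_iff₀ (by positivity)]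
      nlinarith
    linarith
  have hτ2 : Real.exp (Real.log (16 / (a * lm)) + 1 / 2 +
      Real.log nn / (1 + 2 * a) ^ (2 * (j + 1))) ≤ τ := by
    rw [hτ]
    refine Real.exp_le_exp.2 ?_
    have := one_le_pow_N a N j a1 a2 hN0 a3
    rw [hN'] at this
    linarith
  obtain ⟨L, M, hLM⟩ := glob s t π dd hdd hfib hsd
    (univ.filter fun e => κ' ≤ ∑ a, x (s e) a ⬝ᵥ y (t e) (π e a)) κ' c1 c2
    (fun e he => (mem_filter.1 he).2) ω c4 c5 c7 a a1 a2 nn lm hnn hlm j τ hτ1 hτ2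
  refine ⟨L, M, le_trans (mul_le_mul_of_nonneg_right ?_ (Nat.cast_nonneg _)) hLM⟩
  have hJ : (1 : ℝ) ≤ ((j + 1 : ℕ) : ℝ) := by exact_mod_cast Nat.succ_le_succ (Nat.zero_le j)
  have hlκ' : 8 * Real.log κ ≤ Real.log κ' := by
    have h1 := Real.log_le_log (by positivity) c3
    rw [Real.log_pow] at h1
    push_cast at h1
    exact h1
  have hlω : Real.log κ - Real.log 4 ≤ Real.log ω := by
    rw [← Real.log_div hκ0.ne' (by norm_num)]
    exact Real.log_le_log (by positivity) c6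
  have hH : Real.log (dd / κ' ^ 4) ≤ 32 * h := by
    rw [Real.log_div hdd0.ne' (by positivity), Real.log_pow, hh']
    push_cast
    linarith
  have l2 := Real.log_two_gt_d9
  have hL2 : Real.log 2 ≤ Real.log (N + 2) := Real.log_le_log (by norm_num) (by linarith)
  have hlv := log_val dd κ' ω a nn lm τ ((j + 1 : ℕ) : ℝ) h N (Real.log (N + 2)) hdd1 c1 c4 a1 a2
    hnn1 hN' hlm hτ hJ (2 * (j + 1)) (by push_cast; ring) hh0 (by linarith) (by linarith) hH hL2
    a4 a5
  have hpos : 0 < ω * (κ' ^ 2 / (24 * ((j + 1 : ℕ) : ℝ) * (τ * (dd / κ' ^ 4) ^ (2 * (j + 1)))) *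
      (lm / 2)) ^ 2 := by
    have : 0 < τ := by linarith
    positivity
  rw [← Real.le_log_iff_exp_le hpos]
  refine le_trans ?_ hlv
  have h1 : 1000 * (h + Real.log (N + 2)) ≤ 2000 * ((h + 1) * Real.log (N + 2)) := by
    nlinarith
  have h2 : 0 ≤ Real.sqrt (h * N * Real.log (N + 2)) := Real.sqrt_nonneg _
  have h3 : 0 ≤ (h + 1) * Real.log (N + 2) := by
    have : 0 ≤ Real.log (N + 2) := by linarith
    positivity
  linarith

end

end Run7.h881.GP
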