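import Pool.Agent.Run7.h881.GP.Part

/-!
A labelling which satisfies a noticeable part of the edges weighted by the ground state.
-/

set_option autoImplicit false
set_option linter.unusedSectionVars false

namespace Run7.h881.GP

open Finset Pool.Agent.H562R2 Pool.Agent.H818R3.Defl

section
variable {U V E A B D : Type} [Fintype U] [Fintype V] [Fintype E] [Fintype A] [Fintype B]
  [DecidableEq U] [DecidableEq V] [DecidableEq E] [DecidableEq A] [DecidableEq B] [Fintype D]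

theorem part (s : E → U) (t : E → V) (π : E → A → B) (dd : ℕ) (hdd : 0 < dd)
    (hfib : ∀ e b, (Finset.univ.filter fun a => π e a = b).card ≤ dd)
    {x : U → A → D → ℝ} {y : V → B → D → ℝ} (hsd : SdpFeasible x y) (K : Finset E) (κ : ℝ)
    (hκ0 : 0 < κ) (hK : ∀ e ∈ K, κ ≤ ∑ a, x (s e) a ⬝ᵥ y (t e) (π e a))
    {d f : U ⊕ V → ℝ} {S : Finset (U ⊕ V)} {lam : ℝ} (hG : Gr (wk s t K) d)
    (h : Gd (wk s t K) d S f lam) (a N : ℝ) (ha : 0 < a) (ha1 : a ≤ 1 / 2)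
    (hN : Real.log S.card ≤ N)
    (hfk : ∀ S' : Finset (U ⊕ V), S'.Nonempty → ∀ g, Sup S' g →
        bf (wk s t K) g g ≤ lam * (vl d S' / vl d S) ^ a * nq d g)
    (j : ℕ) (δ : ℝ) (n : ℕ) (hpos : 0 < κ ^ 2 - 2 * n * δ)
    (hbd : ∀ (L : U → A) (M : V → B),
      ∑ e, ce s t K f e * (if π e (L (s e)) = M (t e) then 1 else 0) ≤ δ * (lam / 2)) :
    ((κ ^ 2 - 2 * n * δ) ^ 2 / dd) ^ (2 * (j + 1)) * (2 * n + 1) ≤
      Real.exp (Real.log (16 / (a * lam)) + 1 / 2 + N / (1 + 2 * a) ^ (2 * (j + 1))) := by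
  have hl := h.l0
  have hdd' : (0 : ℝ) < dd := by exact_mod_cast hdd
  have hval : κ * (lam / 2) ≤ ∑ e, ce s t K f e * ∑ a, x (s e) a ⬝ᵥ y (t e) (π e a) := by
    rw [← ce_sum s t K h, mul_sum]
    refine sum_le_sum fun e _ => ?_
    by_cases he : e ∈ K
    · rw [mul_comm]
      exact mul_le_mul_of_nonneg_left (hK e he) (ce_nonneg s t K h.fn e)
    · have : ce s t K f e = 0 := by unfold ce; rw [if_neg he]
      rw [this]; simp
  obtain ⟨T, h1, h2, h3⟩ := wmain s t π dd hfib (ce s t K f) (ce_nonneg s t K h.fn) (lam / 2)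
    (by positivity) (ce_sum s t K h) κ δ hsd hκ0.le hval hbd n hpos.le
  set γ := κ ^ 2 - 2 * n * δ with hγ
  have y0 := ye_zero s t K hG h T x h1
  have y2 := ye_two s t K hG h T x (γ ^ 2 / dd) (by
    rw [div_mul_eq_mul_div, div_le_iff₀ hdd']
    linarith)
  have y3 := ye_up s t K hG h T x (2 * n + 1) h3
  have y4 := cf_upper hG S lam hl f h.fs (Ye V T x) (2 * (j + 1))
  have y5 := tr_decay hG S h.ne lam a N hl h.l1 ha ha1 hN f h.fs h.no h.eg h.mx hfk (2 * (j + 1))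
  have y6 := seq_pow (fun j => Cf (wk s t K) d S lam f (Ye V T x) (2 * j)) (1 / 2) (γ ^ 2 / dd)
    (fun j => cf_nonneg hG S lam hl f h.fs _ j) (fun j => cf_conv hG S lam hl f h.fs _ j)
    (by simpa using y0) (by
      have e : 1 / 2 * (γ ^ 2 / dd) = γ ^ 2 / dd / 2 := by ring
      rw [e]; exact y2) (by norm_num) (by positivity) j
  set τ := Real.exp (Real.log (16 / (a * lam)) + 1 / 2 + N / (1 + 2 * a) ^ (2 * (j + 1))) with hτ
  have hn : (0 : ℝ) < 2 * n + 1 := by positivity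
  have z1 : (1 / 2 * (γ ^ 2 / dd) ^ (j + 1)) ^ 2 ≤
      Cf (wk s t K) d S lam f (Ye V T x) (2 * (j + 1)) ^ 2 :=
    pow_le_pow_left₀ (by positivity) y6 2
  have hS0 : 0 ≤ ∑ a, ∑ b, (d a * f a ^ 2) * (d b * f b ^ 2) *
      (∑ i, Ye V T x a i * Ye V T x b i) ^ 2 :=
    sum_nonneg fun a _ => sum_nonneg fun b _ => mul_nonneg (mul_nonneg
      (mul_nonneg (hG.dp _).le (sq_nonneg _)) (mul_nonneg (hG.dp _).le (sq_nonneg _)))
      (sq_nonneg _)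
  have z2 : Tr (wk s t K) d S (2 * (j + 1)) / lam ^ (2 * (2 * (j + 1))) ≤ τ := by
    rw [div_le_iff₀ (by positivity)]
    linarith
  have z3 : (1 / 2 * (γ ^ 2 / dd) ^ (j + 1)) ^ 2 ≤ τ * (1 / (4 * (2 * n + 1))) :=
    z1.trans (y4.trans (mul_le_mul z2 y3 hS0 (Real.exp_pos _).le))
  have z4 : (1 / 2 * (γ ^ 2 / dd) ^ (j + 1)) ^ 2 = (γ ^ 2 / dd) ^ (2 * (j + 1)) / 4 := by
    rw [mul_pow, ← pow_mul, mul_comm (j + 1) 2]
    ring
  rw [z4, mul_one_div, div_le_div_iff₀ (by norm_num) (by positivity)] at z3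
  nlinarith

/-- **a good labelling for the weights of the ground state** -/
theorem part2 (s : E → U) (t : E → V) (π : E → A → B) (dd : ℕ) (hdd : 0 < dd)
    (hfib : ∀ e b, (Finset.univ.filter fun a => π e a = b).card ≤ dd)
    {x : U → A → D → ℝ} {y : V → B → D → ℝ} (hsd : SdpFeasible x y) (K : Finset E) (κ : ℝ)
    (hκ0 : 0 < κ) (hκ1 : κ ≤ 1) (hK : ∀ e ∈ K, κ ≤ ∑ a, x (s e) a ⬝ᵥ y (t e) (π e a))
    {d f : U ⊕ V → ℝ} {S : Finset (U ⊕ V)} {lam : ℝ} (hG : Gr (wk s t K) d)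
    (h : Gd (wk s t K) d S f lam) (a N : ℝ) (ha : 0 < a) (ha1 : a ≤ 1 / 2)
    (hN : Real.log S.card ≤ N)
    (hfk : ∀ S' : Finset (U ⊕ V), S'.Nonempty → ∀ g, Sup S' g →
        bf (wk s t K) g g ≤ lam * (vl d S' / vl d S) ^ a * nq d g)
    (j : ℕ) (τ : ℝ) (hτ1 : 1 ≤ τ)
    (hτ : Real.exp (Real.log (16 / (a * lam)) + 1 / 2 + N / (1 + 2 * a) ^ (2 * (j + 1))) ≤ τ) :
    ∃ (L : U → A) (M : V → B),
      κ ^ 2 / (24 * (j + 1 : ℕ) * (τ * (dd / κ ^ 4) ^ (2 * (j + 1)))) * (lam / 2) <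
        ∑ e, ce s t K f e * (if π e (L (s e)) = M (t e) then 1 else 0) := by
  by_contra hcon
  push Not at hcon
  have hdd' : (0 : ℝ) < dd := by exact_mod_cast hdd
  have hdd1 : (1 : ℝ) ≤ dd := by exact_mod_cast hdd
  have hκ4 : (0 : ℝ) < κ ^ 4 := by positivity
  have hκ41 : κ ^ 4 ≤ 1 := pow_le_one₀ hκ0.le hκ1
  have hB : 1 ≤ (dd : ℝ) / κ ^ 4 := by
    rw [le_div_iff₀ hκ4]; linarith
  have hB' : 1 ≤ ((dd : ℝ) / κ ^ 4) ^ (2 * (j + 1)) := one_le_pow₀ hB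
  obtain ⟨P, hP⟩ : ∃ P, P = τ * ((dd : ℝ) / κ ^ 4) ^ (2 * (j + 1)) := ⟨_, rfl⟩
  have hP1 : 1 ≤ P := by rw [hP]; exact one_le_mul_of_one_le_of_one_le hτ1 hB'
  rw [← hP] at hcon
  obtain ⟨J, hJ⟩ : ∃ J : ℝ, J = ((j + 1 : ℕ) : ℝ) := ⟨_, rfl⟩
  have hJ1 : 1 ≤ J := by rw [hJ]; exact_mod_cast Nat.succ_le_succ (Nat.zero_le j)
  rw [← hJ] at hcon
  set n := ⌈2 * P⌉₊ with hn
  have hn1 : 2 * P ≤ n := Nat.le_ceil _
  have hn2 : (n : ℝ) ≤ 3 * P := by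
    have := Nat.ceil_lt_add_one (show 0 ≤ 2 * P by linarith)
    rw [← hn] at this
    linarith
  set δ := κ ^ 2 / (24 * J * P) with hδ
  have hδ1 : 2 * (n : ℝ) * δ ≤ κ ^ 2 / (4 * J) := by
    rw [hδ, mul_div_assoc', div_le_div_iff₀ (by positivity) (by positivity)]
    have : κ ^ 2 * (n : ℝ) ≤ κ ^ 2 * (3 * P) := mul_le_mul_of_nonneg_left hn2 (by positivity)
    nlinarith
  have hq1 : κ ^ 2 / (4 * J) = κ ^ 2 * (1 / (4 * J)) := by ring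
  have hJ4 : 1 / (4 * J) ≤ 1 / 4 := by
    apply one_div_le_one_div_of_le (by norm_num)
    linarith
  have hpos : 0 < κ ^ 2 - 2 * n * δ := by
    rw [hq1] at hδ1
    have : κ ^ 2 * (1 / (4 * J)) ≤ κ ^ 2 * (1 / 4) := mul_le_mul_of_nonneg_left hJ4 (by positivity)
    have : 0 < κ ^ 2 := by positivity
    linarith
  have hm := part s t π dd hdd hfib hsd K κ hκ0 hK hG h a N ha ha1 hN hfk j δ n hpos
    (fun L M => hcon L M)
  have hlow : κ ^ 2 * (1 - 1 / (4 * J)) ≤ κ ^ 2 - 2 * n * δ := by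
    rw [mul_sub, mul_one, ← hq1]
    linarith
  have hb1 : 0 ≤ 1 - 1 / (4 * J) := by linarith
  have hlow2 : (κ ^ 4 / dd) * (1 - 1 / (4 * J)) ^ 2 ≤ (κ ^ 2 - 2 * n * δ) ^ 2 / dd := by
    have e : (κ ^ 4 / dd) * (1 - 1 / (4 * J)) ^ 2 = (κ ^ 2 * (1 - 1 / (4 * J))) ^ 2 / dd := by ring
    rw [e]
    exact div_le_div_of_nonneg_right (pow_le_pow_left₀ (by positivity) hlow 2) hdd'.le
  have hlow3 := pow_le_pow_left₀ (mul_nonneg (by positivity) (sq_nonneg _)) hlow2 (2 * (j + 1))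
  have hbern : 1 / 2 ≤ (1 - 1 / (4 * J)) ^ (2 * (j + 1)) := by
    have hb := one_add_mul_le_pow (a := -(1 / (4 * J))) (by linarith) (2 * (j + 1))
    have e1 : ((2 * (j + 1) : ℕ) : ℝ) = 2 * J := by rw [hJ]; push_cast; ring
    rw [e1] at hb
    have e2 : 1 + 2 * J * -(1 / (4 * J)) = 1 / 2 := by
      field_simp
      ring
    rw [e2] at hb
    simpa [sub_eq_add_neg] using hb
  have e5 : (κ ^ 4 / dd * (1 - 1 / (4 * J)) ^ 2) ^ (2 * (j + 1)) =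
      (κ ^ 4 / dd) ^ (2 * (j + 1)) * ((1 - 1 / (4 * J)) ^ (2 * (j + 1))) ^ 2 := by
    rw [mul_pow, ← pow_mul, ← pow_mul, mul_comm (2 * (j + 1)) 2]
  rw [e5] at hlow3
  have hbern2 : 1 / 4 ≤ ((1 - 1 / (4 * J)) ^ (2 * (j + 1))) ^ 2 := by
    have := pow_le_pow_left₀ (by norm_num) hbern 2
    linarith
  have hR : (κ ^ 4 / dd) ^ (2 * (j + 1)) * ((dd : ℝ) / κ ^ 4) ^ (2 * (j + 1)) = 1 := by
    rw [← mul_pow]
    have : κ ^ 4 / dd * ((dd : ℝ) / κ ^ 4) = 1 := by field_simp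
    rw [this, one_pow]
  have hX0 : 0 < (κ ^ 4 / (dd : ℝ)) ^ (2 * (j + 1)) := by positivity
  have k1 : (κ ^ 4 / dd) ^ (2 * (j + 1)) * (1 / 4) ≤
      ((κ ^ 2 - 2 * n * δ) ^ 2 / dd) ^ (2 * (j + 1)) :=
    (mul_le_mul_of_nonneg_left hbern2 hX0.le).trans hlow3
  have k2 : (κ ^ 4 / dd) ^ (2 * (j + 1)) * (1 / 4) * (2 * n + 1) ≤ τ :=
    (mul_le_mul_of_nonneg_right k1 (by positivity)).trans (hm.trans hτ)
  have k3 : (κ ^ 4 / dd) ^ (2 * (j + 1)) * (1 / 4) * (4 * P) = τ := by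
    rw [hP]
    calc (κ ^ 4 / dd) ^ (2 * (j + 1)) * (1 / 4) * (4 * (τ * ((dd : ℝ) / κ ^ 4) ^ (2 * (j + 1))))
        = τ * ((κ ^ 4 / dd) ^ (2 * (j + 1)) * ((dd : ℝ) / κ ^ 4) ^ (2 * (j + 1))) := by ring
      _ = τ := by rw [hR, mul_one]
  have k4 : (κ ^ 4 / dd) ^ (2 * (j + 1)) * (1 / 4) * (4 * P) <
      (κ ^ 4 / dd) ^ (2 * (j + 1)) * (1 / 4) * (2 * n + 1) :=
    mul_lt_mul_of_pos_left (by linarith) (by positivity)
  linarith

end

end Run7.h881.GP
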