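import Pool.Agent.Run7.h881.GP.Wav

/-!
Weighted two-step deflation.
-/

set_option autoImplicit false
set_option linter.unusedSectionVars false

namespace Run7.h881.GP

open Finset Pool.Agent.H562R2 Pool.Agent.H818R3.Defl

section Main

variable {U V E A B D : Type} [Fintype U] [Fintype V] [Fintype E] [Fintype A] [Fintype B]
  [DecidableEq U] [DecidableEq V] [DecidableEq A] [DecidableEq B] [Fintype D]

/-- averaged fibre vectors -/
noncomputable def xa (s : E → U) (t : E → V) (c : E → ℝ) (π : E → A → B) (x : U → A → D → ℝ)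
    (v : V) (b : B) : D → ℝ :=
  va t c (fib s π x b) v

theorem xa_val (s : E → U) (t : E → V) (c : E → ℝ) (hc : ∀ e, 0 ≤ c e) (π : E → A → B)
    (x : U → A → D → ℝ) (y : V → B → D → ℝ) :
    ∑ e, c e * ∑ b, xa s t c π x (t e) b ⬝ᵥ y (t e) b =
      ∑ e, c e * ∑ a, x (s e) a ⬝ᵥ y (t e) (π e a) := by
  simp only [mul_sum]
  rw [sum_comm]
  have h : ∀ b, ∑ e, c e * (xa s t c π x (t e) b ⬝ᵥ y (t e) b) =
      ∑ e, c e * (fib s π x b e ⬝ᵥ y (t e) b) := fun b =>
    (va_adj t c hc (fib s π x b) (fun v => y v b)).symm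
  simp only [h]
  rw [sum_comm]
  refine sum_congr rfl fun e _ => ?_
  rw [← mul_sum, fib_dot s π x e (fun b => y (t e) b), mul_sum]

theorem xa_sq (s : E → U) (t : E → V) (c : E → ℝ) (hc : ∀ e, 0 ≤ c e) (π : E → A → B)
    (x : U → A → D → ℝ) (T : Module.End ℝ (D → ℝ)) :
    ∑ e, c e * ∑ b, T (xa s t c π x (t e) b) ⬝ᵥ T (xa s t c π x (t e) b) =
      ∑ e, c e * aw t c (fun e' => ∑ b, T (fib s π x b e) ⬝ᵥ T (fib s π x b e')) (t e) := by
  simp only [mul_sum]
  rw [sum_comm]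
  have h : ∀ b, ∑ e, c e * (T (xa s t c π x (t e) b) ⬝ᵥ T (xa s t c π x (t e) b)) =
      ∑ e, c e * (T (fib s π x b e) ⬝ᵥ T (xa s t c π x (t e) b)) := by
    intro b
    have h := va_adj t c hc (fun e => T (fib s π x b e)) (fun v => T (xa s t c π x v b))
    simp only [← va_map] at h
    exact h.symm
  simp only [h]
  rw [sum_comm]
  refine sum_congr rfl fun e _ => ?_
  rw [aw_sum, mul_sum]
  refine sum_congr rfl fun b _ => ?_
  rw [xa, va_map, va_dot]

/-- The averaged vectors have small correlation with every seed. -/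
theorem seedw (s : E → U) (t : E → V) (c : E → ℝ) (hc : ∀ e, 0 ≤ c e)
    (π : E → A → B) {x : U → A → D → ℝ} {y : V → B → D → ℝ} {z : D → ℝ}
    (hx : ∀ u, Fam z (x u)) (hy : ∀ v, Fam z (y v)) (bd : ℝ)
    (hbd : ∀ (L : U → A) (M : V → B),
      ∑ e, c e * (if π e (L (s e)) = M (t e) then 1 else 0) ≤ bd)
    (g : D → ℝ) (hg : ∀ u a, 0 ≤ g ⬝ᵥ x u a) (hh : ∀ v b, 0 ≤ g ⬝ᵥ y v b)
    (hgz : g ⬝ᵥ z = g ⬝ᵥ g) :
    ∑ e, c e * ∑ b, (g ⬝ᵥ xa s t c π x (t e) b) ^ 2 ≤ bd * (g ⬝ᵥ g) ^ 2 := by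
  classical
  rcases (dot_self_nonneg g).lt_or_eq with h0 | h0
  · have hfn : ∀ b e, 0 ≤ g ⬝ᵥ fib s π x b e := by
      intro b e
      rw [fib, dotProduct_sum]
      exact Finset.sum_nonneg fun a _ => hg _ _
    have hxn : ∀ v b, 0 ≤ g ⬝ᵥ xa s t c π x v b := by
      intro v b
      rw [xa, va_dot]
      exact aw_nonneg t c hc _ (fun e => hfn b e) v
    have hsum : ∀ v, nu t c v ≠ 0 → ∑ b, g ⬝ᵥ xa s t c π x v b = g ⬝ᵥ g := by
      intro v hv
      have h1 : ∀ b, g ⬝ᵥ xa s t c π x v b = aw t c (fun e => g ⬝ᵥ fib s π x b e) v := fun b => by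
        rw [xa, va_dot]
      simp only [h1]
      rw [← aw_sum Finset.univ t c (fun b e => g ⬝ᵥ fib s π x b e) v]
      have h2 : (fun e => ∑ b, g ⬝ᵥ fib s π x b e) = fun _ => g ⬝ᵥ g := by
        funext e
        have h3 := fib_sum s π x e g (fun _ => 1)
        simp only [mul_one] at h3
        rw [h3, ← dotProduct_sum, (hx _).sum, hgz]
      rw [h2]
      exact aw_const t c _ v hv
    obtain ⟨L, M, hLM⟩ := wderand s t π c (fun w a => (g ⬝ᵥ x w a) / (g ⬝ᵥ g))
      (fun w b => if nu t c w ≠ 0 then (g ⬝ᵥ xa s t c π x w b) / (g ⬝ᵥ g)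
        else (g ⬝ᵥ y w b) / (g ⬝ᵥ g))
      (fun w a => div_nonneg (hg _ _) h0.le)
      (fun w => by rw [← Finset.sum_div, ← dotProduct_sum, (hx w).sum, hgz, div_self h0.ne'])
      (fun w b => by
        split_ifs
        · exact div_nonneg (hxn _ _) h0.le
        · exact div_nonneg (hh _ _) h0.le)
      (fun w => by
        by_cases hw : nu t c w ≠ 0
        · simp only [hw, ne_eq, not_false_eq_true, if_true]
          rw [← Finset.sum_div, hsum w hw, div_self h0.ne']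
        · simp only [hw, if_false]
          rw [← Finset.sum_div, ← dotProduct_sum, (hy w).sum, hgz, div_self h0.ne'])
    have h2 := hLM.trans (hbd L M)
    have h3 : ∑ e, c e * ∑ b, (g ⬝ᵥ xa s t c π x (t e) b) ^ 2 =
        ∑ e, c e * ∑ a, (g ⬝ᵥ x (s e) a) * (g ⬝ᵥ xa s t c π x (t e) (π e a)) := by
      simp only [mul_sum]
      rw [Finset.sum_comm]
      have h4 : ∀ b, ∑ e, c e * (g ⬝ᵥ xa s t c π x (t e) b) ^ 2 =
          ∑ e, c e * ((g ⬝ᵥ fib s π x b e) * (g ⬝ᵥ xa s t c π x (t e) b)) := by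
        intro b
        have h5 := aw_sq_eq t c hc (fun e => g ⬝ᵥ fib s π x b e)
        simp only [← va_dot] at h5
        exact h5.symm
      simp only [h4]
      rw [Finset.sum_comm]
      refine Finset.sum_congr rfl fun e _ => ?_
      rw [← mul_sum, fib_sum s π x e g (fun b => g ⬝ᵥ xa s t c π x (t e) b), mul_sum]
    have h4 : ∑ e, c e * ∑ a, (g ⬝ᵥ x (s e) a) * (g ⬝ᵥ xa s t c π x (t e) (π e a)) =
        (∑ e, c e * ∑ a, (g ⬝ᵥ x (s e) a) / (g ⬝ᵥ g) *
          (if nu t c (t e) ≠ 0 then (g ⬝ᵥ xa s t c π x (t e) (π e a)) / (g ⬝ᵥ g)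
            else (g ⬝ᵥ y (t e) (π e a)) / (g ⬝ᵥ g))) * (g ⬝ᵥ g) ^ 2 := by
      rw [Finset.sum_mul]
      refine Finset.sum_congr rfl fun e _ => ?_
      by_cases hce : c e = 0
      · rw [hce]; ring
      · have hn : nu t c (t e) ≠ 0 := by
          intro h
          have h1 := le_nu t c hc e
          rw [h] at h1
          exact hce (le_antisymm h1 (hc e))
        rw [mul_assoc]
        congr 1
        rw [Finset.sum_mul]
        refine Finset.sum_congr rfl fun a _ => ?_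
        rw [if_pos hn]
        field_simp
    rw [h3, h4]
    exact mul_le_mul_of_nonneg_right h2 (sq_nonneg _)
  · have hz : g = 0 := dotProduct_self_eq_zero.mp h0.symm
    subst hz
    simp

/-- Main inequalities of the weighted two-step deflation. -/
theorem wmain (s : E → U) (t : E → V) (π : E → A → B) (dd : ℕ)
    (hfib : ∀ e b, (Finset.univ.filter fun a => π e a = b).card ≤ dd) (c : E → ℝ)
    (hc : ∀ e, 0 ≤ c e) (m : ℝ) (hm : 0 < m) (hmd : ∑ e, c e = m) (κ δ : ℝ)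
    {x : U → A → D → ℝ} {y : V → B → D → ℝ} (h : SdpFeasible x y) (hκ : 0 ≤ κ)
    (hval : κ * m ≤ ∑ e, c e * ∑ a, x (s e) a ⬝ᵥ y (t e) (π e a))
    (hbd : ∀ (L : U → A) (M : V → B),
      ∑ e, c e * (if π e (L (s e)) = M (t e) then 1 else 0) ≤ δ * m)
    (n : ℕ) (hpos : 0 ≤ κ ^ 2 - 2 * n * δ) :
    ∃ T : Module.End ℝ (D → ℝ), (∀ u, ∑ i, dfeat T (x u) i ^ 2 ≤ 1) ∧
      (κ ^ 2 - 2 * n * δ) ^ 2 * m ≤
        dd * ∑ e, c e * aw t c (fun e' => dker T (x (s e)) (x (s e'))) (t e) ∧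
      ∑ e, c e * ∑ e', c e' * dker T (x (s e)) (x (s e')) ^ 2 ≤ m ^ 2 / (2 * n + 1) := by
  obtain ⟨z, hx, hy⟩ := h.left
  obtain ⟨-, -, -, -, -, -, hxx, hxy, hyy⟩ := h
  obtain ⟨ω, hω⟩ : ∃ ω : E × A → ℝ, ∀ k, ω k = c k.1 / m := ⟨_, fun _ => rfl⟩
  obtain ⟨wv, hwv⟩ : ∃ wv : E × A → D → ℝ, ∀ k, wv k = x (s k.1) k.2 := ⟨_, fun _ => rfl⟩
  have hω0 : ∀ k, 0 ≤ ω k := fun k => by rw [hω]; exact div_nonneg (hc _) hm.le
  have hexp : ∀ F : E → A → ℝ, ∑ k : E × A, ω k * F k.1 k.2 =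
      (∑ e, c e * ∑ a, F e a) / m := by
    intro F
    rw [Fintype.sum_prod_type, sum_div]
    refine sum_congr rfl fun e _ => ?_
    simp only [hω]
    rw [← mul_sum]
    ring
  have hbes : ∀ v, ∑ k, ω k * ((wv k ⬝ᵥ v) ^ 2 / (wv k ⬝ᵥ wv k)) ≤ v ⬝ᵥ v := by
    intro v
    simp only [hwv]
    rw [hexp (fun e a => (x (s e) a ⬝ᵥ v) ^ 2 / (x (s e) a ⬝ᵥ x (s e) a)), div_le_iff₀ hm,
      ← hmd, mul_comm, sum_mul]
    exact sum_le_sum fun e _ => mul_le_mul_of_nonneg_left (dot_bessel (x (s e)) (hx _).orth v)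
      (hc e)
  have hg : Good (pw ω wv) := pw_good ω hω0 wv hbes
  obtain ⟨P, hP⟩ : ∃ P, P = pw ω wv := ⟨_, rfl⟩
  obtain ⟨T, hT⟩ : ∃ T, T = (1 - P) ^ n := ⟨_, rfl⟩
  rw [← hP] at hg
  have hsym : ∀ v w, T v ⬝ᵥ w = v ⬝ᵥ T w := by rw [hT]; exact hg.pow_sym n
  have hcon : ∀ v, T v ⬝ᵥ T v ≤ v ⬝ᵥ v := by rw [hT]; exact fun v => hg.pow_norm v n
  have hPq : ∀ v : D → ℝ, v ⬝ᵥ P v =
      (∑ e, c e * ∑ a, (x (s e) a ⬝ᵥ v) ^ 2 / (x (s e) a ⬝ᵥ x (s e) a)) / m := by
    intro v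
    rw [dotProduct_comm, hP, pw_dot, ← hexp (fun e a => (x (s e) a ⬝ᵥ v) ^ 2 /
      (x (s e) a ⬝ᵥ x (s e) a))]
    refine sum_congr rfl fun k _ => ?_
    rw [hwv, sq]
  have hsumm : ∀ k : ℝ, ∑ e, c e * k = m * k := by
    intro k
    rw [← sum_mul, hmd]
  refine ⟨T, fun u => dfeat_norm T hsym hcon (hx u), ?_, ?_⟩
  · -- the averaged vectors carry the value
    have s1 : κ ^ 2 * m ≤
        ∑ e, c e * ∑ b, xa s t c π x (t e) b ⬝ᵥ xa s t c π x (t e) b := by
      rw [← xa_val s t c hc π x y] at hval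
      have e1 : ∀ e b, 2 * κ * (xa s t c π x (t e) b ⬝ᵥ y (t e) b) -
          κ ^ 2 * (y (t e) b ⬝ᵥ y (t e) b) ≤
          xa s t c π x (t e) b ⬝ᵥ xa s t c π x (t e) b := by
        intro e b
        have e2 := dot_self_nonneg (xa s t c π x (t e) b - κ • y (t e) b)
        have e3 : (xa s t c π x (t e) b - κ • y (t e) b) ⬝ᵥ
            (xa s t c π x (t e) b - κ • y (t e) b) =
            xa s t c π x (t e) b ⬝ᵥ xa s t c π x (t e) b -
              2 * κ * (xa s t c π x (t e) b ⬝ᵥ y (t e) b) +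
              κ ^ 2 * (y (t e) b ⬝ᵥ y (t e) b) := by
          rw [sub_dotProduct, dotProduct_sub, dotProduct_sub, smul_dotProduct, dotProduct_smul,
            smul_dotProduct, dotProduct_smul, dotProduct_comm (y (t e) b) (xa s t c π x (t e) b)]
          simp only [smul_eq_mul]
          ring
        rw [e3] at e2
        linarith
      have e4 : ∑ e, c e * (2 * κ * (∑ b, xa s t c π x (t e) b ⬝ᵥ y (t e) b) - κ ^ 2) ≤
          ∑ e, c e * ∑ b, xa s t c π x (t e) b ⬝ᵥ xa s t c π x (t e) b := by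
        refine sum_le_sum fun e _ => mul_le_mul_of_nonneg_left ?_ (hc e)
        have e5 := Finset.sum_le_sum fun b (_ : b ∈ (Finset.univ : Finset B)) => e1 e b
        rw [Finset.sum_sub_distrib, ← Finset.mul_sum, ← Finset.mul_sum, (hy _).sum_norm,
          mul_one] at e5
        exact e5
      have e6 : ∑ e, c e * (2 * κ * (∑ b, xa s t c π x (t e) b ⬝ᵥ y (t e) b) - κ ^ 2) =
          2 * κ * (∑ e, c e * ∑ b, xa s t c π x (t e) b ⬝ᵥ y (t e) b) - m * κ ^ 2 := by
        rw [← hsumm, mul_sum, ← sum_sub_distrib]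
        exact sum_congr rfl fun e _ => by ring
      rw [e6] at e4
      have e7 := mul_le_mul_of_nonneg_left hval (by positivity : 0 ≤ 2 * κ)
      nlinarith
    -- the projector is small on them
    have s2 : ∑ e, c e * ∑ b, xa s t c π x (t e) b ⬝ᵥ P (xa s t c π x (t e) b) ≤ δ * m := by
      simp only [hPq]
      have e2 : ∑ e, c e * ∑ b, (∑ e', c e' * ∑ a, (x (s e') a ⬝ᵥ xa s t c π x (t e) b) ^ 2 /
          (x (s e') a ⬝ᵥ x (s e') a)) / m =
          (∑ e', c e' * ∑ a, (∑ e, c e * ∑ b, (x (s e') a ⬝ᵥ xa s t c π x (t e) b) ^ 2) /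
            (x (s e') a ⬝ᵥ x (s e') a)) / m := by
        rw [sum_div]
        calc ∑ e, c e * ∑ b, (∑ e', c e' * ∑ a, (x (s e') a ⬝ᵥ xa s t c π x (t e) b) ^ 2 /
              (x (s e') a ⬝ᵥ x (s e') a)) / m
            = ∑ p : E × B, ∑ q : E × A, c p.1 * c q.1 * ((x (s q.1) q.2 ⬝ᵥ
              xa s t c π x (t p.1) p.2) ^ 2 / (x (s q.1) q.2 ⬝ᵥ x (s q.1) q.2)) / m := by
              rw [Fintype.sum_prod_type]
              refine Finset.sum_congr rfl fun e _ => ?_
              rw [mul_sum]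
              refine Finset.sum_congr rfl fun b _ => ?_
              rw [Fintype.sum_prod_type, ← mul_div_assoc, mul_sum, sum_div]
              refine Finset.sum_congr rfl fun e' _ => ?_
              rw [← sum_div, mul_sum, mul_sum]
              congr 1
              exact Finset.sum_congr rfl fun a _ => by ring
          _ = ∑ q : E × A, ∑ p : E × B, c p.1 * c q.1 * ((x (s q.1) q.2 ⬝ᵥ
              xa s t c π x (t p.1) p.2) ^ 2 / (x (s q.1) q.2 ⬝ᵥ x (s q.1) q.2)) / m :=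
              Finset.sum_comm
          _ = _ := by
              rw [Fintype.sum_prod_type]
              refine Finset.sum_congr rfl fun e' _ => ?_
              rw [mul_sum, sum_div]
              refine Finset.sum_congr rfl fun a _ => ?_
              rw [Fintype.sum_prod_type, sum_div, mul_sum, sum_div]
              refine Finset.sum_congr rfl fun e _ => ?_
              rw [mul_sum, sum_div, mul_sum, sum_div]
              refine Finset.sum_congr rfl fun b _ => by ring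
      rw [e2, div_le_iff₀ hm]
      have e3 : ∀ e' a, (∑ e, c e * ∑ b, (x (s e') a ⬝ᵥ xa s t c π x (t e) b) ^ 2) /
          (x (s e') a ⬝ᵥ x (s e') a) ≤ δ * m * (x (s e') a ⬝ᵥ x (s e') a) := by
        intro e' a
        have e4 := seedw s t c hc π hx hy (δ * m) hbd (x (s e') a) (fun u a => hxx _ _ _ _)
          (fun v b => hxy _ _ _ _) ((hx _).dot_z a)
        rcases (dot_self_nonneg (x (s e') a)).lt_or_eq with h0 | h0
        · rw [div_le_iff₀ h0]
          refine e4.trans (le_of_eq ?_)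
          ring
        · rw [← h0]; simp
      calc ∑ e', c e' * ∑ a, (∑ e, c e * ∑ b, (x (s e') a ⬝ᵥ xa s t c π x (t e) b) ^ 2) /
            (x (s e') a ⬝ᵥ x (s e') a)
          ≤ ∑ e', c e' * ∑ a, δ * m * (x (s e') a ⬝ᵥ x (s e') a) :=
            Finset.sum_le_sum fun e _ => mul_le_mul_of_nonneg_left
              (Finset.sum_le_sum fun a _ => e3 e a) (hc e)
        _ = δ * m * m := by
            simp only [← Finset.mul_sum, (hx _).sum_norm]
            rw [hsumm]
            ring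
    have s3 : m * (κ ^ 2 - 2 * n * δ) ≤
        ∑ e, c e * ∑ b, T (xa s t c π x (t e) b) ⬝ᵥ T (xa s t c π x (t e) b) := by
      have e1 : ∑ e, c e * (∑ b, xa s t c π x (t e) b ⬝ᵥ xa s t c π x (t e) b -
          2 * n * ∑ b, xa s t c π x (t e) b ⬝ᵥ P (xa s t c π x (t e) b)) ≤
          ∑ e, c e * ∑ b, T (xa s t c π x (t e) b) ⬝ᵥ T (xa s t c π x (t e) b) := by
        refine sum_le_sum fun e _ => mul_le_mul_of_nonneg_left ?_ (hc e)
        rw [mul_sum, ← sum_sub_distrib]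
        refine sum_le_sum fun b _ => ?_
        rw [hT]
        exact (hg.pow_low (xa s t c π x (t e) b) n).1
      have e2 : ∑ e, c e * (∑ b, xa s t c π x (t e) b ⬝ᵥ xa s t c π x (t e) b -
          2 * n * ∑ b, xa s t c π x (t e) b ⬝ᵥ P (xa s t c π x (t e) b)) =
          (∑ e, c e * ∑ b, xa s t c π x (t e) b ⬝ᵥ xa s t c π x (t e) b) -
          2 * n * ∑ e, c e * ∑ b, xa s t c π x (t e) b ⬝ᵥ P (xa s t c π x (t e) b) := by
        rw [mul_sum, ← sum_sub_distrib]
        exact sum_congr rfl fun e _ => by ring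
      rw [e2] at e1
      have e3 : (2 * n : ℝ) * ∑ e, c e * ∑ b, xa s t c π x (t e) b ⬝ᵥ
          P (xa s t c π x (t e) b) ≤ (2 * n : ℝ) * (δ * m) :=
        mul_le_mul_of_nonneg_left s2 (by positivity)
      linarith
    -- the kernel
    obtain ⟨S, hS⟩ : ∃ S, S = ∑ e, c e * ∑ b, T (xa s t c π x (t e) b) ⬝ᵥ
        T (xa s t c π x (t e) b) := ⟨_, rfl⟩
    obtain ⟨Wk, hWk⟩ : ∃ Wk, Wk = ∑ e, c e * aw t c (fun e' => dker T (x (s e)) (x (s e'))) (t e) :=
      ⟨_, rfl⟩
    obtain ⟨σ, hσ⟩ : ∃ σ : E → E → ℝ, ∀ e e', σ e e' =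
        ∑ b, T (fib s π x b e) ⬝ᵥ T (fib s π x b e') := ⟨_, fun _ _ => rfl⟩
    have e1 : S = ∑ e, c e * aw t c (fun e' => σ e e') (t e) := by
      rw [hS, xa_sq s t c hc]
      simp only [hσ]
    have e2 : ∀ e e', σ e e' ^ 2 ≤ dd * dker T (x (s e)) (x (s e')) := by
      intro e e'
      have e3 : σ e e' = ∑ a, ∑ a', if π e a = π e' a' then T (x (s e) a) ⬝ᵥ T (x (s e') a')
          else 0 := by
        rw [hσ]
        have e4 : ∀ b, T (fib s π x b e) ⬝ᵥ T (fib s π x b e') =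
            fib s π x b e ⬝ᵥ T (T (fib s π x b e')) := fun b => hsym _ _
        simp only [e4]
        rw [fib_dot s π x e (fun b => T (T (fib s π x b e')))]
        refine Finset.sum_congr rfl fun a _ => ?_
        rw [← hsym, fib, map_sum, dotProduct_sum, Finset.sum_filter]
        refine Finset.sum_congr rfl fun a' _ => ?_
        by_cases hab : π e a = π e' a'
        · rw [if_pos hab, if_pos hab.symm]
        · rw [if_neg hab, if_neg (fun h => hab h.symm)]
      rw [e3]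
      exact two_edge T (hx _) (hx _) (π e) (π e') dd (hfib e) (hfib e')
    have hSW : S ^ 2 ≤ m * (dd * Wk) := by
      calc S ^ 2 = (∑ e, c e * aw t c (fun e' => σ e e') (t e)) ^ 2 := by rw [e1]
        _ ≤ m * ∑ e, c e * aw t c (fun e' => σ e e') (t e) ^ 2 := by
            have := Finset.sum_sq_le_sum_mul_sum_of_sq_le_mul (univ : Finset E)
              (r := fun e => c e * aw t c (fun e' => σ e e') (t e))
              (f := c) (g := fun e => c e * aw t c (fun e' => σ e e') (t e) ^ 2)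
              (fun e _ => hc e) (fun e _ => mul_nonneg (hc e) (sq_nonneg _))
              (fun e _ => le_of_eq (by ring))
            rwa [hmd] at this
        _ ≤ m * ∑ e, c e * aw t c (fun e' => σ e e' ^ 2) (t e) :=
            mul_le_mul_of_nonneg_left (Finset.sum_le_sum fun e _ =>
              mul_le_mul_of_nonneg_left (aw_sq_le t c hc _ _) (hc e)) hm.le
        _ ≤ m * ∑ e, c e * aw t c (fun e' => dd * dker T (x (s e)) (x (s e'))) (t e) :=
            mul_le_mul_of_nonneg_left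
              (Finset.sum_le_sum fun e _ => mul_le_mul_of_nonneg_left
                (aw_mono t c hc _ _ (fun e' => e2 e e') _) (hc e)) hm.le
        _ = m * (dd * Wk) := by
            simp only [aw_smul]
            rw [hWk]
            congr 1
            rw [mul_sum]
            exact sum_congr rfl fun e _ => by ring
    rw [← hWk]
    rw [← hS] at s3
    have h1 : (m * (κ ^ 2 - 2 * n * δ)) ^ 2 ≤ m * (dd * Wk) :=
      (pow_le_pow_left₀ (mul_nonneg hm.le hpos) s3 2).trans hSW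
    have h2 : m * ((κ ^ 2 - 2 * n * δ) ^ 2 * m) ≤ m * (dd * Wk) := by
      calc m * ((κ ^ 2 - 2 * n * δ) ^ 2 * m) = (m * (κ ^ 2 - 2 * n * δ)) ^ 2 := by ring
        _ ≤ _ := h1
    exact le_of_mul_le_mul_left h2 hm
  · -- the global bound
    have hside : ∀ w : D → ℝ, ∑ e, c e * ∑ a, (T (x (s e) a) ⬝ᵥ T w) ^ 2 /
        (x (s e) a ⬝ᵥ x (s e) a) ≤ m * ((w ⬝ᵥ w) / (2 * n + 1)) := by
      intro w
      have h3 := hg.pow_quad w (n + n)
      have h4 : ((1 - P) ^ (n + n)) w = T (T w) := by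
        rw [pow_add, Module.End.mul_apply, hT]
      rw [h4, hPq, div_le_iff₀ hm, mul_comm _ m] at h3
      have h5 : ((n + n : ℕ) : ℝ) + 1 = 2 * n + 1 := by push_cast; ring
      rw [h5] at h3
      refine le_trans (le_of_eq ?_) h3
      refine Finset.sum_congr rfl fun e _ => ?_
      congr 1
      refine Finset.sum_congr rfl fun a _ => ?_
      rw [hsym]
    have hcs : ∀ e e', dker T (x (s e)) (x (s e')) ^ 2 ≤
        ∑ b, ∑ a, (T (x (s e') a) ⬝ᵥ T (x (s e) b)) ^ 2 / (x (s e') a ⬝ᵥ x (s e') a) := by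
      intro e e'
      have k1 := Finset.sum_sq_le_sum_mul_sum_of_sq_le_mul (univ : Finset (A × A))
        (r := fun p => (T (x (s e) p.1) ⬝ᵥ T (x (s e') p.2)) ^ 2 /
          (Real.sqrt (x (s e) p.1 ⬝ᵥ x (s e) p.1) * Real.sqrt (x (s e') p.2 ⬝ᵥ x (s e') p.2)))
        (f := fun p => (T (x (s e) p.1) ⬝ᵥ T (x (s e') p.2)) ^ 2 / (x (s e') p.2 ⬝ᵥ x (s e') p.2))
        (g := fun p => (T (x (s e) p.1) ⬝ᵥ T (x (s e') p.2)) ^ 2 / (x (s e) p.1 ⬝ᵥ x (s e) p.1))
        (fun p _ => div_nonneg (sq_nonneg _) (dot_self_nonneg _))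
        (fun p _ => div_nonneg (sq_nonneg _) (dot_self_nonneg _))
        (fun p _ => by
          rw [div_pow, mul_pow, Real.sq_sqrt (dot_self_nonneg _), Real.sq_sqrt (dot_self_nonneg _),
            div_mul_div_comm]
          apply le_of_eq
          congr 1
          · ring
          · ring)
      rw [Fintype.sum_prod_type, Fintype.sum_prod_type, Fintype.sum_prod_type] at k1
      have k2 : ∑ b, ∑ a, (T (x (s e) b) ⬝ᵥ T (x (s e') a)) ^ 2 / (x (s e) b ⬝ᵥ x (s e) b) ≤ 1 := by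
        rw [sum_comm, ← (hx (s e')).sum_norm]
        exact Finset.sum_le_sum fun b _ => left_sum T hsym hcon (x (s e)) (hx _).orth (x (s e') b)
      have k3 : 0 ≤ ∑ b, ∑ a, (T (x (s e) b) ⬝ᵥ T (x (s e') a)) ^ 2 /
          (x (s e') a ⬝ᵥ x (s e') a) :=
        sum_nonneg fun b _ => sum_nonneg fun a _ =>
          div_nonneg (sq_nonneg _) (dot_self_nonneg _)
      calc dker T (x (s e)) (x (s e')) ^ 2 ≤ _ := k1
        _ ≤ (∑ b, ∑ a, (T (x (s e) b) ⬝ᵥ T (x (s e') a)) ^ 2 /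
          (x (s e') a ⬝ᵥ x (s e') a)) * 1 := mul_le_mul_of_nonneg_left k2 k3
        _ = _ := by
            rw [mul_one]
            refine sum_congr rfl fun b _ => sum_congr rfl fun a _ => ?_
            rw [dotProduct_comm]
    have hrow : ∀ e, ∑ e', c e' * dker T (x (s e)) (x (s e')) ^ 2 ≤ m / (2 * n + 1) := by
      intro e
      calc ∑ e', c e' * dker T (x (s e)) (x (s e')) ^ 2
          ≤ ∑ e', c e' * ∑ b, ∑ a, (T (x (s e') a) ⬝ᵥ T (x (s e) b)) ^ 2 /
            (x (s e') a ⬝ᵥ x (s e') a) :=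
            sum_le_sum fun e' _ => mul_le_mul_of_nonneg_left (hcs e e') (hc e')
        _ = ∑ b, ∑ e', c e' * ∑ a, (T (x (s e') a) ⬝ᵥ T (x (s e) b)) ^ 2 /
            (x (s e') a ⬝ᵥ x (s e') a) := by
            rw [sum_comm]
            exact sum_congr rfl fun e' _ => by rw [mul_sum]
        _ ≤ ∑ b, m * ((x (s e) b ⬝ᵥ x (s e) b) / (2 * n + 1)) :=
            sum_le_sum fun b _ => hside _
        _ = m / (2 * n + 1) := by
            rw [← mul_sum, ← sum_div, (hx _).sum_norm]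
            ring
    calc ∑ e, c e * ∑ e', c e' * dker T (x (s e)) (x (s e')) ^ 2
        ≤ ∑ e, c e * (m / (2 * n + 1)) :=
          sum_le_sum fun e _ => mul_le_mul_of_nonneg_left (hrow e) (hc e)
      _ = m ^ 2 / (2 * n + 1) := by rw [hsumm]; ring

end Main

end Run7.h881.GP
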