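import Pool.Agent.Run7.h881.GP.Trace

/-!
Correlations of features along the walk on an extremal set.
-/

set_option autoImplicit false
set_option linter.unusedSectionVars false

namespace Run7.h881.GP

open Finset

/-- a log-convex sequence grows at least geometrically -/
theorem seq_pow (b : ℕ → ℝ) (q ρ : ℝ) (h0 : ∀ j, 0 ≤ b j)
    (hc : ∀ j, b (j + 1) ^ 2 ≤ b j * b (j + 2)) (hb0 : b 0 ≤ q) (hb1 : q * ρ ≤ b 1)
    (hq : 0 < q) (hρ : 0 < ρ) (j : ℕ) : q * ρ ^ (j + 1) ≤ b (j + 1) := by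
  have hb1' : 0 < b 1 := lt_of_lt_of_le (by positivity) hb1
  have key : ∀ j, 0 < b j ∧ ρ * b j ≤ b (j + 1) := by
    intro j
    induction j with
    | zero =>
      have h1 := hc 0
      have h2 : 0 < b 0 := by
        rcases (h0 0).eq_or_lt with h | h
        · exfalso
          rw [← h, zero_mul] at h1
          have : 0 < b (0 + 1) ^ 2 := by positivity
          linarith
        · exact h
      refine ⟨h2, ?_⟩
      have := mul_le_mul_of_nonneg_left hb0 hρ.le
      simp only [zero_add]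
      linarith
    | succ j ih =>
      obtain ⟨h1, h2⟩ := ih
      have h3 : 0 < b (j + 1) := lt_of_lt_of_le (by positivity) h2
      refine ⟨h3, ?_⟩
      have h4 := hc j
      have h5 : b j * (ρ * b (j + 1)) ≤ b j * b (j + 2) := by
        calc b j * (ρ * b (j + 1)) = (ρ * b j) * b (j + 1) := by ring
          _ ≤ b (j + 1) * b (j + 1) := mul_le_mul_of_nonneg_right h2 h3.le
          _ = b (j + 1) ^ 2 := by ring
          _ ≤ _ := h4
      exact le_of_mul_le_mul_left h5 h1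
  induction j with
  | zero => simpa using hb1
  | succ j ih =>
    calc q * ρ ^ (j + 1 + 1) = ρ * (q * ρ ^ (j + 1)) := by ring
      _ ≤ ρ * b (j + 1) := mul_le_mul_of_nonneg_left ih hρ.le
      _ ≤ _ := (key (j + 1)).2

section
variable {W J : Type} [Fintype W] [DecidableEq W] [Fintype J] {w : W → W → ℝ} {d : W → ℝ}
  (hG : Gr w d) (S : Finset W)

/-- correlation of the features at time `j` -/
noncomputable def Cf (w : W → W → ℝ) (d : W → ℝ) (S : Finset W) (lam : ℝ) (f : W → ℝ)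
    (Y : W → J → ℝ) (j : ℕ) : ℝ :=
  (∑ i, ip d (fun x => f x * Y x i) ((ks w d S)^[j] (fun x => f x * Y x i))) / lam ^ j

include hG

theorem ip_add (j k : ℕ) (g : W → ℝ) (hg : Sup S g) :
    ip d ((ks w d S)^[j] g) ((ks w d S)^[k] g) = ip d g ((ks w d S)^[j + k] g) := by
  rw [ks_iter_sym hG S j g _ hg (iter_sup hG S k g hg), ← Function.iterate_add_apply]

theorem cf_even (lam : ℝ) (f : W → ℝ) (hf : Sup S f) (Y : W → J → ℝ) (j : ℕ) :
    Cf w d S lam f Y (2 * j) =
      (∑ i, nq d ((ks w d S)^[j] (fun x => f x * Y x i))) / lam ^ (2 * j) := by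
  unfold Cf
  congr 1
  refine sum_congr rfl fun i _ => ?_
  rw [two_mul, ← ip_add hG S j j _ (fun v hv => by simp [hf v hv]), ip_self]

theorem cf_nonneg (lam : ℝ) (hlam : 0 < lam) (f : W → ℝ) (hf : Sup S f) (Y : W → J → ℝ)
    (j : ℕ) : 0 ≤ Cf w d S lam f Y (2 * j) := by
  rw [cf_even hG S lam f hf Y j]
  exact div_nonneg (sum_nonneg fun i _ => nq_nonneg hG _) (by positivity)

omit hG in
theorem cs_sum (hd : ∀ u, 0 ≤ d u) (a b : J → W → ℝ) :
    (∑ i, ip d (a i) (b i)) ^ 2 ≤ (∑ i, nq d (a i)) * ∑ i, nq d (b i) := by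
  have h1 := Finset.sum_sq_le_sum_mul_sum_of_sq_le_mul (univ : Finset (J × W))
    (r := fun p => d p.2 * (a p.1 p.2 * b p.1 p.2)) (f := fun p => d p.2 * a p.1 p.2 ^ 2)
    (g := fun p => d p.2 * b p.1 p.2 ^ 2)
    (fun p _ => mul_nonneg (hd _) (sq_nonneg _))
    (fun p _ => mul_nonneg (hd _) (sq_nonneg _))
    (fun p _ => le_of_eq (by ring))
  rw [Fintype.sum_prod_type, Fintype.sum_prod_type, Fintype.sum_prod_type] at h1
  exact h1

theorem cf_conv (lam : ℝ) (hlam : 0 < lam) (f : W → ℝ) (hf : Sup S f) (Y : W → J → ℝ) (j : ℕ) :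
    Cf w d S lam f Y (2 * (j + 1)) ^ 2 ≤
      Cf w d S lam f Y (2 * j) * Cf w d S lam f Y (2 * (j + 2)) := by
  have hg : ∀ i, Sup S (fun x => f x * Y x i) := fun i v hv => by simp [hf v hv]
  have h1 := cs_sum (d := d) (fun u => (hG.dp u).le)
    (fun i => (ks w d S)^[j] (fun x => f x * Y x i))
    (fun i => (ks w d S)^[j + 2] (fun x => f x * Y x i))
  have h2 : ∑ i, ip d ((ks w d S)^[j] (fun x => f x * Y x i))
      ((ks w d S)^[j + 2] (fun x => f x * Y x i)) =
      ∑ i, nq d ((ks w d S)^[j + 1] (fun x => f x * Y x i)) := by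
    refine sum_congr rfl fun i _ => ?_
    rw [ip_add hG S j (j + 2) _ (hg i), ← ip_self, ip_add hG S (j + 1) (j + 1) _ (hg i),
      show j + (j + 2) = j + 1 + (j + 1) by ring]
  rw [h2] at h1
  rw [cf_even hG S lam f hf Y, cf_even hG S lam f hf Y, cf_even hG S lam f hf Y, div_pow,
    div_mul_div_comm]
  have e1 : (lam ^ (2 * (j + 1))) ^ 2 = lam ^ (2 * j) * lam ^ (2 * (j + 2)) := by
    rw [← pow_mul, ← pow_add]
    congr 1
    ring
  rw [e1]
  exact div_le_div_of_nonneg_right h1 (by positivity)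

theorem cf_zero (lam : ℝ) (f : W → ℝ) (Y : W → J → ℝ) :
    Cf w d S lam f Y 0 = ∑ x, d x * f x ^ 2 * ∑ i, Y x i ^ 2 := by
  unfold Cf ip
  simp only [Function.iterate_zero, id_eq, pow_zero, div_one]
  rw [sum_comm]
  refine sum_congr rfl fun x _ => ?_
  rw [mul_sum]
  exact sum_congr rfl fun i _ => by ring

/-- upper bound by the trace -/
theorem cf_upper (lam : ℝ) (hlam : 0 < lam) (f : W → ℝ) (hf : Sup S f) (Y : W → J → ℝ) (j : ℕ) :
    Cf w d S lam f Y j ^ 2 ≤ Tr w d S j / lam ^ (2 * j) *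
      ∑ x, ∑ y, (d x * f x ^ 2) * (d y * f y ^ 2) * (∑ i, Y x i * Y y i) ^ 2 := by
  have hg : ∀ i, Sup S (fun x => f x * Y x i) := fun i v hv => by simp [hf v hv]
  have h1 : ∑ i, ip d (fun x => f x * Y x i) ((ks w d S)^[j] (fun x => f x * Y x i)) =
      ∑ z ∈ S, ∑ x, (d z * d x * pk w d S j z x) * (f z * f x * ∑ i, Y z i * Y x i) := by
    have e1 : ∀ i, ip d (fun x => f x * Y x i) ((ks w d S)^[j] (fun x => f x * Y x i)) =
        ∑ z ∈ S, ∑ x, (d z * d x * pk w d S j z x) * (f z * f x * (Y z i * Y x i)) := by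
      intro i
      unfold ip
      rw [← sum_subset (subset_univ S)]
      · refine sum_congr rfl fun z hz => ?_
        rw [← pk_ip hG S j z hz _ (hg i)]
        unfold ip
        rw [mul_sum, mul_sum]
        exact sum_congr rfl fun x _ => by ring
      · intro z _ hz
        beta_reduce
        rw [hf z hz]; ring
    simp only [e1]
    rw [sum_comm]
    refine sum_congr rfl fun z _ => ?_
    rw [sum_comm]
    refine sum_congr rfl fun x _ => ?_
    rw [← mul_sum, ← mul_sum]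
  have h2 := Finset.sum_sq_le_sum_mul_sum_of_sq_le_mul (S ×ˢ (univ : Finset W))
    (r := fun p => (d p.1 * d p.2 * pk w d S j p.1 p.2) *
      (f p.1 * f p.2 * ∑ i, Y p.1 i * Y p.2 i))
    (f := fun p => d p.1 * (d p.2 * pk w d S j p.1 p.2 ^ 2))
    (g := fun p => (d p.1 * f p.1 ^ 2) * (d p.2 * f p.2 ^ 2) * (∑ i, Y p.1 i * Y p.2 i) ^ 2)
    (fun p _ => mul_nonneg (hG.dp _).le (mul_nonneg (hG.dp _).le (sq_nonneg _)))
    (fun p _ => mul_nonneg (mul_nonneg (mul_nonneg (hG.dp _).le (sq_nonneg _))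
      (mul_nonneg (hG.dp _).le (sq_nonneg _))) (sq_nonneg _))
    (fun p _ => le_of_eq (by ring))
  rw [sum_product, sum_product, sum_product, ← h1] at h2
  have h3 : ∑ x ∈ S, ∑ y, d x * (d y * pk w d S j x y ^ 2) = Tr w d S j := by
    unfold Tr nq
    exact sum_congr rfl fun x _ => by rw [mul_sum]
  rw [h3] at h2
  have h4 : ∑ x ∈ S, ∑ y, (d x * f x ^ 2) * (d y * f y ^ 2) * (∑ i, Y x i * Y y i) ^ 2 ≤
      ∑ x, ∑ y, (d x * f x ^ 2) * (d y * f y ^ 2) * (∑ i, Y x i * Y y i) ^ 2 :=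
    sum_le_sum_of_subset_of_nonneg (subset_univ _) fun x _ _ => sum_nonneg fun y _ =>
      mul_nonneg (mul_nonneg (mul_nonneg (hG.dp _).le (sq_nonneg _))
        (mul_nonneg (hG.dp _).le (sq_nonneg _))) (sq_nonneg _)
  have hT : 0 ≤ Tr w d S j := sum_nonneg fun x _ => mul_nonneg (hG.dp x).le (nq_nonneg hG _)
  unfold Cf
  rw [div_pow, ← pow_mul, mul_comm j 2, div_mul_eq_mul_div]
  refine div_le_div_of_nonneg_right (h2.trans (mul_le_mul_of_nonneg_left h4 hT)) (by positivity)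

end

end Run7.h881.GP
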