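import Mathlib

/-!
A set of vertices of a weighted graph which maximises `λ / vol ^ a`, where `λ` is the largest
eigenvalue of the walk killed outside of the set, and its ground state.
-/

set_option autoImplicit false
set_option linter.unusedSectionVars false

namespace Run7.h881.GP

open Finset

section
variable {W : Type} [Fintype W] [DecidableEq W]

/-- the bilinear form of the weights -/
def bf (w : W → W → ℝ) (g h : W → ℝ) : ℝ := ∑ u, ∑ v, w u v * (g u * h v)

/-- the square of the norm -/
def nq (d : W → ℝ) (g : W → ℝ) : ℝ := ∑ v, d v * g v ^ 2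

/-- the volume -/
def vl (d : W → ℝ) (S : Finset W) : ℝ := ∑ v ∈ S, d v

/-- `g` vanishes outside of `S` -/
def Sup (S : Finset W) (g : W → ℝ) : Prop := ∀ v, v ∉ S → g v = 0

/-- a weighted graph with reference measure `d` -/
structure Gr (w : W → W → ℝ) (d : W → ℝ) : Prop where
  nn : ∀ u v, 0 ≤ w u v
  sy : ∀ u v, w u v = w v u
  dg : ∀ u, ∑ v, w u v ≤ d u
  dp : ∀ u, 0 < d u

variable {w : W → W → ℝ} {d : W → ℝ} (hG : Gr w d)
include hG

theorem nq_nonneg (g : W → ℝ) : 0 ≤ nq d g :=
  sum_nonneg fun v _ => mul_nonneg (hG.dp v).le (sq_nonneg _)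

theorem nq_eq_zero {g : W → ℝ} (h : nq d g = 0) : g = 0 := by
  funext v
  have h1 := (sum_eq_zero_iff_of_nonneg (fun v _ => mul_nonneg (hG.dp v).le (sq_nonneg (g v)))).1 h
    v (mem_univ v)
  rcases mul_eq_zero.1 h1 with h2 | h2
  · exact absurd h2 (hG.dp v).ne'
  · exact pow_eq_zero_iff two_ne_zero |>.1 h2

omit hG in
theorem nq_smul (c : ℝ) (g : W → ℝ) : nq d (fun v => c * g v) = c ^ 2 * nq d g := by
  unfold nq
  rw [mul_sum]
  exact sum_congr rfl fun v _ => by ring

omit hG in
theorem bf_smul (c : ℝ) (g : W → ℝ) :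
    bf w (fun v => c * g v) (fun v => c * g v) = c ^ 2 * bf w g g := by
  unfold bf
  rw [mul_sum]
  refine sum_congr rfl fun u _ => ?_
  rw [mul_sum]
  exact sum_congr rfl fun v _ => by ring

theorem bf_abs (g : W → ℝ) : bf w g g ≤ bf w (fun v => |g v|) (fun v => |g v|) := by
  unfold bf
  refine sum_le_sum fun u _ => sum_le_sum fun v _ => mul_le_mul_of_nonneg_left ?_ (hG.nn u v)
  rw [← abs_mul]
  exact le_abs_self _

theorem bf_comm (g h : W → ℝ) : bf w g h = bf w h g := by
  unfold bf
  rw [sum_comm]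
  refine sum_congr rfl fun u _ => sum_congr rfl fun v _ => ?_
  rw [hG.sy v u]; ring

/-- a ground state of the set `S` -/
structure IsTop (w : W → W → ℝ) (d : W → ℝ) (S : Finset W) (f : W → ℝ) : Prop where
  nn : ∀ v, 0 ≤ f v
  su : Sup S f
  no : nq d f = 1
  mx : ∀ g, Sup S g → bf w g g ≤ bf w f f * nq d g

theorem exists_top (S : Finset W) (hS : S.Nonempty) : ∃ f, IsTop w d S f := by
  obtain ⟨s, hs⟩ := hS
  set C : Set (W → ℝ) := {g | (∀ v, v ∉ S → g v = 0) ∧ nq d g = 1} with hC
  have hcn : Continuous (fun g : W → ℝ => nq d g) := by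
    unfold nq
    fun_prop
  have hcb : Continuous (fun g : W → ℝ => bf w g g) := by
    unfold bf
    fun_prop
  have hcl : IsClosed C := by
    have h1 : C = (⋂ v, {g : W → ℝ | v ∉ S → g v = 0}) ∩ {g | nq d g = 1} := by
      ext g; simp [hC]
    rw [h1]
    refine IsClosed.inter (isClosed_iInter fun v => ?_) (isClosed_eq hcn continuous_const)
    by_cases hv : v ∈ S
    · simp [hv]
    · simp only [hv, not_false_eq_true, forall_const]
      exact isClosed_eq (continuous_apply v) continuous_const
  have hcomp : IsCompact C := by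
    refine IsCompact.of_isClosed_subset (isCompact_univ_pi (fun v : W =>
      isCompact_Icc (a := -Real.sqrt (1 / d v)) (b := Real.sqrt (1 / d v)))) hcl ?_
    rintro g ⟨-, hg⟩ v -
    have h1 : d v * g v ^ 2 ≤ 1 := by
      rw [← hg]
      exact single_le_sum (f := fun v => d v * g v ^ 2)
        (fun v _ => mul_nonneg (hG.dp v).le (sq_nonneg _)) (mem_univ v)
    have h2 : g v ^ 2 ≤ 1 / d v := by
      rw [le_div_iff₀ (hG.dp v)]
      linarith
    exact abs_le.1 (Real.abs_le_sqrt h2)
  have hne : C.Nonempty := by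
    refine ⟨fun v => if v = s then Real.sqrt (1 / d s) else 0, fun v hv => ?_, ?_⟩
    · have h : v ≠ s := fun h => hv (h ▸ hs)
      exact if_neg h
    · unfold nq
      rw [sum_eq_single s]
      · have := (hG.dp s).ne'
        beta_reduce
        rw [if_pos rfl, Real.sq_sqrt (by have := hG.dp s; positivity)]
        field_simp
      · intro v _ hv
        beta_reduce
        rw [if_neg hv]; ring
      · intro h; exact absurd (mem_univ _) h
  obtain ⟨g, ⟨hg1, hg2⟩, hg3⟩ := hcomp.exists_isMaxOn hne hcb.continuousOn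
  have hmax : ∀ h : W → ℝ, Sup S h → nq d h = 1 → bf w h h ≤ bf w g g := fun h h1 h2 =>
    hg3 (show h ∈ C from ⟨h1, h2⟩)
  have habs : nq d (fun v => |g v|) = 1 := by
    rw [← hg2]
    unfold nq
    exact sum_congr rfl fun v _ => by rw [sq_abs]
  refine ⟨fun v => |g v|, fun v => abs_nonneg _, fun v hv => by simp [hg1 v hv], habs,
    fun h hh => ?_⟩
  rcases (nq_nonneg hG h).eq_or_lt with h0 | h0
  · rw [nq_eq_zero hG h0.symm]
    simp [bf, nq]
  · have h1 : nq d (fun v => (1 / Real.sqrt (nq d h)) * h v) = 1 := by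
      rw [nq_smul, div_pow, one_pow, Real.sq_sqrt h0.le]
      field_simp
    have h2 := hmax (fun v => (1 / Real.sqrt (nq d h)) * h v) (fun v hv => by
      simp [hh v hv]) h1
    rw [bf_smul, div_pow, one_pow, Real.sq_sqrt h0.le, one_div, inv_mul_le_iff₀ h0] at h2
    calc bf w h h ≤ nq d h * bf w g g := h2
      _ ≤ nq d h * bf w (fun v => |g v|) (fun v => |g v|) :=
          mul_le_mul_of_nonneg_left (bf_abs hG g) h0.le
      _ = _ := mul_comm _ _

theorem quad_zero (X Y : ℝ) (h : ∀ t : ℝ, 2 * t * X + t ^ 2 * Y ≤ 0) : X = 0 := by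
  by_contra hX
  have hY : Y ≤ 0 ∨ 0 < Y := le_or_gt Y 0
  have h1 := h (X / (|Y| + 1))
  have hp : 0 < |Y| + 1 := by positivity
  have h2 : 2 * (X / (|Y| + 1)) * X + (X / (|Y| + 1)) ^ 2 * Y =
      X ^ 2 * (2 * (|Y| + 1) + Y) / (|Y| + 1) ^ 2 := by
    field_simp
  rw [h2] at h1
  have h3 : 0 < 2 * (|Y| + 1) + Y := by
    have := neg_abs_le Y
    linarith
  have h4 : 0 < X ^ 2 := by positivity
  have h5 : 0 < X ^ 2 * (2 * (|Y| + 1) + Y) / (|Y| + 1) ^ 2 := by positivity
  linarith

/-- the eigenvalue equation of a ground state -/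
theorem IsTop.eig {S : Finset W} {f : W → ℝ} (hf : IsTop w d S f) (v : W) (hv : v ∈ S) :
    ∑ u, w v u * f u = bf w f f * (d v * f v) := by
  have key : ∀ t : ℝ, 2 * t * (∑ u, w v u * f u - bf w f f * (d v * f v)) +
      t ^ 2 * (w v v - bf w f f * d v) ≤ 0 := by
    intro t
    have h1 := hf.mx (fun u => f u + t * (if u = v then 1 else 0)) (by
      intro u hu
      have : u ≠ v := fun h => hu (h ▸ hv)
      simp [hf.su u hu, this])
    have h2 : bf w (fun u => f u + t * (if u = v then 1 else 0))
        (fun u => f u + t * (if u = v then 1 else 0)) =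
        bf w f f + 2 * t * (∑ u, w v u * f u) + t ^ 2 * w v v := by
      unfold bf
      have e1 : ∀ u u', w u u' * ((f u + t * (if u = v then 1 else 0)) *
          (f u' + t * (if u' = v then 1 else 0))) =
          w u u' * (f u * f u') + t * (if u = v then w u u' * f u' else 0) +
          t * (if u' = v then w u u' * f u else 0) +
          t ^ 2 * (if u = v then (if u' = v then w u u' else 0) else 0) := by
        intro u u'
        split_ifs <;> ring
      simp only [e1, sum_add_distrib, ← mul_sum]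
      have e2 : ∑ u, ∑ u', (if u = v then w u u' * f u' else 0) = ∑ u, w v u * f u := by
        rw [sum_eq_single v]
        · exact sum_congr rfl fun u' _ => by rw [if_pos rfl]
        · intro u _ hu
          exact sum_eq_zero fun u' _ => by rw [if_neg hu]
        · intro h; exact absurd (mem_univ _) h
      have e3 : ∑ u, ∑ u', (if u' = v then w u u' * f u else 0) = ∑ u, w v u * f u := by
        refine sum_congr rfl fun u _ => ?_
        rw [sum_eq_single v]
        · rw [if_pos rfl, hG.sy u v]
        · intro u' _ hu; rw [if_neg hu]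
        · intro h; exact absurd (mem_univ _) h
      have e4 : ∑ u, ∑ u', (if u = v then (if u' = v then w u u' else 0) else 0) = w v v := by
        rw [sum_eq_single v]
        · rw [sum_eq_single v]
          · rw [if_pos rfl, if_pos rfl]
          · intro u' _ hu; rw [if_pos rfl, if_neg hu]
          · intro h; exact absurd (mem_univ _) h
        · intro u _ hu
          exact sum_eq_zero fun u' _ => by rw [if_neg hu]
        · intro h; exact absurd (mem_univ _) h
      rw [e2, e3, e4]
      ring
    have h3 : nq d (fun u => f u + t * (if u = v then 1 else 0)) =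
        1 + 2 * t * (d v * f v) + t ^ 2 * d v := by
      have hno : ∑ u, d u * f u ^ 2 = 1 := hf.no
      unfold nq
      have e1 : ∀ u, d u * (f u + t * (if u = v then 1 else 0)) ^ 2 =
          d u * f u ^ 2 + 2 * t * (if u = v then d u * f u else 0) +
            t ^ 2 * (if u = v then d u else 0) := by
        intro u
        split_ifs <;> ring
      simp only [e1, sum_add_distrib, ← mul_sum, sum_ite_eq', mem_univ, if_true, hno]
    rw [h2, h3] at h1
    linarith
  have := quad_zero hG _ _ key
  linarith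

/-- the value is at most one -/
theorem bf_le_nq (g : W → ℝ) : bf w g g ≤ nq d g := by
  have h1 : ∀ u v, w u v * (g u * g v) ≤ w u v * g u ^ 2 / 2 + w u v * g v ^ 2 / 2 := by
    intro u v
    have := mul_nonneg (hG.nn u v) (sq_nonneg (g u - g v))
    nlinarith
  have h2 : ∑ u, ∑ v, w u v * g u ^ 2 ≤ nq d g := by
    unfold nq
    refine sum_le_sum fun u _ => ?_
    rw [← sum_mul]
    exact mul_le_mul_of_nonneg_right (hG.dg u) (sq_nonneg _)
  have h3 : ∑ u, ∑ v, w u v * g v ^ 2 = ∑ u, ∑ v, w u v * g u ^ 2 := by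
    rw [sum_comm]
    refine sum_congr rfl fun u _ => sum_congr rfl fun v _ => ?_
    rw [hG.sy]
  calc bf w g g ≤ ∑ u, ∑ v, (w u v * g u ^ 2 / 2 + w u v * g v ^ 2 / 2) :=
        sum_le_sum fun u _ => sum_le_sum fun v _ => h1 u v
    _ = (∑ u, ∑ v, w u v * g u ^ 2) / 2 + (∑ u, ∑ v, w u v * g v ^ 2) / 2 := by
        simp only [sum_add_distrib, sum_div]
    _ ≤ nq d g := by rw [h3]; linarith

/-- bilinear version of the maximality -/
theorem bil_le {S : Finset W} (lam : ℝ) (hl : ∀ g, Sup S g → bf w g g ≤ lam * nq d g)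
    (g h : W → ℝ) (hg : Sup S g) (hh : Sup S h) :
    bf w g h ≤ lam * (Real.sqrt (nq d g) * Real.sqrt (nq d h)) := by
  have hng := nq_nonneg hG g
  have hnh := nq_nonneg hG h
  rcases hng.eq_or_lt with h0 | h0
  · rw [← h0, Real.sqrt_zero, zero_mul, mul_zero, nq_eq_zero hG h0.symm]
    simp [bf]
  rcases hnh.eq_or_lt with h1 | h1
  · rw [← h1, Real.sqrt_zero, mul_zero, mul_zero, nq_eq_zero hG h1.symm]
    simp [bf]
  set p := Real.sqrt (nq d g) with hp
  set q := Real.sqrt (nq d h) with hq
  have hp0 : 0 < p := Real.sqrt_pos.2 h0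
  have hq0 : 0 < q := Real.sqrt_pos.2 h1
  have hp2 : p ^ 2 = nq d g := Real.sq_sqrt hng
  have hq2 : q ^ 2 = nq d h := Real.sq_sqrt hnh
  -- the functions q g + p h and q g - p h
  have k1 := hl (fun v => q * g v + p * h v) (fun v hv => by simp [hg v hv, hh v hv])
  have hneg : ∀ k : W → ℝ, Sup S k → -(lam * nq d k) ≤ bf w k k := by
    intro k hk
    have e1 := hl (fun v => |k v|) (fun v hv => by simp [hk v hv])
    have e2 : nq d (fun v => |k v|) = nq d k := by
      unfold nq
      exact sum_congr rfl fun v _ => by rw [sq_abs]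
    have e3 : -bf w k k ≤ bf w (fun v => |k v|) (fun v => |k v|) := by
      unfold bf
      rw [← sum_neg_distrib]
      refine sum_le_sum fun u _ => ?_
      rw [← sum_neg_distrib]
      refine sum_le_sum fun v _ => ?_
      rw [← mul_neg]
      refine mul_le_mul_of_nonneg_left ?_ (hG.nn u v)
      rw [← abs_mul]
      exact neg_le_abs _
    rw [e2] at e1
    linarith
  have k2 := hneg (fun v => q * g v - p * h v) (fun v hv => by simp [hg v hv, hh v hv])
  have b1 : bf w (fun v => q * g v + p * h v) (fun v => q * g v + p * h v) -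
      bf w (fun v => q * g v - p * h v) (fun v => q * g v - p * h v) =
      4 * (p * q) * bf w g h := by
    have e1 : bf w (fun v => q * g v + p * h v) (fun v => q * g v + p * h v) -
      bf w (fun v => q * g v - p * h v) (fun v => q * g v - p * h v) =
      2 * (p * q) * bf w g h + 2 * (p * q) * bf w h g := by
      unfold bf
      rw [← sum_sub_distrib, mul_sum, mul_sum, ← sum_add_distrib]
      refine sum_congr rfl fun u _ => ?_
      rw [← sum_sub_distrib, mul_sum, mul_sum, ← sum_add_distrib]
      refine sum_congr rfl fun v _ => ?_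
      ring
    rw [e1, bf_comm hG h g]
    ring
  have b2 : nq d (fun v => q * g v + p * h v) + nq d (fun v => q * g v - p * h v) =
      4 * (p * q) ^ 2 := by
    have e1 : nq d (fun v => q * g v + p * h v) + nq d (fun v => q * g v - p * h v) =
        2 * q ^ 2 * nq d g + 2 * p ^ 2 * nq d h := by
      unfold nq
      rw [← sum_add_distrib, mul_sum, mul_sum, ← sum_add_distrib]
      refine sum_congr rfl fun v _ => ?_
      ring
    rw [e1, ← hp2, ← hq2]
    ring
  have hpq : 0 < 4 * (p * q) := by positivity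
  have b3 : 4 * (p * q) * bf w g h ≤ 4 * (p * q) * (lam * (p * q)) := by
    calc 4 * (p * q) * bf w g h ≤ lam * nq d (fun v => q * g v + p * h v) +
          lam * nq d (fun v => q * g v - p * h v) := by linarith
      _ = lam * (4 * (p * q) ^ 2) := by rw [← mul_add, b2]
      _ = _ := by ring
  exact le_of_mul_le_mul_left b3 hpq

theorem vl_pos (S : Finset W) (hS : S.Nonempty) : 0 < vl d S :=
  sum_pos (fun v _ => hG.dp v) hS

/-- **the extremal set** -/
theorem exists_ext [Nonempty W] (a lam0 : ℝ) (ha : 0 < a) (hlam0 : 0 < lam0)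
    (h0 : lam0 * vl d univ ≤ bf w (fun _ => 1) (fun _ => 1)) :
    ∃ (S : Finset W) (f : W → ℝ) (lam : ℝ), S.Nonempty ∧ 0 < lam ∧ lam ≤ 1 ∧
      (∀ v, 0 ≤ f v) ∧ Sup S f ∧ (∀ v ∈ S, 0 < f v) ∧ nq d f = 1 ∧
      (∀ v ∈ S, ∑ u, w v u * f u = lam * (d v * f v)) ∧
      (∀ g, Sup S g → bf w g g ≤ lam * nq d g) ∧
      (∀ S' : Finset W, S'.Nonempty → ∀ g, Sup S' g →
        bf w g g ≤ lam * (vl d S' / vl d S) ^ a * nq d g) ∧
      lam0 * (vl d S / vl d univ) ^ a ≤ lam := by
  classical
  have hch : ∀ S : Finset W, ∃ f, S.Nonempty → IsTop w d S f := by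
    intro S
    by_cases hS : S.Nonempty
    · obtain ⟨f, hf⟩ := exists_top hG S hS
      exact ⟨f, fun _ => hf⟩
    · exact ⟨0, fun h => absurd h hS⟩
  choose F hF using hch
  obtain ⟨S, hS, hmax⟩ := exists_max_image ((univ : Finset (Finset W)).filter (·.Nonempty))
    (fun S => bf w (F S) (F S) / vl d S ^ a) ⟨univ, by simp⟩
  rw [mem_filter] at hS
  have hSn := hS.2
  have hT := hF S hSn
  have hv : ∀ S' : Finset W, S'.Nonempty → 0 < vl d S' ^ a := fun S' h =>
    Real.rpow_pos_of_pos (vl_pos hG S' h) a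
  have hmx : ∀ S' : Finset W, S'.Nonempty →
      bf w (F S') (F S') ≤ bf w (F S) (F S) * (vl d S' / vl d S) ^ a := by
    intro S' hS'
    have h1 := hmax S' (by rw [mem_filter]; exact ⟨mem_univ _, hS'⟩)
    rw [div_le_div_iff₀ (hv S' hS') (hv S hSn)] at h1
    rw [Real.div_rpow (vl_pos hG S' hS').le (vl_pos hG S hSn).le, ← mul_div_assoc,
      le_div_iff₀ (hv S hSn)]
    exact h1
  have huniv : lam0 ≤ bf w (F univ) (F univ) := by
    have h1 := (hF univ univ_nonempty).mx (fun _ => 1) (fun v hv => absurd (mem_univ v) hv)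
    have h2 : nq d (fun _ => 1) = vl d univ := by
      unfold nq vl; simp
    rw [h2] at h1
    exact le_of_mul_le_mul_right (h0.trans h1) (vl_pos hG _ univ_nonempty)
  have hlam : 0 < bf w (F S) (F S) := by
    have h1 := hmx univ univ_nonempty
    have h2 : 0 < (vl d univ / vl d S) ^ a := Real.rpow_pos_of_pos
      (div_pos (vl_pos hG _ univ_nonempty) (vl_pos hG S hSn)) a
    have h3 : 0 < bf w (F S) (F S) * (vl d univ / vl d S) ^ a := by linarith
    exact (pos_iff_pos_of_mul_pos h3).2 h2
  have hfk : ∀ S' : Finset W, S'.Nonempty → ∀ g, Sup S' g →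
        bf w g g ≤ bf w (F S) (F S) * (vl d S' / vl d S) ^ a * nq d g := by
    intro S' hS' g hg
    exact ((hF S' hS').mx g hg).trans
      (mul_le_mul_of_nonneg_right (hmx S' hS') (nq_nonneg hG g))
  refine ⟨S, F S, bf w (F S) (F S), hSn, hlam, ?_, hT.nn, hT.su, ?_, hT.no, hT.eig hG, hT.mx, hfk,
    ?_⟩
  · have := bf_le_nq hG (F S)
    rwa [hT.no] at this
  · -- positivity
    intro v hvS
    by_contra hcon
    have hv0 : F S v = 0 := le_antisymm (not_lt.1 hcon) (hT.nn v)
    set S' := S.filter fun v => F S v ≠ 0 with hS'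
    have hS'n : S'.Nonempty := by
      by_contra hne
      rw [not_nonempty_iff_eq_empty] at hne
      have h1 : F S = 0 := by
        funext u
        by_cases hu : u ∈ S
        · by_contra h2
          have : u ∈ S' := by rw [hS', mem_filter]; exact ⟨hu, h2⟩
          rw [hne] at this
          simp at this
        · exact hT.su u hu
      rw [h1] at hlam
      simp [bf] at hlam
    have hsup : Sup S' (F S) := by
      intro u hu
      by_cases hu2 : u ∈ S
      · by_contra h2
        exact hu (by rw [hS', mem_filter]; exact ⟨hu2, h2⟩)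
      · exact hT.su u hu2
    have h1 := hfk S' hS'n (F S) hsup
    rw [hT.no, mul_one] at h1
    have h2 : vl d S' < vl d S := by
      refine sum_lt_sum_of_subset (i := v) (filter_subset _ _) hvS ?_ (hG.dp v)
        fun u _ _ => (hG.dp u).le
      rw [mem_filter]
      exact fun h => h.2 hv0
    have h3 : (vl d S' / vl d S) ^ a < 1 := by
      apply Real.rpow_lt_one (div_pos (vl_pos hG S' hS'n) (vl_pos hG S hSn)).le _ ha
      rw [div_lt_one (vl_pos hG S hSn)]
      exact h2
    nlinarith
  · have h1 := hmx univ univ_nonempty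
    have hu := vl_pos hG _ (univ_nonempty (α := W))
    have hs := vl_pos hG S hSn
    have h2 : lam0 ≤ bf w (F S) (F S) * (vl d univ / vl d S) ^ a := huniv.trans h1
    have h3 : (vl d univ / vl d S) ^ a * (vl d S / vl d univ) ^ a = 1 := by
      rw [← Real.mul_rpow (by positivity) (by positivity)]
      have : vl d univ / vl d S * (vl d S / vl d univ) = 1 := by field_simp
      rw [this, Real.one_rpow]
    have h4 : 0 ≤ (vl d S / vl d univ) ^ a := Real.rpow_nonneg (by positivity) _
    calc lam0 * (vl d S / vl d univ) ^ a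
        ≤ bf w (F S) (F S) * (vl d univ / vl d S) ^ a * (vl d S / vl d univ) ^ a :=
          mul_le_mul_of_nonneg_right h2 h4
      _ = bf w (F S) (F S) := by rw [mul_assoc, h3, mul_one]

end

end Run7.h881.GP
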