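import Pool.Agent.Run7.h881.GP.Num

/-!
The integrality gap of the basic semidefinite program.
-/

set_option autoImplicit false
set_option linter.unusedSectionVars false

namespace Run7.h881.GP

open Finset Pool.Agent.H562R2 Pool.Agent.H818R3.Defl

section
variable {U V E A B D : Type} [Fintype U] [Fintype V] [Fintype E] [Fintype A] [Fintype B]
  [DecidableEq U] [DecidableEq V] [DecidableEq E] [DecidableEq A] [DecidableEq B] [Fintype D]

theorem sat_le_one {x : U → A → D → ℝ} {y : V → B → D → ℝ} (hsd : SdpFeasible x y) (u : U)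
    (v : V) (p : A → B) : ∑ a, x u a ⬝ᵥ y v (p a) ≤ 1 := by
  obtain ⟨z, hx, hy⟩ := hsd.left
  obtain ⟨-, -, -, -, -, -, -, hxy, -⟩ := hsd
  have h1 : ∑ a, ∑ b, x u a ⬝ᵥ y v b = 1 := by
    have e1 : ∀ a, ∑ b, x u a ⬝ᵥ y v b = x u a ⬝ᵥ z := fun a => by
      rw [← dotProduct_sum, (hy v).sum]
    simp only [e1]
    rw [← sum_dotProduct, (hx u).sum, (hx u).unit]
  rw [← h1]
  exact sum_le_sum fun a _ => single_le_sum (f := fun b => x u a ⬝ᵥ y v b)
    (fun b _ => hxy u a v b) (mem_univ (p a))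

theorem exists_lab {x : U → A → D → ℝ} {y : V → B → D → ℝ} (hsd : SdpFeasible x y) :
    Nonempty (U → A) ∧ Nonempty (V → B) := by
  obtain ⟨z, hx, hy⟩ := hsd.left
  constructor
  · rw [← exists_true_iff_nonempty]
    by_cases hU : IsEmpty U
    · exact ⟨fun u => (hU.false u).elim, trivial⟩
    · rw [not_isEmpty_iff] at hU
      obtain ⟨u⟩ := hU
      by_cases hA : IsEmpty A
      · exfalso
        have h1 := (hx u).sum
        have h2 := (hx u).unit
        rw [← h1] at h2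
        simp at h2
      · rw [not_isEmpty_iff] at hA
        obtain ⟨a⟩ := hA
        exact ⟨fun _ => a, trivial⟩
  · rw [← exists_true_iff_nonempty]
    by_cases hU : IsEmpty V
    · exact ⟨fun u => (hU.false u).elim, trivial⟩
    · rw [not_isEmpty_iff] at hU
      obtain ⟨u⟩ := hU
      by_cases hA : IsEmpty B
      · exfalso
        have h1 := (hy u).sum
        have h2 := (hy u).unit
        rw [← h1] at h2
        simp at h2
      · rw [not_isEmpty_iff] at hA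
        obtain ⟨a⟩ := hA
        exact ⟨fun _ => a, trivial⟩

theorem glob (s : E → U) (t : E → V) (π : E → A → B) (dd : ℕ) (hdd : 0 < dd)
    (hfib : ∀ e b, (Finset.univ.filter fun a => π e a = b).card ≤ dd)
    {x : U → A → D → ℝ} {y : V → B → D → ℝ} (hsd : SdpFeasible x y) (K0 : Finset E) (κ : ℝ)
    (hκ0 : 0 < κ) (hκ1 : κ ≤ 1) (hK : ∀ e ∈ K0, κ ≤ ∑ a, x (s e) a ⬝ᵥ y (t e) (π e a))
    (ω : ℝ) (hω : 0 < ω) (hω1 : ω ≤ 1) (h2 : 2 * ω * (Fintype.card E : ℝ) ≤ K0.card)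
    (a : ℝ) (ha : 0 < a) (ha1 : a ≤ 1 / 2) (nn lm : ℝ) (hnn : nn = Fintype.card (U ⊕ V))
    (hlm : lm = 2 * ω / 3 * (1 / (3 * nn)) ^ a)
    (j : ℕ) (τ : ℝ) (hτ1 : 1 ≤ τ)
    (hτ : Real.exp (Real.log (16 / (a * lm)) + 1 / 2 + Real.log nn / (1 + 2 * a) ^ (2 * (j + 1)))
      ≤ τ) :
    ∃ (L : U → A) (M : V → B),
      ω * (κ ^ 2 / (24 * (j + 1 : ℕ) * (τ * (dd / κ ^ 4) ^ (2 * (j + 1)))) * (lm / 2)) ^ 2 *
        (Fintype.card E : ℝ) ≤ ((univ.filter fun e => π e (L (s e)) = M (t e)).card : ℝ) := by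
  obtain ⟨⟨L0⟩, ⟨M0⟩⟩ := exists_lab hsd
  obtain ⟨L, M, hLM⟩ := greedy s t π
    ((κ ^ 2 / (24 * (j + 1 : ℕ) * (τ * (dd / κ ^ 4) ^ (2 * (j + 1)))) * (lm / 2)) ^ 2)
    ((1 - ω) * (Fintype.card E : ℝ)) (sq_nonneg _) L0 M0 (by
      intro R hR hRn
      have k1 : (K0.card : ℝ) = ((K0 ∩ R).card : ℝ) + ((K0 \ R).card : ℝ) := by
        have := card_inter_add_card_sdiff K0 R
        exact_mod_cast this.symm
      have k2 : ((K0 \ R).card : ℝ) + R.card ≤ Fintype.card E := by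
        have k3 : (K0 \ R).card + R.card ≤ Fintype.card E := by
          rw [← card_union_of_disjoint sdiff_disjoint]
          exact card_le_univ _
        exact_mod_cast k3
      have k4 : (R.card : ℝ) ≤ Fintype.card E := by exact_mod_cast card_le_univ R
      have k5 : ω * (R.card : ℝ) ≤ ((K0 ∩ R).card : ℝ) := by
        have : ω * (R.card : ℝ) ≤ ω * (Fintype.card E : ℝ) := mul_le_mul_of_nonneg_left k4 hω.le
        linarith
      exact step s t π dd hdd hfib hsd R (K0 ∩ R) inter_subset_right hRn κ hκ0 hκ1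
        (fun e he => hK e (mem_inter.1 he).1) ω hω k5 a ha ha1 nn lm hnn hlm j τ hτ1 hτ)
    (mul_nonneg (by linarith) (Nat.cast_nonneg _)) _ univ rfl
  refine ⟨L, M, le_trans (le_of_eq ?_) hLM⟩
  rw [card_univ]
  ring

end

set_option maxHeartbeats 2000000 in
/-- the parameters -/
theorem params (h N : ℝ) (hh : 0 ≤ h) (hN : 0 ≤ N) : ∃ (a : ℝ) (j : ℕ), 0 < a ∧ a ≤ 1 / 2 ∧
    Real.log (N + 2) ≤ 2 * (a * (j + 1)) ∧
    Real.log ((j + 1 : ℕ) : ℝ) ≤ 2 * Real.log (N + 2) ∧ -(2 * Real.log (N + 2)) ≤ Real.log a ∧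
    4 * (a * N) + 4 * ((j + 1 : ℕ) : ℝ) * (32 * h) ≤
      1000 * (Real.sqrt (h * N * Real.log (N + 2)) + (h + 1) * Real.log (N + 2)) := by
  obtain ⟨L, hL⟩ : ∃ L, L = Real.log (N + 2) := ⟨_, rfl⟩
  rw [← hL]
  have l2 := Real.log_two_gt_d9
  have hL2 : Real.log 2 ≤ L := by rw [hL]; exact Real.log_le_log (by norm_num) (by linarith)
  have hL0 : 0 < L := by linarith
  have hLN : L ≤ N + 1 := by
    have := Real.log_le_sub_one_of_pos (show 0 < N + 2 by linarith)
    rw [hL]; linarith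
  obtain ⟨X, hX⟩ : ∃ X, X = Real.sqrt ((h * N + 1) * L) := ⟨_, rfl⟩
  have hY0 : 0 < (h * N + 1) * L := by positivity
  have hX0 : 0 < X := by rw [hX]; exact Real.sqrt_pos.2 hY0
  have hX2 : X ^ 2 = (h * N + 1) * L := by rw [hX]; exact Real.sq_sqrt hY0.le
  obtain ⟨Z, hZ⟩ : ∃ Z, Z = Real.sqrt (h * N * L) := ⟨_, rfl⟩
  have hZ00 : 0 ≤ h * N * L := by positivity
  have hZ0 : 0 ≤ Z := by rw [hZ]; exact Real.sqrt_nonneg _
  have hZ2 : Z ^ 2 = h * N * L := by rw [hZ]; exact Real.sq_sqrt hZ00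
  rw [← hZ]
  -- X ≤ Z + 2 L
  have hXZ : X ≤ Z + 2 * L := by
    rw [hX]
    refine Real.sqrt_le_iff.2 ⟨by positivity, ?_⟩
    have e1 : (Z + 2 * L) ^ 2 = h * N * L + 4 * (Z * L) + 4 * (L * L) := by
      rw [← hZ2]; ring
    have e2 : 0 ≤ Z * L := by positivity
    have e3 : L * (1 / 4) ≤ L * L := mul_le_mul_of_nonneg_left (by linarith) hL0.le
    rw [e1]
    linarith
  have hXL : L ≤ 2 * X ^ 2 := by
    rw [hX2]
    nlinarith [mul_nonneg (mul_nonneg hh hN) hL0.le]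
  have hXlow : 1 / 2 ≤ X := by
    by_contra hc
    push Not at hc
    have : X ^ 2 < 1 / 4 := by nlinarith
    rw [hX2] at this
    nlinarith [mul_nonneg (mul_nonneg hh hN) hL0.le]
  obtain ⟨a, ha⟩ : ∃ a, a = min (1 / 2) (X / (N + 1)) := ⟨_, rfl⟩
  have ha0 : 0 < a := by
    rw [ha]; exact lt_min (by norm_num) (by positivity)
  have ha1 : a ≤ 1 / 2 := by rw [ha]; exact min_le_left _ _
  have ha2 : a ≤ X / (N + 1) := by rw [ha]; exact min_le_right _ _
  have haN : a * N ≤ X := by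
    have h1 := mul_le_mul_of_nonneg_right ha2 hN
    refine h1.trans ?_
    rw [div_mul_eq_mul_div, div_le_iff₀ (by linarith)]
    nlinarith
  have hainv : 1 / a ≤ 2 + (N + 1) / X := by
    rw [div_le_iff₀ ha0, ha]
    rcases min_cases (1 / 2 : ℝ) (X / (N + 1)) with ⟨h1, _⟩ | ⟨h1, _⟩
    · rw [h1]
      have : 0 ≤ (N + 1) / X := by positivity
      nlinarith
    · rw [h1]
      have e : (2 + (N + 1) / X) * (X / (N + 1)) = 2 * (X / (N + 1)) + 1 := by
        field_simp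
      rw [e]
      have : 0 ≤ X / (N + 1) := by positivity
      linarith
  have hainv2 : 1 / a ≤ 2 * (N + 2) := by
    refine hainv.trans ?_
    have : (N + 1) / X ≤ 2 * (N + 1) := by
      rw [div_le_iff₀ hX0]
      nlinarith
    linarith
  obtain ⟨j, hj⟩ : ∃ j : ℕ, j = ⌈L / (2 * a)⌉₊ := ⟨_, rfl⟩
  have hj1 : L / (2 * a) ≤ j := by rw [hj]; exact Nat.le_ceil _
  have hj2 : (j : ℝ) ≤ L / (2 * a) + 1 := by
    rw [hj]; exact (Nat.ceil_lt_add_one (by positivity)).le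
  refine ⟨a, j, ha0, ha1, ?_, ?_, ?_, ?_⟩
  · rw [div_le_iff₀ (by positivity)] at hj1
    nlinarith
  · have e1 : L / (2 * a) = L / 2 * (1 / a) := by field_simp
    have e2 : L / (2 * a) ≤ L * (N + 2) := by
      rw [e1]
      have := mul_le_mul_of_nonneg_left hainv2 (show 0 ≤ L / 2 by linarith)
      linarith
    have e3 : ((j + 1 : ℕ) : ℝ) ≤ (N + 2) ^ 2 := by
      push_cast
      nlinarith
    have e4 : Real.log ((j + 1 : ℕ) : ℝ) ≤ Real.log ((N + 2) ^ 2) :=
      Real.log_le_log (by positivity) e3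
    rw [Real.log_pow] at e4
    push_cast at e4 ⊢
    rw [hL]
    exact e4
  · have e1 : Real.log (1 / a) ≤ Real.log ((N + 2) ^ 2) := by
      refine Real.log_le_log (by positivity) (hainv2.trans ?_)
      nlinarith
    rw [one_div, Real.log_inv, Real.log_pow] at e1
    push_cast at e1
    rw [hL]
    linarith
  · have e1 : L / (2 * a) = L / 2 * (1 / a) := by field_simp
    have e2 : ((j + 1 : ℕ) : ℝ) ≤ L / 2 * (2 + (N + 1) / X) + 2 := by
      push_cast
      have := mul_le_mul_of_nonneg_left hainv (show 0 ≤ L / 2 by linarith)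
      rw [e1] at hj2
      linarith
    have e3 : ((j + 1 : ℕ) : ℝ) * h ≤ (L / 2 * (2 + (N + 1) / X) + 2) * h :=
      mul_le_mul_of_nonneg_right e2 hh
    have e4 : (L / 2 * (2 + (N + 1) / X) + 2) * h = L * h + (h * N * L + h * L) / X / 2 + 2 * h := by
      ring
    have e5 : (h * N * L + h * L) / X ≤ X + 2 * (h * L) := by
      rw [div_le_iff₀ hX0]
      have : h * L ≤ 2 * (h * L) * X := by
        have : 0 ≤ h * L := by positivity
        nlinarith
      nlinarith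
    have e6 : h ≤ 2 * (h * L) := by nlinarith
    have e7 : 0 ≤ h * L := by positivity
    have e8 : 4 * ((j + 1 : ℕ) : ℝ) * (32 * h) = 128 * (((j + 1 : ℕ) : ℝ) * h) := by ring
    rw [e8]
    rw [e4] at e3
    have e9 : 4 * (a * N) ≤ 4 * (Z + 2 * L) := by linarith
    nlinarith

end Run7.h881.GP
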