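import Pool.Agent.Run7.h881.GP.Form

/-!
The walk killed outside of a set and its heat kernel.
-/

set_option autoImplicit false
set_option linter.unusedSectionVars false

namespace Run7.h881.GP

open Finset

section
variable {W : Type} [Fintype W] [DecidableEq W]

/-- one step of the walk killed outside of `S` -/
noncomputable def ks (w : W → W → ℝ) (d : W → ℝ) (S : Finset W) (g : W → ℝ) : W → ℝ :=
  fun u => if u ∈ S then (∑ v, w u v * g v) / d u else 0

/-- the inner product -/
def ip (d : W → ℝ) (g h : W → ℝ) : ℝ := ∑ v, d v * (g v * h v)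

/-- the point mass -/
noncomputable def dl (d : W → ℝ) (x : W) : W → ℝ := fun u => if u = x then 1 / d x else 0

/-- the heat kernel -/
noncomputable def pk (w : W → W → ℝ) (d : W → ℝ) (S : Finset W) (j : ℕ) (x : W) : W → ℝ :=
  (ks w d S)^[j] (dl d x)

theorem ip_comm (d g h : W → ℝ) : ip d g h = ip d h g := by
  unfold ip; exact sum_congr rfl fun v _ => by ring

theorem ip_self (d g : W → ℝ) : ip d g g = nq d g := by
  unfold ip nq; exact sum_congr rfl fun v _ => by ring

theorem ks_sup (w : W → W → ℝ) (d : W → ℝ) (S : Finset W) (g : W → ℝ) : Sup S (ks w d S g) :=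
  fun u hu => by unfold ks; rw [if_neg hu]

theorem pk_zero (w : W → W → ℝ) (d : W → ℝ) (S : Finset W) (x : W) : pk w d S 0 x = dl d x := rfl

theorem pk_succ (w : W → W → ℝ) (d : W → ℝ) (S : Finset W) (j : ℕ) (x : W) :
    pk w d S (j + 1) x = ks w d S (pk w d S j x) := Function.iterate_succ_apply' _ _ _

theorem dl_sup (d : W → ℝ) (S : Finset W) (x : W) (hx : x ∈ S) : Sup S (dl d x) := by
  intro u hu
  unfold dl
  rw [if_neg]
  intro h
  exact hu (h ▸ hx)

theorem pk_sup (w : W → W → ℝ) (d : W → ℝ) (S : Finset W) (j : ℕ) (x : W) (hx : x ∈ S) :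
    Sup S (pk w d S j x) := by
  cases j with
  | zero => exact dl_sup d S x hx
  | succ j => rw [pk_succ]; exact ks_sup w d S _

variable {w : W → W → ℝ} {d : W → ℝ} (hG : Gr w d) (S : Finset W)
include hG

theorem ks_nonneg (g : W → ℝ) (hg : ∀ v, 0 ≤ g v) (u : W) : 0 ≤ ks w d S g u := by
  unfold ks
  split_ifs
  · exact div_nonneg (sum_nonneg fun v _ => mul_nonneg (hG.nn u v) (hg v)) (hG.dp u).le
  · exact le_rfl

theorem ip_ks (g h : W → ℝ) (hh : Sup S h) : ip d (ks w d S g) h = bf w h g := by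
  unfold ip bf
  refine sum_congr rfl fun u _ => ?_
  by_cases hu : u ∈ S
  · unfold ks
    rw [if_pos hu]
    have := (hG.dp u).ne'
    field_simp
    rw [sum_mul]
    exact sum_congr rfl fun v _ => by ring
  · rw [hh u hu]; simp

theorem ks_sym (g h : W → ℝ) (hg : Sup S g) (hh : Sup S h) :
    ip d (ks w d S g) h = ip d g (ks w d S h) := by
  rw [ip_ks hG S g h hh, ip_comm d g, ip_ks hG S h g hg, bf_comm hG]

theorem ks_l1 (g : W → ℝ) (hg : ∀ v, 0 ≤ g v) : ∑ u, d u * ks w d S g u ≤ ∑ u, d u * g u := by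
  calc ∑ u, d u * ks w d S g u ≤ ∑ u, ∑ v, w u v * g v := by
        refine sum_le_sum fun u _ => ?_
        have h0 : 0 ≤ ∑ v, w u v * g v := sum_nonneg fun v _ => mul_nonneg (hG.nn u v) (hg v)
        unfold ks
        split_ifs
        · rw [mul_div_cancel₀ _ (hG.dp u).ne']
        · rw [mul_zero]; exact h0
    _ = ∑ v, (∑ u, w v u) * g v := by
        rw [sum_comm]
        refine sum_congr rfl fun v _ => ?_
        rw [sum_mul]
        exact sum_congr rfl fun u _ => by rw [hG.sy]
    _ ≤ ∑ v, d v * g v := sum_le_sum fun v _ => mul_le_mul_of_nonneg_right (hG.dg v) (hg v)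

theorem ks_norm (lam : ℝ) (hl : 0 ≤ lam) (hmx : ∀ g, Sup S g → bf w g g ≤ lam * nq d g)
    (g : W → ℝ) (hg : Sup S g) : nq d (ks w d S g) ≤ lam ^ 2 * nq d g := by
  have h1 : nq d (ks w d S g) ≤
      lam * (Real.sqrt (nq d (ks w d S g)) * Real.sqrt (nq d g)) := by
    have h2 := bil_le hG lam hmx (ks w d S g) g (ks_sup w d S g) hg
    rwa [← ip_ks hG S g (ks w d S g) (ks_sup w d S g), ip_self] at h2
  have h0 := nq_nonneg hG (ks w d S g)
  have h0' := nq_nonneg hG g
  set p := Real.sqrt (nq d (ks w d S g)) with hp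
  set q := Real.sqrt (nq d g) with hq
  have hp2 : p ^ 2 = nq d (ks w d S g) := Real.sq_sqrt h0
  have hq2 : q ^ 2 = nq d g := Real.sq_sqrt h0'
  have hp0 : 0 ≤ p := Real.sqrt_nonneg _
  have hq0 : 0 ≤ q := Real.sqrt_nonneg _
  rw [← hp2] at h1 ⊢
  rw [← hq2]
  have h3 : p ≤ lam * q := by
    rcases hp0.eq_or_lt with h | h
    · rw [← h]; positivity
    · have h4 : p * p ≤ (lam * q) * p := by nlinarith
      exact le_of_mul_le_mul_right h4 h
  calc p ^ 2 ≤ (lam * q) ^ 2 := pow_le_pow_left₀ hp0 h3 2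
    _ = _ := by ring

theorem dl_nonneg (x u : W) : 0 ≤ dl d x u := by
  unfold dl
  split_ifs
  · exact (div_pos one_pos (hG.dp x)).le
  · exact le_rfl

theorem pk_nonneg (j : ℕ) (x u : W) : 0 ≤ pk w d S j x u := by
  induction j generalizing u with
  | zero => exact dl_nonneg hG x u
  | succ j ih => rw [pk_succ]; exact ks_nonneg hG S _ ih u

theorem ks_iter_sym (j : ℕ) (g h : W → ℝ) (hg : Sup S g) (hh : Sup S h) :
    ip d ((ks w d S)^[j] g) h = ip d g ((ks w d S)^[j] h) := by
  induction j generalizing g h with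
  | zero => rfl
  | succ j ih =>
    rw [Function.iterate_succ_apply, ih _ _ (ks_sup w d S g) hh, Function.iterate_succ_apply',
      ks_sym hG S g _ hg]
    cases j with
    | zero => exact hh
    | succ j => rw [Function.iterate_succ_apply']; exact ks_sup w d S _

theorem ip_dl (x : W) (g : W → ℝ) : ip d (dl d x) g = g x := by
  unfold ip dl
  rw [sum_eq_single x]
  · rw [if_pos rfl]
    have := (hG.dp x).ne'
    field_simp
  · intro u _ hu; rw [if_neg hu]; ring
  · intro h; exact absurd (mem_univ x) h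

theorem pk_ip (j : ℕ) (x : W) (hx : x ∈ S) (g : W → ℝ) (hg : Sup S g) :
    ip d (pk w d S j x) g = (ks w d S)^[j] g x := by
  unfold pk
  rw [ks_iter_sym hG S j _ g (dl_sup d S x hx) hg, ip_dl hG]

theorem pk_symm (j : ℕ) (x y : W) (hx : x ∈ S) (hy : y ∈ S) :
    pk w d S j x y = pk w d S j y x := by
  rw [← ip_dl hG y (pk w d S j x), ip_comm, pk_ip hG S j x hx _ (dl_sup d S y hy)]
  rfl

/-- the semigroup property -/
theorem pk_mul (i j : ℕ) (x y : W) (hx : x ∈ S) (hy : y ∈ S) :
    ip d (pk w d S i x) (pk w d S j y) = pk w d S (i + j) x y := by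
  rw [pk_ip hG S i x hx _ (pk_sup w d S j y hy), pk_symm hG S (i + j) x y hx hy]
  unfold pk
  rw [← Function.iterate_add_apply]

/-- mass of the heat kernel -/
noncomputable def el (w : W → W → ℝ) (d : W → ℝ) (S : Finset W) (j : ℕ) (x : W) : ℝ :=
  ∑ u, d u * pk w d S j x u

/-- the trace -/
noncomputable def Tr (w : W → W → ℝ) (d : W → ℝ) (S : Finset W) (j : ℕ) : ℝ :=
  ∑ x ∈ S, d x * nq d (pk w d S j x)

theorem el_nonneg (j : ℕ) (x : W) : 0 ≤ el w d S j x :=
  sum_nonneg fun u _ => mul_nonneg (hG.dp u).le (pk_nonneg hG S j x u)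

theorem iter_sup (j : ℕ) (g : W → ℝ) (hg : Sup S g) : Sup S ((ks w d S)^[j] g) := by
  cases j with
  | zero => exact hg
  | succ j => rw [Function.iterate_succ_apply']; exact ks_sup w d S _

theorem iter_norm (lam : ℝ) (hl : 0 ≤ lam) (hmx : ∀ g, Sup S g → bf w g g ≤ lam * nq d g)
    (j : ℕ) (g : W → ℝ) (hg : Sup S g) :
    nq d ((ks w d S)^[j] g) ≤ lam ^ (2 * j) * nq d g := by
  induction j with
  | zero => simp
  | succ j ih =>
    rw [Function.iterate_succ_apply']
    refine (ks_norm hG S lam hl hmx _ (iter_sup hG S j g hg)).trans ?_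
    calc lam ^ 2 * nq d ((ks w d S)^[j] g) ≤ lam ^ 2 * (lam ^ (2 * j) * nq d g) :=
          mul_le_mul_of_nonneg_left ih (sq_nonneg _)
      _ = _ := by ring

theorem el_sq_sum (lam : ℝ) (hl : 0 ≤ lam) (hmx : ∀ g, Sup S g → bf w g g ≤ lam * nq d g)
    (j : ℕ) : ∑ x ∈ S, d x * el w d S j x ^ 2 ≤ lam ^ (2 * j) * vl d S := by
  set o : W → ℝ := fun u => if u ∈ S then 1 else 0 with ho
  have hos : Sup S o := fun u hu => by simp only [ho]; rw [if_neg hu]
  have h1 : ∀ x ∈ S, el w d S j x = (ks w d S)^[j] o x := by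
    intro x hx
    rw [← pk_ip hG S j x hx o hos]
    unfold el ip
    refine sum_congr rfl fun u _ => ?_
    simp only [ho]
    by_cases hu : u ∈ S
    · rw [if_pos hu, mul_one]
    · rw [if_neg hu, pk_sup w d S j x hx u hu]; ring
  have h2 : nq d o = vl d S := by
    unfold nq vl
    rw [← sum_filter_add_sum_filter_not univ (· ∈ S)]
    rw [sum_eq_zero (s := univ.filter (fun u => ¬ u ∈ S)), add_zero]
    · have : univ.filter (· ∈ S) = S := by ext u; simp
      rw [this]
      refine sum_congr rfl fun u hu => ?_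
      simp only [ho]
      rw [if_pos hu]; ring
    · intro u hu
      rw [mem_filter] at hu
      simp only [ho]
      rw [if_neg hu.2]; ring
  calc ∑ x ∈ S, d x * el w d S j x ^ 2 = ∑ x ∈ S, d x * ((ks w d S)^[j] o x) ^ 2 :=
        sum_congr rfl fun x hx => by rw [h1 x hx]
    _ ≤ nq d ((ks w d S)^[j] o) := by
        unfold nq
        exact sum_le_sum_of_subset_of_nonneg (subset_univ S)
          fun x _ _ => mul_nonneg (hG.dp x).le (sq_nonneg _)
    _ ≤ lam ^ (2 * j) * nq d o := iter_norm hG S lam hl hmx j o hos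
    _ = _ := by rw [h2]

/-- Cauchy-Schwarz -/
theorem ip_sq_le (g h : W → ℝ) : ip d g h ^ 2 ≤ nq d g * nq d h := by
  have h1 := Finset.sum_sq_le_sum_mul_sum_of_sq_le_mul (univ : Finset W)
    (r := fun v => d v * (g v * h v)) (f := fun v => d v * g v ^ 2)
    (g := fun v => d v * h v ^ 2)
    (fun v _ => mul_nonneg (hG.dp v).le (sq_nonneg _))
    (fun v _ => mul_nonneg (hG.dp v).le (sq_nonneg _))
    (fun v _ => le_of_eq (by ring))
  exact h1

theorem iter_eig (lam : ℝ) (f : W → ℝ) (hf : Sup S f)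
    (heig : ∀ v ∈ S, ∑ u, w v u * f u = lam * (d v * f v)) (j : ℕ) :
    (ks w d S)^[j] f = fun v => lam ^ j * f v := by
  have h1 : ∀ c : ℝ, ks w d S (fun v => c * f v) = fun v => c * lam * f v := by
    intro c
    funext v
    unfold ks
    by_cases hv : v ∈ S
    · rw [if_pos hv]
      have h2 : ∑ u, w v u * (c * f u) = c * ∑ u, w v u * f u := by
        rw [mul_sum]; exact sum_congr rfl fun u _ => by ring
      rw [h2, heig v hv]
      have := (hG.dp v).ne'
      field_simp
    · rw [if_neg hv, hf v hv, mul_zero]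
  induction j with
  | zero => simp
  | succ j ih =>
    rw [Function.iterate_succ_apply', ih, h1]
    funext v
    ring

theorem pow_le_tr (lam : ℝ) (f : W → ℝ) (hf : Sup S f) (hno : nq d f = 1)
    (heig : ∀ v ∈ S, ∑ u, w v u * f u = lam * (d v * f v)) (j : ℕ) :
    lam ^ (2 * j) ≤ Tr w d S j := by
  have h1 : ∀ x ∈ S, d x * (lam ^ (2 * j) * f x ^ 2) ≤ d x * nq d (pk w d S j x) := by
    intro x hx
    refine mul_le_mul_of_nonneg_left ?_ (hG.dp x).le
    have h2 := ip_sq_le hG (pk w d S j x) f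
    rw [pk_ip hG S j x hx f hf, iter_eig hG S lam f hf heig, hno, mul_one] at h2
    calc lam ^ (2 * j) * f x ^ 2 = (lam ^ j * f x) ^ 2 := by ring
      _ ≤ _ := h2
  have h3 : ∑ x ∈ S, d x * (lam ^ (2 * j) * f x ^ 2) = lam ^ (2 * j) := by
    have h4 : ∑ x ∈ S, d x * f x ^ 2 = 1 := by
      rw [← hno]
      unfold nq
      refine sum_subset (subset_univ S) fun x _ hx => ?_
      rw [hf x hx]; ring
    calc ∑ x ∈ S, d x * (lam ^ (2 * j) * f x ^ 2) = lam ^ (2 * j) * ∑ x ∈ S, d x * f x ^ 2 := by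
          rw [mul_sum]; exact sum_congr rfl fun x _ => by ring
      _ = _ := by rw [h4, mul_one]
  rw [← h3]
  exact sum_le_sum h1

theorem tr_zero : Tr w d S 0 = S.card := by
  unfold Tr
  have h1 : ∀ x ∈ S, d x * nq d (pk w d S 0 x) = 1 := by
    intro x _
    rw [pk_zero, ← ip_self, ip_dl hG]
    unfold dl
    rw [if_pos rfl]
    have := (hG.dp x).ne'
    field_simp
  rw [sum_congr rfl h1, sum_const, nsmul_eq_mul, mul_one]

end

end Run7.h881.GP
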