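import Pool.Agent.Run7.h881.GP.Heat

/-!
The Nash type inequality on an extremal set.
-/

set_option autoImplicit false
set_option linter.unusedSectionVars false

namespace Run7.h881.GP

open Finset

section
variable {W : Type} [Fintype W] [DecidableEq W] {w : W → W → ℝ} {d : W → ℝ} (hG : Gr w d)
  (S : Finset W)
include hG

omit hG in
theorem bf_add_left (g g' h : W → ℝ) :
    bf w (fun v => g v + g' v) h = bf w g h + bf w g' h := by
  unfold bf
  rw [← sum_add_distrib]
  refine sum_congr rfl fun u _ => ?_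
  rw [← sum_add_distrib]
  exact sum_congr rfl fun v _ => by ring

omit hG in
theorem bf_add_right (g h h' : W → ℝ) :
    bf w g (fun v => h v + h' v) = bf w g h + bf w g h' := by
  unfold bf
  rw [← sum_add_distrib]
  refine sum_congr rfl fun u _ => ?_
  rw [← sum_add_distrib]
  exact sum_congr rfl fun v _ => by ring

theorem bf_le_l1 (θ : ℝ) (hθ : 0 ≤ θ) (g h : W → ℝ) (hg : ∀ v, g v ≤ θ) (hh : ∀ v, 0 ≤ h v) :
    bf w g h ≤ θ * ∑ v, d v * h v := by
  calc bf w g h ≤ ∑ u, ∑ v, w u v * (θ * h v) := by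
        unfold bf
        refine sum_le_sum fun u _ => sum_le_sum fun v _ => mul_le_mul_of_nonneg_left ?_ (hG.nn u v)
        exact mul_le_mul_of_nonneg_right (hg u) (hh v)
    _ = θ * ∑ v, (∑ u, w v u) * h v := by
        rw [sum_comm, mul_sum]
        refine sum_congr rfl fun v _ => ?_
        rw [sum_mul, mul_sum]
        exact sum_congr rfl fun u _ => by rw [hG.sy u v]; ring
    _ ≤ θ * ∑ v, d v * h v := mul_le_mul_of_nonneg_left
        (sum_le_sum fun v _ => mul_le_mul_of_nonneg_right (hG.dg v) (hh v)) hθ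

theorem bf_mono (g g' h h' : W → ℝ) (hg : ∀ v, 0 ≤ g v) (hg' : ∀ v, g v ≤ g' v)
    (hh : ∀ v, 0 ≤ h v) (hh' : ∀ v, h v ≤ h' v) : bf w g h ≤ bf w g' h' := by
  unfold bf
  refine sum_le_sum fun u _ => sum_le_sum fun v _ => mul_le_mul_of_nonneg_left ?_ (hG.nn u v)
  exact mul_le_mul (hg' u) (hh' v) (hh v) ((hg u).trans (hg' u))

theorem nq_mono (g g' : W → ℝ) (hg : ∀ v, 0 ≤ g v) (hg' : ∀ v, g v ≤ g' v) :
    nq d g ≤ nq d g' :=
  sum_le_sum fun v _ => mul_le_mul_of_nonneg_left (pow_le_pow_left₀ (hg v) (hg' v) 2) (hG.dp v).le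

/-- **Nash type inequality** -/
theorem nash (hS : S.Nonempty) (lam a η : ℝ) (hlam : 0 < lam) (ha : 0 ≤ a) (hη : 0 < η)
    (hfk : ∀ S' : Finset W, S'.Nonempty → ∀ g, Sup S' g →
        bf w g g ≤ lam * (vl d S' / vl d S) ^ a * nq d g)
    (g h : W → ℝ) (hg0 : ∀ v, 0 ≤ g v) (hh0 : ∀ v, 0 ≤ h v) (hgS : Sup S g) (hhS : Sup S h)
    (hG1 : 0 < ∑ v, d v * g v) (hH1 : 0 < ∑ v, d v * h v) (hX : 0 < bf w g h) :
    bf w g h * (1 - 2 * η) ≤ lam *
      (2 * (∑ v, d v * g v) * (∑ v, d v * h v) / (η * bf w g h) / vl d S) ^ a *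
      (Real.sqrt (nq d g) * Real.sqrt (nq d h)) := by
  set X := bf w g h with hXd
  set Gm := ∑ v, d v * g v with hGm
  set Hm := ∑ v, d v * h v with hHm
  set θ1 := η * X / Gm with hθ1
  set θ2 := η * X / Hm with hθ2
  have hθ10 : 0 < θ1 := by positivity
  have hθ20 : 0 < θ2 := by positivity
  set g' : W → ℝ := fun v => max (g v - θ2) 0 with hg'
  set h' : W → ℝ := fun v => max (h v - θ1) 0 with hh'
  have g'0 : ∀ v, 0 ≤ g' v := fun v => le_max_right _ _
  have h'0 : ∀ v, 0 ≤ h' v := fun v => le_max_right _ _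
  have g'le : ∀ v, g' v ≤ g v := fun v => max_le (by linarith) (hg0 v)
  have h'le : ∀ v, h' v ≤ h v := fun v => max_le (by linarith) (hh0 v)
  have gm : ∀ v, g v - g' v ≤ θ2 := fun v => by
    have := le_max_left (g v - θ2) 0
    simp only [hg']
    linarith
  have hm : ∀ v, h v - h' v ≤ θ1 := fun v => by
    have := le_max_left (h v - θ1) 0
    simp only [hh']
    linarith
  -- splitting
  have e1 : X = bf w g' h' + bf w g' (fun v => h v - h' v) + bf w (fun v => g v - g' v) h := by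
    have e2 : bf w g h = bf w (fun v => g' v + (g v - g' v)) h := by
      congr 1; funext v; ring
    have e3 : bf w g' h = bf w g' (fun v => h' v + (h v - h' v)) := by
      congr 1; funext v; ring
    rw [hXd, e2, bf_add_left, e3, bf_add_right]
  have e2 : bf w (fun v => g v - g' v) h ≤ η * X := by
    have := bf_le_l1 hG θ2 hθ20.le (fun v => g v - g' v) h gm hh0
    calc _ ≤ θ2 * Hm := this
      _ = η * X := by rw [hθ2]; field_simp
  have e3 : bf w g' (fun v => h v - h' v) ≤ η * X := by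
    have h1 : bf w g' (fun v => h v - h' v) ≤ bf w g (fun v => h v - h' v) :=
      bf_mono hG _ _ _ _ g'0 g'le (fun v => by linarith [h'le v]) fun v => le_rfl
    have h2 := bf_le_l1 hG θ1 hθ10.le (fun v => h v - h' v) g hm hg0
    rw [bf_comm hG] at h2
    calc _ ≤ _ := h1
      _ ≤ θ1 * Gm := h2
      _ = η * X := by rw [hθ1]; field_simp
  have e4 : X * (1 - 2 * η) ≤ bf w g' h' := by linarith
  refine e4.trans ?_
  have hvS := vl_pos hG S hS
  have hR : 0 ≤ lam * (2 * Gm * Hm / (η * X) / vl d S) ^ a *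
      (Real.sqrt (nq d g) * Real.sqrt (nq d h)) := by positivity
  set S' := S.filter fun v => θ2 < g v ∨ θ1 < h v with hS'
  rcases S'.eq_empty_or_nonempty with hemp | hne
  · have : bf w g' h' = 0 := by
      unfold bf
      refine sum_eq_zero fun u _ => sum_eq_zero fun v _ => ?_
      have hu : g' u = 0 := by
        simp only [hg']
        apply max_eq_right
        by_cases huS : u ∈ S
        · by_contra hcon
          have : u ∈ S' := by
            rw [hS', mem_filter]
            exact ⟨huS, Or.inl (by linarith)⟩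
          rw [hemp] at this
          simp at this
        · rw [hgS u huS]; linarith
      rw [hu]; ring
    rw [this]
    exact hR
  · have hg'S : Sup S' g' := by
      intro u hu
      simp only [hg']
      apply max_eq_right
      by_cases huS : u ∈ S
      · by_contra hcon
        exact hu (by rw [hS', mem_filter]; exact ⟨huS, Or.inl (by linarith)⟩)
      · rw [hgS u huS]; linarith
    have hh'S : Sup S' h' := by
      intro u hu
      simp only [hh']
      apply max_eq_right
      by_cases huS : u ∈ S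
      · by_contra hcon
        exact hu (by rw [hS', mem_filter]; exact ⟨huS, Or.inr (by linarith)⟩)
      · rw [hhS u huS]; linarith
    have h1 := bil_le hG (lam * (vl d S' / vl d S) ^ a) (hfk S' hne) g' h' hg'S hh'S
    refine h1.trans ?_
    have hvol : vl d S' ≤ 2 * Gm * Hm / (η * X) := by
      have h2 : ∀ v ∈ S', d v ≤ d v * (g v / θ2 + h v / θ1) := by
        intro v hv
        rw [hS', mem_filter] at hv
        refine le_mul_of_one_le_right (hG.dp v).le ?_
        have h3 : 0 ≤ g v / θ2 := div_nonneg (hg0 v) hθ20.le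
        have h4 : 0 ≤ h v / θ1 := div_nonneg (hh0 v) hθ10.le
        rcases hv.2 with h5 | h5
        · have : 1 ≤ g v / θ2 := by rw [le_div_iff₀ hθ20]; linarith
          linarith
        · have : 1 ≤ h v / θ1 := by rw [le_div_iff₀ hθ10]; linarith
          linarith
      calc vl d S' ≤ ∑ v ∈ S', d v * (g v / θ2 + h v / θ1) := sum_le_sum h2
        _ ≤ ∑ v, d v * (g v / θ2 + h v / θ1) :=
            sum_le_sum_of_subset_of_nonneg (subset_univ _) fun v _ _ =>
              mul_nonneg (hG.dp v).le (add_nonneg (div_nonneg (hg0 v) hθ20.le)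
                (div_nonneg (hh0 v) hθ10.le))
        _ = Gm / θ2 + Hm / θ1 := by
            rw [hGm, hHm, sum_div, sum_div, ← sum_add_distrib]
            refine sum_congr rfl fun v _ => ?_
            ring
        _ = 2 * Gm * Hm / (η * X) := by
            rw [hθ1, hθ2]
            field_simp
            ring
    have h3 : (vl d S' / vl d S) ^ a ≤ (2 * Gm * Hm / (η * X) / vl d S) ^ a :=
      Real.rpow_le_rpow (div_nonneg (vl_pos hG S' hne).le hvS.le)
        (div_le_div_of_nonneg_right hvol hvS.le) ha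
    have h4 : Real.sqrt (nq d g') * Real.sqrt (nq d h') ≤
        Real.sqrt (nq d g) * Real.sqrt (nq d h) :=
      mul_le_mul (Real.sqrt_le_sqrt (nq_mono hG _ _ g'0 g'le))
        (Real.sqrt_le_sqrt (nq_mono hG _ _ h'0 h'le)) (Real.sqrt_nonneg _) (Real.sqrt_nonneg _)
    exact mul_le_mul (mul_le_mul_of_nonneg_left h3 hlam.le) h4 (by positivity) (by positivity)

end

/-- Hölder's inequality with three factors -/
theorem holder3 {I : Type} (s : Finset I) (p q r : I → ℝ) (P Q R α β γ : ℝ)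
    (hp : ∀ i ∈ s, 0 ≤ p i) (hq : ∀ i ∈ s, 0 ≤ q i) (hr : ∀ i ∈ s, 0 ≤ r i)
    (hP : ∑ i ∈ s, p i ≤ P) (hQ : ∑ i ∈ s, q i ≤ Q) (hR : ∑ i ∈ s, r i ≤ R)
    (hP0 : 0 < P) (hQ0 : 0 < Q) (hR0 : 0 < R) (hα : 0 ≤ α) (hβ : 0 ≤ β) (hγ : 0 ≤ γ)
    (h1 : α + β + γ = 1) :
    ∑ i ∈ s, p i ^ α * q i ^ β * r i ^ γ ≤ P ^ α * Q ^ β * R ^ γ := by
  have key : ∀ i ∈ s, p i ^ α * q i ^ β * r i ^ γ ≤
      P ^ α * Q ^ β * R ^ γ * (α * (p i / P) + β * (q i / Q) + γ * (r i / R)) := by
    intro i hi
    have h2 := Real.geom_mean_le_arith_mean3_weighted hα hβ hγ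
      (div_nonneg (hp i hi) hP0.le) (div_nonneg (hq i hi) hQ0.le) (div_nonneg (hr i hi) hR0.le) h1
    rw [Real.div_rpow (hp i hi) hP0.le, Real.div_rpow (hq i hi) hQ0.le,
      Real.div_rpow (hr i hi) hR0.le] at h2
    have hPa : 0 < P ^ α := Real.rpow_pos_of_pos hP0 _
    have hQb : 0 < Q ^ β := Real.rpow_pos_of_pos hQ0 _
    have hRc : 0 < R ^ γ := Real.rpow_pos_of_pos hR0 _
    calc p i ^ α * q i ^ β * r i ^ γ =
        P ^ α * Q ^ β * R ^ γ * (p i ^ α / P ^ α * (q i ^ β / Q ^ β) * (r i ^ γ / R ^ γ)) := by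
          field_simp
      _ ≤ _ := mul_le_mul_of_nonneg_left h2 (by positivity)
  refine (sum_le_sum key).trans ?_
  rw [← mul_sum]
  have hc : 0 ≤ P ^ α * Q ^ β * R ^ γ := by positivity
  refine mul_le_of_le_one_right hc ?_
  rw [sum_add_distrib, sum_add_distrib, ← mul_sum, ← mul_sum, ← mul_sum, ← sum_div, ← sum_div,
    ← sum_div]
  have a1 : (∑ i ∈ s, p i) / P ≤ 1 := by rw [div_le_one hP0]; exact hP
  have a2 : (∑ i ∈ s, q i) / Q ≤ 1 := by rw [div_le_one hQ0]; exact hQ
  have a3 : (∑ i ∈ s, r i) / R ≤ 1 := by rw [div_le_one hR0]; exact hR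
  calc α * ((∑ i ∈ s, p i) / P) + β * ((∑ i ∈ s, q i) / Q) + γ * ((∑ i ∈ s, r i) / R)
      ≤ α * 1 + β * 1 + γ * 1 := by gcongr
    _ = 1 := by linarith

end Run7.h881.GP
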