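import Pool.Agent.Run7.h881.GP.Thr

/-!
The choice of the parameters.
-/

set_option autoImplicit false
set_option linter.unusedSectionVars false

namespace Run7.h881.GP

open Real

theorem one_le_pow_N (a N : ℝ) (j : ℕ) (ha : 0 < a) (ha1 : a ≤ 1 / 2) (hN : 0 ≤ N)
    (hj : Real.log (N + 2) ≤ 2 * (a * (j + 1))) :
    N / (1 + 2 * a) ^ (2 * (j + 1)) ≤ 1 := by
  rw [div_le_one (by positivity)]
  have h1 : a ≤ Real.log (1 + 2 * a) := by
    have h := Real.one_sub_inv_le_log_of_pos (show 0 < 1 + 2 * a by linarith)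
    refine le_trans ?_ h
    have e : 1 - (1 + 2 * a)⁻¹ = 2 * a / (1 + 2 * a) := by field_simp; ring
    rw [e, le_div_iff₀ (by linarith)]
    nlinarith
  have h2 : Real.log (N + 2) ≤ Real.log ((1 + 2 * a) ^ (2 * (j + 1))) := by
    rw [Real.log_pow]
    push_cast
    have : 2 * (a * (j + 1)) ≤ 2 * (j + 1) * Real.log (1 + 2 * a) := by
      have h3 := mul_le_mul_of_nonneg_left h1 (show (0 : ℝ) ≤ 2 * (j + 1) by positivity)
      linarith
    linarith
  have h3 := (Real.log_le_log_iff (by linarith) (by positivity)).1 h2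
  linarith

/-- the loss for given parameters -/
theorem log_val (dd κ' ω a nn lm τ J h N L : ℝ) (hdd : 1 ≤ dd) (hκ0 : 0 < κ') (hω : 0 < ω)
    (ha : 0 < a) (ha1 : a ≤ 1 / 2) (hnn : 1 ≤ nn) (hN : N = Real.log nn)
    (hlm : lm = 2 * ω / 3 * (1 / (3 * nn)) ^ a)
    (hτ : τ = Real.exp (Real.log (16 / (a * lm)) + 3 / 2)) (hJ : 1 ≤ J) (k : ℕ) (hk : (k : ℝ) = 2 * J)
    (hh : 0 ≤ h) (hωh : -(Real.log 4 + h) ≤ Real.log ω) (hκh : -(8 * h) ≤ Real.log κ')
    (hHh : Real.log (dd / κ' ^ 4) ≤ 32 * h) (hL : Real.log 2 ≤ L)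
    (hJL : Real.log J ≤ 2 * L) (haL : -(2 * L) ≤ Real.log a) :
    -(1000 * (h + L) + 4 * (a * N) + 4 * J * (32 * h)) ≤
      Real.log (ω * (κ' ^ 2 / (24 * J * (τ * (dd / κ' ^ 4) ^ k)) * (lm / 2)) ^ 2) := by
  have hlm0 : 0 < lm := by rw [hlm]; positivity
  have hτ0 : 0 < τ := by rw [hτ]; exact Real.exp_pos _
  have hdd0 : 0 < dd := by linarith
  have hJ0 : 0 < J := by linarith
  have hD : 0 < dd / κ' ^ 4 := by positivity
  have e1 : Real.log (ω * (κ' ^ 2 / (24 * J * (τ * (dd / κ' ^ 4) ^ k)) * (lm / 2)) ^ 2) =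
      Real.log ω + 2 * (2 * Real.log κ' - (Real.log 24 + Real.log J +
        (Real.log τ + 2 * J * Real.log (dd / κ' ^ 4))) + (Real.log lm - Real.log 2)) := by
    rw [Real.log_mul (by positivity) (by positivity), Real.log_pow,
      Real.log_mul (by positivity) (by positivity), Real.log_div (by positivity) (by positivity),
      Real.log_div (by positivity) (by norm_num), Real.log_pow,
      Real.log_mul (by positivity) (by positivity), Real.log_mul (by positivity) (by positivity),
      Real.log_mul (by positivity) (by positivity), Real.log_pow, hk]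
    push_cast
    ring
  have e2 : Real.log τ = Real.log 16 - (Real.log a + Real.log lm) + 3 / 2 := by
    rw [hτ, Real.log_exp, Real.log_div (by norm_num) (by positivity),
      Real.log_mul (by positivity) (by positivity)]
  have e3 : Real.log lm = Real.log 2 + Real.log ω - Real.log 3 - a * (Real.log 3 + N) := by
    rw [hlm, Real.log_mul (by positivity) (by positivity), Real.log_rpow (by positivity),
      Real.log_div (by positivity) (by norm_num), Real.log_mul (by norm_num) (by positivity),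
      one_div, Real.log_inv, Real.log_mul (by norm_num) (by positivity), hN]
    ring
  have l2 := Real.log_two_gt_d9
  have l2' := Real.log_two_lt_d9
  have e24 : Real.log 24 ≤ 5 * Real.log 2 := by
    have : Real.log 24 ≤ Real.log ((2 : ℝ) ^ 5) := Real.log_le_log (by norm_num) (by norm_num)
    rw [Real.log_pow] at this
    push_cast at this
    linarith
  have e16 : Real.log 16 = 4 * Real.log 2 := by
    rw [show (16 : ℝ) = 2 ^ 4 by norm_num, Real.log_pow]; push_cast; ring
  have e4 : Real.log 4 = 2 * Real.log 2 := by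
    rw [show (4 : ℝ) = 2 ^ 2 by norm_num, Real.log_pow]; push_cast; ring
  have e3' : Real.log 3 ≤ 2 * Real.log 2 := by
    rw [← e4]; exact Real.log_le_log (by norm_num) (by norm_num)
  have e30 : 0 ≤ Real.log 3 := Real.log_nonneg (by norm_num)
  have m1 : J * Real.log (dd / κ' ^ 4) ≤ J * (32 * h) := mul_le_mul_of_nonneg_left hHh hJ0.le
  have m2 : a * Real.log 3 ≤ 1 / 2 * Real.log 3 := mul_le_mul_of_nonneg_right ha1 e30
  have m3 : 4 * J * (32 * h) = 4 * (J * (32 * h)) := by ring
  rw [e1, e2, e3, m3]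
  have m4 : a * (Real.log 3 + N) = a * Real.log 3 + a * N := by ring
  rw [m4]
  linarith

end Run7.h881.GP
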