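import Pool.Agent.Run7.h881.GP.Feat
import Pool.Agent.Run7.h881.GP.Dfl

/-!
The features of the vertices along the walk on an extremal set of the constraint graph.
-/

set_option autoImplicit false
set_option linter.unusedSectionVars false

namespace Run7.h881.GP

open Finset Pool.Agent.H562R2 Pool.Agent.H818R3.Defl

section Wk
variable {U V E : Type} [Fintype U] [Fintype V] [Fintype E] [DecidableEq U] [DecidableEq V]
  [DecidableEq E]

/-- the number of kept edges between two vertices -/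
def wk (s : E → U) (t : E → V) (K : Finset E) : U ⊕ V → U ⊕ V → ℝ
  | Sum.inl u, Sum.inr v => ∑ e, if e ∈ K ∧ s e = u ∧ t e = v then 1 else 0
  | Sum.inr v, Sum.inl u => ∑ e, if e ∈ K ∧ s e = u ∧ t e = v then 1 else 0
  | Sum.inl _, Sum.inl _ => 0
  | Sum.inr _, Sum.inr _ => 0

theorem wk_right (s : E → U) (t : E → V) (K : Finset E) (v : V) (g : U ⊕ V → ℝ) :
    ∑ x, wk s t K (Sum.inr v) x * g x =
      ∑ e, if t e = v then (if e ∈ K then g (Sum.inl (s e)) else 0) else 0 := by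
  rw [Fintype.sum_sum_type]
  have h1 : ∑ x : V, wk s t K (Sum.inr v) (Sum.inr x) * g (Sum.inr x) = 0 :=
    sum_eq_zero fun x _ => by simp [wk]
  rw [h1, add_zero]
  simp only [wk, sum_mul]
  rw [sum_comm]
  refine sum_congr rfl fun e _ => ?_
  rw [sum_eq_single (s e)]
  · by_cases h1 : e ∈ K <;> by_cases h2 : t e = v <;> simp [h1, h2]
  · intro u _ hu
    rw [if_neg (fun h => hu h.2.1.symm), zero_mul]
  · intro h; exact absurd (mem_univ _) h

theorem wk_left (s : E → U) (t : E → V) (K : Finset E) (u : U) (g : U ⊕ V → ℝ) :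
    ∑ x, wk s t K (Sum.inl u) x * g x =
      ∑ e, if s e = u then (if e ∈ K then g (Sum.inr (t e)) else 0) else 0 := by
  rw [Fintype.sum_sum_type]
  have h1 : ∑ x : U, wk s t K (Sum.inl u) (Sum.inl x) * g (Sum.inl x) = 0 :=
    sum_eq_zero fun x _ => by simp [wk]
  rw [h1, zero_add]
  simp only [wk, sum_mul]
  rw [sum_comm]
  refine sum_congr rfl fun e _ => ?_
  rw [sum_eq_single (t e)]
  · by_cases h1 : e ∈ K <;> by_cases h2 : s e = u <;> simp [h1, h2]
  · intro v _ hv
    rw [if_neg (fun h => hv h.2.2.symm), zero_mul]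
  · intro h; exact absurd (mem_univ _) h

theorem wk_nonneg (s : E → U) (t : E → V) (K : Finset E) (x y : U ⊕ V) : 0 ≤ wk s t K x y := by
  rcases x with x | x <;> rcases y with y | y <;> simp only [wk]
  · exact le_rfl
  · exact sum_nonneg fun e _ => by split_ifs <;> norm_num
  · exact sum_nonneg fun e _ => by split_ifs <;> norm_num
  · exact le_rfl

theorem wk_symm (s : E → U) (t : E → V) (K : Finset E) (x y : U ⊕ V) :
    wk s t K x y = wk s t K y x := by
  rcases x with x | x <;> rcases y with y | y <;> simp only [wk]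

theorem bf_wk (s : E → U) (t : E → V) (K : Finset E) (g h : U ⊕ V → ℝ) :
    bf (wk s t K) g h = ∑ e, if e ∈ K then
      g (Sum.inl (s e)) * h (Sum.inr (t e)) + g (Sum.inr (t e)) * h (Sum.inl (s e)) else 0 := by
  unfold bf
  have h1 : ∀ x, ∑ y, wk s t K x y * (g x * h y) = g x * ∑ y, wk s t K x y * h y := by
    intro x
    rw [mul_sum]
    exact sum_congr rfl fun y _ => by ring
  simp only [h1]
  rw [Fintype.sum_sum_type]
  simp only [wk_left, wk_right, mul_sum]
  have h2 : ∀ (T : Type) [Fintype T] [DecidableEq T] (p : E → T) (G : T → ℝ) (F : E → ℝ),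
      ∑ x : T, ∑ e, G x * (if p e = x then F e else 0) = ∑ e, G (p e) * F e := by
    intro T _ _ p G F
    rw [sum_comm]
    refine sum_congr rfl fun e _ => ?_
    rw [sum_eq_single (p e)]
    · rw [if_pos rfl]
    · intro x _ hx
      rw [if_neg (fun h => hx h.symm), mul_zero]
    · intro h; exact absurd (mem_univ _) h
  rw [h2 U s (fun u => g (Sum.inl u)) (fun e => if e ∈ K then h (Sum.inr (t e)) else 0),
    h2 V t (fun v => g (Sum.inr v)) (fun e => if e ∈ K then h (Sum.inl (s e)) else 0),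
    ← sum_add_distrib]
  refine sum_congr rfl fun e _ => ?_
  split_ifs <;> ring

end Wk

/-- the data of a ground state -/
structure Gd {W : Type} [Fintype W] (w : W → W → ℝ) (d : W → ℝ) (S : Finset W) (f : W → ℝ)
    (lam : ℝ) : Prop where
  ne : S.Nonempty
  l0 : 0 < lam
  l1 : lam ≤ 1
  fn : ∀ v, 0 ≤ f v
  fs : Sup S f
  fp : ∀ v ∈ S, 0 < f v
  no : nq d f = 1
  eg : ∀ v ∈ S, ∑ u, w v u * f u = lam * (d v * f v)
  mx : ∀ g, Sup S g → bf w g g ≤ lam * nq d g

section Ce
variable {U V E : Type} [Fintype U] [Fintype V] [Fintype E] [DecidableEq U] [DecidableEq V]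
  [DecidableEq E] (s : E → U) (t : E → V) (K : Finset E)

/-- the weights of the edges given by the ground state -/
def ce (f : U ⊕ V → ℝ) (e : E) : ℝ :=
  if e ∈ K then f (Sum.inl (s e)) * f (Sum.inr (t e)) else 0

variable {d f : U ⊕ V → ℝ} {S : Finset (U ⊕ V)} {lam : ℝ}

theorem ce_nonneg (hf : ∀ v, 0 ≤ f v) (e : E) : 0 ≤ ce s t K f e := by
  unfold ce
  split_ifs
  · exact mul_nonneg (hf _) (hf _)
  · exact le_rfl

variable (h : Gd (wk s t K) d S f lam)
include h

theorem fw (x : U ⊕ V) : f x * ∑ y, wk s t K x y * f y = lam * (d x * f x ^ 2) := by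
  by_cases hx : x ∈ S
  · rw [h.eg x hx]; ring
  · rw [h.fs x hx]; ring

theorem nu_t (v : V) :
    nu t (ce s t K f) v = lam * (d (Sum.inr v) * f (Sum.inr v) ^ 2) := by
  rw [← fw s t K h, wk_right, mul_sum]
  unfold nu ce
  refine sum_congr rfl fun e _ => ?_
  by_cases h1 : t e = v <;> by_cases h2 : e ∈ K <;> simp [h1, h2, mul_comm]

theorem nu_s (u : U) :
    nu s (ce s t K f) u = lam * (d (Sum.inl u) * f (Sum.inl u) ^ 2) := by
  rw [← fw s t K h, wk_left, mul_sum]
  unfold nu ce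
  refine sum_congr rfl fun e _ => ?_
  by_cases h1 : s e = u <;> by_cases h2 : e ∈ K <;> simp [h1, h2]

omit h in
theorem pull {T : Type} [Fintype T] [DecidableEq T] (p : E → T) (c : E → ℝ) (G : T → ℝ) :
    ∑ e, c e * G (p e) = ∑ x, nu p c x * G x := by
  rw [fibre_sum p (fun x e => c e * G x)]
  refine sum_congr rfl fun x _ => ?_
  unfold nu
  rw [sum_mul]
  refine sum_congr rfl fun e _ => ?_
  split_ifs <;> ring

theorem ce_sum : ∑ e, ce s t K f e = lam / 2 := by
  have h1 := pull s (ce s t K f) (fun _ => 1)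
  have h2 := pull t (ce s t K f) (fun _ => 1)
  simp only [mul_one, nu_s s t K h, nu_t s t K h] at h1 h2
  have h3 := h.no
  unfold nq at h3
  rw [Fintype.sum_sum_type] at h3
  have h4 : (∑ x : U, lam * (d (Sum.inl x) * f (Sum.inl x) ^ 2)) +
      ∑ x : V, lam * (d (Sum.inr x) * f (Sum.inr x) ^ 2) = lam * 1 := by
    rw [← mul_sum, ← mul_sum, ← mul_add, h3]
  linarith

theorem half_mass : ∑ u : U, d (Sum.inl u) * f (Sum.inl u) ^ 2 = 1 / 2 := by
  have h1 := pull s (ce s t K f) (fun _ => 1)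
  simp only [mul_one, nu_s s t K h] at h1
  rw [ce_sum s t K h, ← mul_sum] at h1
  have h0 := h.l0
  field_simp at h1
  linarith

end Ce

section Fe
variable {U V E A B D : Type} [Fintype U] [Fintype V] [Fintype E] [Fintype A] [Fintype B]
  [DecidableEq U] [DecidableEq V] [DecidableEq E] [DecidableEq A] [DecidableEq B] [Fintype D]
  (s : E → U) (t : E → V) (K : Finset E)

/-- the features -/
noncomputable def Ye (V : Type) (T : Module.End ℝ (D → ℝ)) (x : U → A → D → ℝ) :
    U ⊕ V → D × D → ℝ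
  | Sum.inl u => dfeat T (x u)
  | Sum.inr _ => 0

variable {d f : U ⊕ V → ℝ} {S : Finset (U ⊕ V)} {lam : ℝ}
  (hG : Gr (wk s t K) d) (h : Gd (wk s t K) d S f lam)
include hG h

theorem ye_zero (T : Module.End ℝ (D → ℝ)) (x : U → A → D → ℝ)
    (hT : ∀ u, ∑ i, dfeat T (x u) i ^ 2 ≤ 1) :
    Cf (wk s t K) d S lam f (Ye V T x) 0 ≤ 1 / 2 := by
  rw [cf_zero hG, Fintype.sum_sum_type, ← half_mass s t K h]
  have h1 : ∑ v : V, d (Sum.inr v) * f (Sum.inr v) ^ 2 *
      ∑ i, Ye V T x (Sum.inr v) i ^ 2 = 0 := sum_eq_zero fun v _ => by simp [Ye]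
  rw [h1, add_zero]
  refine sum_le_sum fun u _ => ?_
  have h2 := mul_le_mul_of_nonneg_left (hT u)
    (mul_nonneg (hG.dp (Sum.inl u)).le (sq_nonneg (f (Sum.inl u))))
  rwa [mul_one] at h2

theorem ks_inr (Z : U ⊕ V → ℝ) (v : V) :
    ks (wk s t K) d S (fun y => f y * Z y) (Sum.inr v) =
      lam * (f (Sum.inr v) * aw t (ce s t K f) (fun e => Z (Sum.inl (s e))) v) := by
  by_cases hv : (Sum.inr v : U ⊕ V) ∈ S
  · unfold ks
    rw [if_pos hv, wk_right, div_eq_iff (hG.dp _).ne']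
    have h1 := aw_mul_nu t (ce s t K f) (ce_nonneg s t K h.fn) (fun e => Z (Sum.inl (s e))) v
    rw [nu_t s t K h] at h1
    have h2 : (∑ e, if t e = v then ce s t K f e * Z (Sum.inl (s e)) else 0) =
        f (Sum.inr v) * ∑ e, (if t e = v then
          (if e ∈ K then f (Sum.inl (s e)) * Z (Sum.inl (s e)) else 0) else 0) := by
      rw [mul_sum]
      refine sum_congr rfl fun e _ => ?_
      unfold ce
      by_cases h1 : t e = v <;> by_cases h2 : e ∈ K <;> simp [h1, h2]
      ring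
    rw [h2] at h1
    have h3 := h.fp _ hv
    have h4 : f (Sum.inr v) * (∑ e, (if t e = v then
          (if e ∈ K then f (Sum.inl (s e)) * Z (Sum.inl (s e)) else 0) else 0)) =
        f (Sum.inr v) * (lam * (f (Sum.inr v) * aw t (ce s t K f)
          (fun e => Z (Sum.inl (s e))) v) * d (Sum.inr v)) := by
      rw [← h1]; ring
    exact mul_left_cancel₀ h3.ne' h4
  · rw [ks_sup _ _ _ _ _ hv, h.fs _ hv]; ring

theorem ye_two (T : Module.End ℝ (D → ℝ)) (x : U → A → D → ℝ) (γ : ℝ) (hγ : γ * (lam / 2) ≤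
    ∑ e, ce s t K f e * aw t (ce s t K f) (fun e' => dker T (x (s e)) (x (s e'))) (t e)) :
    γ / 2 ≤ Cf (wk s t K) d S lam f (Ye V T x) (2 * 1) := by
  have hl := h.l0
  rw [cf_even hG S lam f h.fs, le_div_iff₀ (by positivity)]
  simp only [Function.iterate_one]
  have h1 : ∀ i, ∑ v : V, nu t (ce s t K f) v *
      aw t (ce s t K f) (fun e => dfeat T (x (s e)) i) v ^ 2 * lam ≤
      nq d (ks (wk s t K) d S (fun y => f y * Ye V T x y i)) := by
    intro i
    unfold nq
    rw [Fintype.sum_sum_type]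
    have h2 : 0 ≤ ∑ u : U, d (Sum.inl u) *
        ks (wk s t K) d S (fun y => f y * Ye V T x y i) (Sum.inl u) ^ 2 :=
      sum_nonneg fun u _ => mul_nonneg (hG.dp _).le (sq_nonneg _)
    refine le_trans (le_of_eq ?_) (le_add_of_nonneg_left h2)
    refine sum_congr rfl fun v _ => ?_
    rw [ks_inr s t K hG h (fun y => Ye V T x y i) v, nu_t s t K h]
    simp only [Ye]
    ring
  have h2 : ∑ i, ∑ v : V, nu t (ce s t K f) v *
      aw t (ce s t K f) (fun e => dfeat T (x (s e)) i) v ^ 2 * lam =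
      lam * ∑ e, ce s t K f e *
        aw t (ce s t K f) (fun e' => dker T (x (s e)) (x (s e'))) (t e) := by
    have h3 : ∀ i, ∑ v : V, nu t (ce s t K f) v *
        aw t (ce s t K f) (fun e => dfeat T (x (s e)) i) v ^ 2 * lam =
        lam * ∑ e, ce s t K f e * (dfeat T (x (s e)) i *
          aw t (ce s t K f) (fun e => dfeat T (x (s e)) i) (t e)) := by
      intro i
      rw [aw_sq_eq t (ce s t K f) (ce_nonneg s t K h.fn)
        (fun e => dfeat T (x (s e)) i),
        pull t (ce s t K f) (fun v => aw t (ce s t K f) (fun e => dfeat T (x (s e)) i) v ^ 2),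
        mul_sum]
      exact sum_congr rfl fun v _ => by ring
    rw [sum_congr rfl fun i _ => h3 i, ← mul_sum, sum_comm]
    congr 1
    refine sum_congr rfl fun e _ => ?_
    rw [← mul_sum]
    congr 1
    simp only [← dfeat_dot]
    rw [aw_sum]
    exact sum_congr rfl fun i _ => (aw_smul t _ _ _ _).symm
  calc γ / 2 * lam ^ (2 * 1) = lam * (γ * (lam / 2)) := by ring
    _ ≤ lam * _ := mul_le_mul_of_nonneg_left hγ hl.le
    _ = _ := h2.symm
    _ ≤ _ := sum_le_sum fun i _ => h1 i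

theorem ye_up (T : Module.End ℝ (D → ℝ)) (x : U → A → D → ℝ) (q : ℝ) (hq : ∑ e, ce s t K f e *
      ∑ e', ce s t K f e' * dker T (x (s e)) (x (s e')) ^ 2 ≤ (lam / 2) ^ 2 / q) :
    ∑ a, ∑ b, (d a * f a ^ 2) * (d b * f b ^ 2) * (∑ i, Ye V T x a i * Ye V T x b i) ^ 2 ≤
      1 / (4 * q) := by
  have hl := h.l0
  have h1 : ∑ a, ∑ b, (d a * f a ^ 2) * (d b * f b ^ 2) *
      (∑ i, Ye V T x a i * Ye V T x b i) ^ 2 =
      ∑ u : U, ∑ u' : U, (d (Sum.inl u) * f (Sum.inl u) ^ 2) *
        (d (Sum.inl u') * f (Sum.inl u') ^ 2) * dker T (x u) (x u') ^ 2 := by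
    rw [Fintype.sum_sum_type]
    have e1 : ∑ v : V, ∑ b, (d (Sum.inr v) * f (Sum.inr v) ^ 2) * (d b * f b ^ 2) *
        (∑ i, Ye V T x (Sum.inr v) i * Ye V T x b i) ^ 2 = 0 :=
      sum_eq_zero fun v _ => sum_eq_zero fun b _ => by simp [Ye]
    rw [e1, add_zero]
    refine sum_congr rfl fun u _ => ?_
    rw [Fintype.sum_sum_type]
    have e2 : ∑ v : V, (d (Sum.inl u) * f (Sum.inl u) ^ 2) *
        (d (Sum.inr v) * f (Sum.inr v) ^ 2) *
        (∑ i, Ye V T x (Sum.inl u) i * Ye V T x (Sum.inr v) i) ^ 2 = 0 :=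
      sum_eq_zero fun v _ => by simp [Ye]
    rw [e2, add_zero]
    refine sum_congr rfl fun u' _ => ?_
    simp only [Ye]
    rw [dfeat_dot]
  have h2 : ∑ e, ce s t K f e * ∑ e', ce s t K f e' * dker T (x (s e)) (x (s e')) ^ 2 =
      lam ^ 2 * ∑ u : U, ∑ u' : U, (d (Sum.inl u) * f (Sum.inl u) ^ 2) *
        (d (Sum.inl u') * f (Sum.inl u') ^ 2) * dker T (x u) (x u') ^ 2 := by
    have e1 : ∀ u, ∑ e', ce s t K f e' * dker T (x u) (x (s e')) ^ 2 =
        ∑ u', nu s (ce s t K f) u' * dker T (x u) (x u') ^ 2 :=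
      fun u => pull s (ce s t K f) (fun u' => dker T (x u) (x u') ^ 2)
    have e2 := pull s (ce s t K f)
      (fun u => ∑ u', nu s (ce s t K f) u' * dker T (x u) (x u') ^ 2)
    simp only [e1]
    rw [e2, mul_sum]
    refine sum_congr rfl fun u _ => ?_
    rw [mul_sum, mul_sum]
    refine sum_congr rfl fun u' _ => ?_
    rw [nu_s s t K h, nu_s s t K h]
    ring
  rw [h1]
  rw [h2] at hq
  have h3 : lam ^ 2 * (∑ u : U, ∑ u' : U, (d (Sum.inl u) * f (Sum.inl u) ^ 2) *
        (d (Sum.inl u') * f (Sum.inl u') ^ 2) * dker T (x u) (x u') ^ 2) ≤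
      lam ^ 2 * (1 / (4 * q)) := by
    refine hq.trans (le_of_eq ?_)
    rw [div_pow]
    ring
  exact le_of_mul_le_mul_left h3 (by positivity)

end Fe

end Run7.h881.GP
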