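import Pool.Agent.Run7.h881.GP.Core

/-!
From weighted edges to a level set; the greedy procedure.
-/

set_option autoImplicit false
set_option linter.unusedSectionVars false

namespace Run7.h881.GP

open Finset Pool.Agent.H562R2 Pool.Agent.H818R3.Defl

theorem int_ind (M x : ℝ) (hx : 0 ≤ x) (hM : x ≤ M) :
    ∫ θ in Set.Ioc (0 : ℝ) M, (if θ ≤ x then (1 : ℝ) else 0) = x := by
  have h1 : (fun θ : ℝ => if θ ≤ x then (1 : ℝ) else 0) =
      Set.indicator (Set.Iic x) (fun _ => (1 : ℝ)) := by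
    funext θ
    simp [Set.indicator_apply]
  rw [h1, MeasureTheory.setIntegral_indicator measurableSet_Iic, Set.Ioc_inter_Iic,
    min_eq_right hM, MeasureTheory.setIntegral_const]
  simp [hx]

theorem ind_int (M x : ℝ) : MeasureTheory.IntegrableOn
    (fun θ : ℝ => if θ ≤ x then (1 : ℝ) else 0) (Set.Ioc (0 : ℝ) M) := by
  have h1 : (fun θ : ℝ => if θ ≤ x then (1 : ℝ) else 0) =
      Set.indicator (Set.Iic x) (fun _ => (1 : ℝ)) := by
    funext θ
    simp [Set.indicator_apply]
  rw [h1]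
  refine MeasureTheory.Integrable.indicator ?_ measurableSet_Iic
  rw [MeasureTheory.integrable_const_iff]
  right
  constructor
  simp

/-- a level at which one function dominates another -/
theorem thr {E : Type} [Fintype E] [DecidableEq E] (p q : E → ℝ) (hp : ∀ e, 0 ≤ p e)
    (hq : ∀ e, 0 ≤ q e) (ρ : ℝ) (h : ρ * ∑ e, q e < ∑ e, p e) :
    ∃ θ : ℝ, 0 < θ ∧ ρ * ((univ.filter fun e => θ ≤ q e).card : ℝ) <
      ((univ.filter fun e => θ ≤ p e).card : ℝ) := by
  by_contra hcon
  push Not at hcon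
  obtain ⟨M, hM⟩ : ∃ M, M = (∑ e, p e) + ∑ e, q e := ⟨_, rfl⟩
  have hpM : ∀ e, p e ≤ M := fun e => by
    rw [hM]
    have h1 := single_le_sum (fun e _ => hp e) (mem_univ e)
    have h2 := sum_nonneg fun e (_ : e ∈ univ) => hq e
    linarith
  have hqM : ∀ e, q e ≤ M := fun e => by
    rw [hM]
    have h1 := single_le_sum (fun e _ => hq e) (mem_univ e)
    have h2 := sum_nonneg fun e (_ : e ∈ univ) => hp e
    linarith
  have hc : ∀ (r : E → ℝ) (θ : ℝ), ((univ.filter fun e => θ ≤ r e).card : ℝ) =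
      ∑ e, if θ ≤ r e then (1 : ℝ) else 0 := by
    intro r θ
    rw [sum_boole]
  have hI : ∀ r : E → ℝ, (∀ e, 0 ≤ r e) → (∀ e, r e ≤ M) →
      ∫ θ in Set.Ioc (0 : ℝ) M, ∑ e, (if θ ≤ r e then (1 : ℝ) else 0) = ∑ e, r e := by
    intro r h1 h2
    rw [MeasureTheory.integral_finset_sum _ (fun e _ => ind_int M (r e))]
    exact sum_congr rfl fun e _ => int_ind M (r e) (h1 e) (h2 e)
  have hin : ∀ r : E → ℝ, MeasureTheory.IntegrableOn
      (fun θ => ∑ e, (if θ ≤ r e then (1 : ℝ) else 0)) (Set.Ioc (0 : ℝ) M) := fun r =>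
    MeasureTheory.integrable_finset_sum _ (fun e _ => ind_int M (r e))
  have h1 : ∫ θ in Set.Ioc (0 : ℝ) M, ∑ e, (if θ ≤ p e then (1 : ℝ) else 0) ≤
      ∫ θ in Set.Ioc (0 : ℝ) M, ρ * ∑ e, (if θ ≤ q e then (1 : ℝ) else 0) := by
    refine MeasureTheory.setIntegral_mono_on (hin p) ((hin q).const_mul ρ) measurableSet_Ioc ?_
    intro θ hθ
    rw [← hc p θ, ← hc q θ]
    exact hcon θ hθ.1
  rw [hI p hp hpM, MeasureTheory.integral_const_mul, hI q hq hqM] at h1
  linarith

section Greedy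
variable {U V E A B : Type} [Fintype U] [Fintype V] [Fintype E] [Fintype A] [Fintype B]
  [DecidableEq U] [DecidableEq V] [DecidableEq E] [DecidableEq A] [DecidableEq B]

/-- **the greedy procedure** -/
theorem greedy (s : E → U) (t : E → V) (π : E → A → B) (ρ T : ℝ) (hρ : 0 ≤ ρ)
    (L0 : U → A) (M0 : V → B)
    (hstep : ∀ R : Finset E, T ≤ R.card → R.Nonempty →
      ∃ (S : Finset (U ⊕ V)) (L : U → A) (M : V → B),
        0 < (R.filter fun e => Sum.inl (s e) ∈ S ∨ Sum.inr (t e) ∈ S).card ∧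
        ρ * ((R.filter fun e => Sum.inl (s e) ∈ S ∨ Sum.inr (t e) ∈ S).card : ℝ) ≤
          ((R.filter fun e => Sum.inl (s e) ∈ S ∧ Sum.inr (t e) ∈ S ∧
            π e (L (s e)) = M (t e)).card : ℝ)) (hT : 0 ≤ T) :
    ∀ (k : ℕ) (R : Finset E), R.card = k → ∃ (L : U → A) (M : V → B),
      ρ * ((R.card : ℝ) - T) ≤ ((R.filter fun e => π e (L (s e)) = M (t e)).card : ℝ) := by
  intro k
  induction k using Nat.strong_induction_on with
  | _ k ih =>
    intro R hR
    by_cases hc : T ≤ R.card ∧ R.Nonempty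
    · obtain ⟨S, L, M, h1, h2⟩ := hstep R hc.1 hc.2
      obtain ⟨R1, hR1⟩ : ∃ R1, R1 = R.filter
        (fun e => Sum.inl (s e) ∈ S ∨ Sum.inr (t e) ∈ S) := ⟨_, rfl⟩
      obtain ⟨R2, hR2⟩ : ∃ R2, R2 = R.filter
        (fun e => ¬ (Sum.inl (s e) ∈ S ∨ Sum.inr (t e) ∈ S)) := ⟨_, rfl⟩
      have hcard : R1.card + R2.card = R.card := by
        rw [hR1, hR2]
        exact card_filter_add_card_filter_not _
      rw [← hR1] at h1 h2
      obtain ⟨L', M', h3⟩ := ih R2.card (by omega) R2 rfl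
      refine ⟨fun u => if Sum.inl u ∈ S then L u else L' u,
        fun v => if Sum.inr v ∈ S then M v else M' v, ?_⟩
      have hsub : (R.filter fun e => Sum.inl (s e) ∈ S ∧ Sum.inr (t e) ∈ S ∧
            π e (L (s e)) = M (t e)) ∪ (R2.filter fun e => π e (L' (s e)) = M' (t e)) ⊆
          R.filter fun e => π e (if Sum.inl (s e) ∈ S then L (s e) else L' (s e)) =
            (if Sum.inr (t e) ∈ S then M (t e) else M' (t e)) := by
        intro e he
        rw [mem_union] at he
        rw [mem_filter]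
        rcases he with he | he
        · rw [mem_filter] at he
          obtain ⟨k1, k2, k3, k4⟩ := he
          exact ⟨k1, by rw [if_pos k2, if_pos k3]; exact k4⟩
        · rw [hR2, mem_filter, mem_filter, not_or] at he
          obtain ⟨⟨k1, k2, k3⟩, k4⟩ := he
          exact ⟨k1, by rw [if_neg k2, if_neg k3]; exact k4⟩
      have hdis : Disjoint (R.filter fun e => Sum.inl (s e) ∈ S ∧ Sum.inr (t e) ∈ S ∧
            π e (L (s e)) = M (t e)) (R2.filter fun e => π e (L' (s e)) = M' (t e)) := by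
        rw [disjoint_left]
        intro e he he'
        rw [mem_filter] at he
        rw [hR2, mem_filter, mem_filter, not_or] at he'
        exact he'.1.2.1 he.2.1
      have h4 := card_le_card hsub
      rw [card_union_of_disjoint hdis] at h4
      have h5 : (((R.filter fun e => Sum.inl (s e) ∈ S ∧ Sum.inr (t e) ∈ S ∧
            π e (L (s e)) = M (t e)).card : ℝ)) +
          ((R2.filter fun e => π e (L' (s e)) = M' (t e)).card : ℝ) ≤
          ((R.filter fun e => π e (if Sum.inl (s e) ∈ S then L (s e) else L' (s e)) =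
            (if Sum.inr (t e) ∈ S then M (t e) else M' (t e))).card : ℝ) := by
        exact_mod_cast h4
      have hcard' : (R1.card : ℝ) + R2.card = R.card := by exact_mod_cast hcard
      have h6 : ρ * ((R.card : ℝ) - T) = ρ * (R1.card : ℝ) + ρ * ((R2.card : ℝ) - T) := by
        rw [← hcard']; ring
      rw [h6]
      linarith
    · refine ⟨L0, M0, ?_⟩
      have h1 : (R.card : ℝ) - T ≤ 0 := by
        by_cases h2 : R.Nonempty
        · have h3 : ¬ T ≤ R.card := fun h => hc ⟨h, h2⟩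
          push Not at h3
          linarith
        · rw [not_nonempty_iff_eq_empty] at h2
          rw [h2]
          simpa using hT
      have h2 : ρ * ((R.card : ℝ) - T) ≤ 0 := mul_nonpos_of_nonneg_of_nonpos hρ h1
      exact h2.trans (Nat.cast_nonneg _)

end Greedy

section Step
variable {U V E A B D : Type} [Fintype U] [Fintype V] [Fintype E] [Fintype A] [Fintype B]
  [DecidableEq U] [DecidableEq V] [DecidableEq E] [DecidableEq A] [DecidableEq B] [Fintype D]

/-- the number of edges at a vertex -/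
def dgr (s : E → U) (t : E → V) (R : Finset E) : U ⊕ V → ℝ
  | Sum.inl u => ∑ e, if s e = u then (if e ∈ R then 1 else 0) else 0
  | Sum.inr v => ∑ e, if t e = v then (if e ∈ R then 1 else 0) else 0

theorem dgr_nonneg (s : E → U) (t : E → V) (R : Finset E) (x : U ⊕ V) : 0 ≤ dgr s t R x := by
  rcases x with x | x <;>
  · unfold dgr
    exact sum_nonneg fun e _ => by split_ifs <;> norm_num

theorem dgr_sum (s : E → U) (t : E → V) (R : Finset E) (g : U ⊕ V → ℝ) :
    ∑ x, dgr s t R x * g x =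
      ∑ e, if e ∈ R then g (Sum.inl (s e)) + g (Sum.inr (t e)) else 0 := by
  rw [Fintype.sum_sum_type]
  have h1 := pull s (fun e => if e ∈ R then (1 : ℝ) else 0) (fun u => g (Sum.inl u))
  have h2 := pull t (fun e => if e ∈ R then (1 : ℝ) else 0) (fun u => g (Sum.inr u))
  have e1 : ∑ x : U, dgr s t R (Sum.inl x) * g (Sum.inl x) =
      ∑ e, (if e ∈ R then (1 : ℝ) else 0) * g (Sum.inl (s e)) := by
    rw [h1]; rfl
  have e2 : ∑ x : V, dgr s t R (Sum.inr x) * g (Sum.inr x) =
      ∑ e, (if e ∈ R then (1 : ℝ) else 0) * g (Sum.inr (t e)) := by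
    rw [h2]; rfl
  rw [e1, e2, ← sum_add_distrib]
  refine sum_congr rfl fun e _ => ?_
  split_ifs <;> ring

theorem step (s : E → U) (t : E → V) (π : E → A → B) (dd : ℕ) (hdd : 0 < dd)
    (hfib : ∀ e b, (Finset.univ.filter fun a => π e a = b).card ≤ dd)
    {x : U → A → D → ℝ} {y : V → B → D → ℝ} (hsd : SdpFeasible x y) (R K : Finset E)
    (hKR : K ⊆ R) (hRn : R.Nonempty) (κ : ℝ)
    (hκ0 : 0 < κ) (hκ1 : κ ≤ 1) (hK : ∀ e ∈ K, κ ≤ ∑ a, x (s e) a ⬝ᵥ y (t e) (π e a))
    (ω : ℝ) (hω : 0 < ω) (hRK : ω * R.card ≤ K.card)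
    (a : ℝ) (ha : 0 < a) (ha1 : a ≤ 1 / 2) (nn lm : ℝ) (hnn : nn = Fintype.card (U ⊕ V))
    (hlm : lm = 2 * ω / 3 * (1 / (3 * nn)) ^ a)
    (j : ℕ) (τ : ℝ) (hτ1 : 1 ≤ τ)
    (hτ : Real.exp (Real.log (16 / (a * lm)) + 1 / 2 + Real.log nn / (1 + 2 * a) ^ (2 * (j + 1)))
      ≤ τ) :
    ∃ (S : Finset (U ⊕ V)) (L : U → A) (M : V → B),
      0 < (R.filter fun e => Sum.inl (s e) ∈ S ∨ Sum.inr (t e) ∈ S).card ∧
      (κ ^ 2 / (24 * (j + 1 : ℕ) * (τ * (dd / κ ^ 4) ^ (2 * (j + 1)))) * (lm / 2)) ^ 2 *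
        ((R.filter fun e => Sum.inl (s e) ∈ S ∨ Sum.inr (t e) ∈ S).card : ℝ) ≤
          ((R.filter fun e => Sum.inl (s e) ∈ S ∧ Sum.inr (t e) ∈ S ∧
            π e (L (s e)) = M (t e)).card : ℝ) := by
  obtain ⟨e0, he0⟩ := hRn
  haveI : Nonempty (U ⊕ V) := ⟨Sum.inl (s e0)⟩
  have hdd' : (0 : ℝ) < dd := by exact_mod_cast hdd
  have hnn0 : 0 < nn := by rw [hnn]; exact_mod_cast Fintype.card_pos
  have hRc : (0 : ℝ) < R.card := by exact_mod_cast card_pos.2 ⟨e0, he0⟩
  obtain ⟨d, hd⟩ : ∃ d : U ⊕ V → ℝ, d = fun x => dgr s t R x + R.card / nn := ⟨_, rfl⟩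
  have hd0 : ∀ x, (R.card : ℝ) / nn ≤ d x := fun x => by
    rw [hd]; exact le_add_of_nonneg_left (dgr_nonneg s t R x)
  have hdR : ∀ x, dgr s t R x ≤ d x := fun x => by
    rw [hd]; exact le_add_of_nonneg_right (by positivity)
  have hG : Gr (wk s t K) d := by
    refine ⟨wk_nonneg s t K, wk_symm s t K, fun x => le_trans ?_ (hdR x),
      fun x => lt_of_lt_of_le (by positivity) (hd0 x)⟩
    rcases x with x | x
    · have h1 := wk_left s t K x (fun _ => 1)
      simp only [mul_one] at h1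
      rw [h1]
      unfold dgr
      refine sum_le_sum fun e _ => ?_
      by_cases h2 : s e = x
      · rw [if_pos h2, if_pos h2]
        by_cases h3 : e ∈ K
        · rw [if_pos h3, if_pos (hKR h3)]
        · rw [if_neg h3]; split_ifs <;> norm_num
      · rw [if_neg h2, if_neg h2]
    · have h1 := wk_right s t K x (fun _ => 1)
      simp only [mul_one] at h1
      rw [h1]
      unfold dgr
      refine sum_le_sum fun e _ => ?_
      by_cases h2 : t e = x
      · rw [if_pos h2, if_pos h2]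
        by_cases h3 : e ∈ K
        · rw [if_pos h3, if_pos (hKR h3)]
        · rw [if_neg h3]; split_ifs <;> norm_num
      · rw [if_neg h2, if_neg h2]
  have hvol : vl d univ = 3 * R.card := by
    unfold vl
    rw [hd, sum_add_distrib]
    have h1 := dgr_sum s t R (fun _ => 1)
    simp only [mul_one] at h1
    rw [h1]
    have h2 : ∑ e, (if e ∈ R then (1 : ℝ) + 1 else 0) = 2 * R.card := by
      rw [sum_ite_mem, univ_inter, sum_const, nsmul_eq_mul]; ring
    rw [h2, sum_const, nsmul_eq_mul, card_univ, ← hnn]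
    field_simp
    ring
  have hbf : bf (wk s t K) (fun _ => 1) (fun _ => 1) = 2 * K.card := by
    rw [bf_wk, sum_ite_mem, univ_inter, sum_const, nsmul_eq_mul]; ring
  obtain ⟨S, f, lam, h1, h2, h3, h4, h5, h6, h7, h8, h9, h10, h11⟩ :=
    exists_ext hG a (2 * ω / 3) ha (by positivity) (by
      rw [hvol, hbf]
      nlinarith)
  have hgd : Gd (wk s t K) d S f lam := ⟨h1, h2, h3, h4, h5, h6, h7, h8, h9⟩
  have hlm0 : 0 < lm := by rw [hlm]; positivity
  have hll : lm ≤ lam := by
    refine le_trans ?_ h11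
    rw [hlm]
    refine mul_le_mul_of_nonneg_left ?_ (by positivity)
    refine Real.rpow_le_rpow (by positivity) ?_ ha.le
    rw [hvol, div_le_div_iff₀ (by positivity) (by positivity)]
    obtain ⟨v, hv⟩ := h1
    have k1 : (R.card : ℝ) / nn ≤ vl d S :=
      (hd0 v).trans (single_le_sum (f := d) (fun x _ => (hG.dp x).le) hv)
    rw [div_le_iff₀ hnn0] at k1
    nlinarith
  have hN : Real.log S.card ≤ Real.log nn := by
    refine Real.log_le_log (by exact_mod_cast h1.card_pos) ?_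
    rw [hnn]
    exact_mod_cast card_le_univ S
  have hmono : Real.log (16 / (a * lam)) ≤ Real.log (16 / (a * lm)) := by
    refine Real.log_le_log (by positivity) ?_
    exact div_le_div_of_nonneg_left (by norm_num) (by positivity)
      (mul_le_mul_of_nonneg_left hll ha.le)
  obtain ⟨L, M, hLM⟩ := part2 s t π dd hdd hfib hsd K κ hκ0 hκ1 hK hG hgd a (Real.log nn) ha ha1 hN
    h10 j τ hτ1 (le_trans (Real.exp_le_exp.2 (by linarith)) hτ)
  obtain ⟨δ, hδ⟩ : ∃ δ, δ = κ ^ 2 / (24 * (j + 1 : ℕ) * (τ * (dd / κ ^ 4) ^ (2 * (j + 1)))) :=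
    ⟨_, rfl⟩
  rw [← hδ] at hLM ⊢
  have hδ0 : 0 < δ := by rw [hδ]; positivity
  have hη : δ * (lm / 2) < ∑ e, ce s t K f e * (if π e (L (s e)) = M (t e) then 1 else 0) :=
    lt_of_le_of_lt (mul_le_mul_of_nonneg_left (by linarith) hδ0.le) hLM
  have hη0 : 0 < δ * (lm / 2) := by positivity
  obtain ⟨p, hp⟩ : ∃ p : E → ℝ, p = fun e => if e ∈ K ∧ π e (L (s e)) = M (t e) then
    min (f (Sum.inl (s e)) ^ 2) (f (Sum.inr (t e)) ^ 2) else 0 := ⟨_, rfl⟩
  obtain ⟨q, hq⟩ : ∃ q : E → ℝ, q = fun e => if e ∈ R then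
    max (f (Sum.inl (s e)) ^ 2) (f (Sum.inr (t e)) ^ 2) else 0 := ⟨_, rfl⟩
  have hp0 : ∀ e, 0 ≤ p e := fun e => by
    rw [hp]; dsimp only; split_ifs
    · exact le_min (sq_nonneg _) (sq_nonneg _)
    · exact le_rfl
  have hq0 : ∀ e, 0 ≤ q e := fun e => by
    rw [hq]; dsimp only; split_ifs
    · exact (sq_nonneg _).trans (le_max_left _ _)
    · exact le_rfl
  have hpq : ∀ e, p e ≤ q e := fun e => by
    by_cases h : e ∈ K ∧ π e (L (s e)) = M (t e)
    · rw [hp, hq]
      simp only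
      rw [if_pos h, if_pos (hKR h.1)]
      exact min_le_max
    · have : p e = 0 := by rw [hp]; simp only; rw [if_neg h]
      rw [this]; exact hq0 e
  have hcs := Finset.sum_sq_le_sum_mul_sum_of_sq_le_mul (univ : Finset E)
    (r := fun e => ce s t K f e * (if π e (L (s e)) = M (t e) then 1 else 0))
    (f := p) (g := q) (fun e _ => hp0 e) (fun e _ => hq0 e) (by
      intro e _
      by_cases h : e ∈ K ∧ π e (L (s e)) = M (t e)
      · rw [hp, hq]
        simp only
        unfold ce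
        rw [if_pos h, if_pos (hKR h.1), if_pos h.1, if_pos h.2, min_mul_max]
        apply le_of_eq
        ring
      · have h0 : ce s t K f e * (if π e (L (s e)) = M (t e) then 1 else 0) = 0 := by
          unfold ce
          by_cases h' : e ∈ K
          · rw [if_neg (fun h'' => h ⟨h', h''⟩), mul_zero]
          · rw [if_neg h', zero_mul]
        rw [h0]
        have := mul_nonneg (hp0 e) (hq0 e)
        simpa using this)
  have hqs : ∑ e, q e ≤ 1 := by
    have k1 := dgr_sum s t R (fun x => f x ^ 2)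
    have k2 : ∑ e, q e ≤ ∑ x, dgr s t R x * f x ^ 2 := by
      rw [k1]
      refine sum_le_sum fun e _ => ?_
      rw [hq]
      simp only
      by_cases h : e ∈ R
      · rw [if_pos h, if_pos h]
        exact max_le (le_add_of_nonneg_right (sq_nonneg _)) (le_add_of_nonneg_left (sq_nonneg _))
      · rw [if_neg h, if_neg h]
    refine k2.trans ?_
    rw [← h7]
    exact sum_le_sum fun x _ => mul_le_mul_of_nonneg_right (hdR x) (sq_nonneg _)
  have hps : 0 ≤ ∑ e, p e := sum_nonneg fun e _ => hp0 e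
  have hlt : (δ * (lm / 2)) ^ 2 * ∑ e, q e < ∑ e, p e := by
    have k1 : (δ * (lm / 2)) ^ 2 < (∑ e, p e) * ∑ e, q e :=
      lt_of_lt_of_le (pow_lt_pow_left₀ hη hη0.le two_ne_zero) hcs
    have k2 : (∑ e, p e) * ∑ e, q e ≤ ∑ e, p e := by
      have := mul_le_mul_of_nonneg_left hqs hps
      linarith
    have k3 : (δ * (lm / 2)) ^ 2 * ∑ e, q e ≤ (δ * (lm / 2)) ^ 2 := by
      have := mul_le_mul_of_nonneg_left hqs (sq_nonneg (δ * (lm / 2)))
      linarith
    linarith
  obtain ⟨θ, hθ, hθ2⟩ := thr p q hp0 hq0 _ hlt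
  have hset : (R.filter fun e => Sum.inl (s e) ∈ (univ.filter fun x => θ ≤ f x ^ 2) ∨
      Sum.inr (t e) ∈ (univ.filter fun x => θ ≤ f x ^ 2)) = univ.filter fun e => θ ≤ q e := by
    ext e
    simp only [mem_filter, mem_univ, true_and]
    rw [hq]
    simp only
    constructor
    · rintro ⟨k1, k2⟩
      rw [if_pos k1]
      exact le_max_iff.2 k2
    · intro k1
      by_cases k2 : e ∈ R
      · rw [if_pos k2] at k1
        exact ⟨k2, le_max_iff.1 k1⟩
      · rw [if_neg k2] at k1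
        exact absurd k1 (not_le.2 hθ)
  have hset2 : (univ.filter fun e => θ ≤ p e) ⊆
      R.filter fun e => Sum.inl (s e) ∈ (univ.filter fun x => θ ≤ f x ^ 2) ∧
        Sum.inr (t e) ∈ (univ.filter fun x => θ ≤ f x ^ 2) ∧ π e (L (s e)) = M (t e) := by
    intro e he
    simp only [mem_filter, mem_univ, true_and] at he ⊢
    rw [hp] at he
    simp only at he
    by_cases k : e ∈ K ∧ π e (L (s e)) = M (t e)
    · rw [if_pos k] at he
      exact ⟨hKR k.1, (le_min_iff.1 he).1, (le_min_iff.1 he).2, k.2⟩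
    · rw [if_neg k] at he
      exact absurd he (not_le.2 hθ)
  have hc1 : (((univ.filter fun e => θ ≤ p e).card : ℝ)) ≤
      ((R.filter fun e => Sum.inl (s e) ∈ (univ.filter fun x => θ ≤ f x ^ 2) ∧
        Sum.inr (t e) ∈ (univ.filter fun x => θ ≤ f x ^ 2) ∧ π e (L (s e)) = M (t e)).card : ℝ) := by
    exact_mod_cast card_le_card hset2
  have hc2 : (((univ.filter fun e => θ ≤ p e).card : ℝ)) ≤
      ((univ.filter fun e => θ ≤ q e).card : ℝ) := by
    have : (univ.filter fun e => θ ≤ p e) ⊆ (univ.filter fun e => θ ≤ q e) := by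
      intro e he
      simp only [mem_filter, mem_univ, true_and] at he ⊢
      exact he.trans (hpq e)
    exact_mod_cast card_le_card this
  refine ⟨univ.filter fun x => θ ≤ f x ^ 2, L, M, ?_, ?_⟩
  · rw [hset]
    have k1 : (0 : ℝ) ≤ (δ * (lm / 2)) ^ 2 * ((univ.filter fun e => θ ≤ q e).card : ℝ) := by
      positivity
    have k2 : (0 : ℝ) < ((univ.filter fun e => θ ≤ q e).card : ℝ) := by linarith
    exact_mod_cast k2
  · rw [hset]
    linarith

end Step

end Run7.h881.GP
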