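import Pool.Agent.Run7.h881.GP.Nash

/-!
Decay of the trace of the heat kernel of an extremal set.
-/

set_option autoImplicit false
set_option linter.unusedSectionVars false

namespace Run7.h881.GP

open Finset

section
variable {W : Type} [Fintype W] [DecidableEq W] {w : W → W → ℝ} {d : W → ℝ} (hG : Gr w d)
  (S : Finset W)
include hG

theorem nq_succ (j : ℕ) (x : W) :
    bf w (pk w d S (j + 1) x) (pk w d S j x) = nq d (pk w d S (j + 1) x) := by
  rw [← ip_self, ← ip_ks hG S (pk w d S j x) (pk w d S (j + 1) x)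
    (by rw [pk_succ]; exact ks_sup w d S _)]
  rw [pk_succ]

theorem l1_pos (g : W → ℝ) (hg : ∀ v, 0 ≤ g v) (h : 0 < nq d g) : 0 < ∑ v, d v * g v := by
  by_contra hcon
  have h0 : 0 ≤ ∑ v, d v * g v := sum_nonneg fun v _ => mul_nonneg (hG.dp v).le (hg v)
  have h1 : ∑ v, d v * g v = 0 := le_antisymm (not_lt.1 hcon) h0
  have h2 : nq d g = 0 := by
    unfold nq
    refine sum_eq_zero fun v _ => ?_
    have h3 := (sum_eq_zero_iff_of_nonneg (fun v _ => mul_nonneg (hG.dp v).le (hg v))).1 h1 v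
      (mem_univ v)
    rcases mul_eq_zero.1 h3 with h4 | h4
    · exact absurd h4 (hG.dp v).ne'
    · rw [h4]; ring
  linarith

/-- the pointwise inequality -/
theorem point (hS : S.Nonempty) (lam a η : ℝ) (hlam : 0 < lam) (ha : 0 ≤ a) (hη : 0 < η)
    (hfk : ∀ S' : Finset W, S'.Nonempty → ∀ g, Sup S' g →
        bf w g g ≤ lam * (vl d S' / vl d S) ^ a * nq d g) (j : ℕ) (x : W) (hx : x ∈ S) :
    d x * nq d (pk w d S (j + 1) x) * (1 - 2 * η) ≤ lam *
      ((d x * nq d (pk w d S j x)) ^ (1 / 2 : ℝ) *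
        (d x * nq d (pk w d S (j + 1) x)) ^ (1 / 2 - a) *
        (d x * (2 * el w d S (j + 1) x * el w d S j x / (η * vl d S))) ^ a) := by
  have hdx := hG.dp x
  have hvS := vl_pos hG S hS
  have hP : 0 ≤ nq d (pk w d S j x) := nq_nonneg hG _
  have hQ : 0 ≤ nq d (pk w d S (j + 1) x) := nq_nonneg hG _
  have he1 := el_nonneg hG S (j + 1) x
  have he0 := el_nonneg hG S j x
  rcases hQ.eq_or_lt with h0 | h0
  · rw [← h0, mul_zero, zero_mul]
    positivity
  have hP0 : 0 < nq d (pk w d S j x) := by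
    rcases hP.eq_or_lt with h | h
    · exfalso
      have h1 := nq_eq_zero hG h.symm
      rw [← nq_succ hG S j x, h1] at h0
      simp [bf] at h0
    · exact h
  have hl1 : 0 < el w d S (j + 1) x := l1_pos hG _ (pk_nonneg hG S _ x) h0
  have hl0 : 0 < el w d S j x := l1_pos hG _ (pk_nonneg hG S _ x) hP0
  have hX : 0 < bf w (pk w d S (j + 1) x) (pk w d S j x) := by rw [nq_succ hG]; exact h0
  have h1 := nash hG S hS lam a η hlam ha hη hfk _ _ (pk_nonneg hG S (j + 1) x)
    (pk_nonneg hG S j x) (pk_sup w d S (j + 1) x hx) (pk_sup w d S j x hx) hl1 hl0 hX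
  rw [nq_succ hG] at h1
  change nq d (pk w d S (j + 1) x) * (1 - 2 * η) ≤ lam *
    (2 * el w d S (j + 1) x * el w d S j x / (η * nq d (pk w d S (j + 1) x)) / vl d S) ^ a *
    (Real.sqrt (nq d (pk w d S (j + 1) x)) * Real.sqrt (nq d (pk w d S j x))) at h1
  set p := nq d (pk w d S j x) with hp
  set q := nq d (pk w d S (j + 1) x) with hq
  set ρ := 2 * el w d S (j + 1) x * el w d S j x / (η * vl d S) with hρ
  have hρ0 : 0 < ρ := by positivity
  have e1 : 2 * el w d S (j + 1) x * el w d S j x / (η * q) / vl d S = (d x * ρ) / (d x * q) := by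
    rw [hρ]
    field_simp
  rw [e1] at h1
  have h2 := mul_le_mul_of_nonneg_left h1 hdx.le
  calc d x * q * (1 - 2 * η) = d x * (q * (1 - 2 * η)) := by ring
    _ ≤ d x * (lam * (d x * ρ / (d x * q)) ^ a * (Real.sqrt q * Real.sqrt p)) := h2
    _ = lam * ((d x * p) ^ (1 / 2 : ℝ) * (d x * q) ^ (1 / 2 - a) * (d x * ρ) ^ a) := by
        rw [Real.div_rpow (by positivity) (by positivity), Real.rpow_sub (by positivity),
          ← Real.sqrt_eq_rpow, ← Real.sqrt_eq_rpow, Real.sqrt_mul hdx.le, Real.sqrt_mul hdx.le]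
        have h3 : 0 < (d x * q) ^ a := Real.rpow_pos_of_pos (by positivity) _
        have h4 : Real.sqrt (d x) * Real.sqrt (d x) = d x := Real.mul_self_sqrt hdx.le
        field_simp
        rw [show Real.sqrt (d x) ^ 2 = d x by rw [sq]; exact h4]

theorem el_sum (lam : ℝ) (hl : 0 ≤ lam) (hmx : ∀ g, Sup S g → bf w g g ≤ lam * nq d g)
    (j : ℕ) : ∑ x ∈ S, d x * (el w d S (j + 1) x * el w d S j x) ≤
      lam ^ (2 * j + 1) * vl d S := by
  have h1 := Finset.sum_sq_le_sum_mul_sum_of_sq_le_mul S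
    (r := fun x => d x * (el w d S (j + 1) x * el w d S j x))
    (f := fun x => d x * el w d S (j + 1) x ^ 2)
    (g := fun x => d x * el w d S j x ^ 2)
    (fun v _ => mul_nonneg (hG.dp v).le (sq_nonneg _))
    (fun v _ => mul_nonneg (hG.dp v).le (sq_nonneg _))
    (fun v _ => le_of_eq (by ring))
  have h2 := el_sq_sum hG S lam hl hmx (j + 1)
  have h3 := el_sq_sum hG S lam hl hmx j
  have hv : 0 ≤ vl d S := sum_nonneg fun v _ => (hG.dp v).le
  have h4 : (∑ x ∈ S, d x * (el w d S (j + 1) x * el w d S j x)) ^ 2 ≤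
      (lam ^ (2 * j + 1) * vl d S) ^ 2 := by
    refine h1.trans ((mul_le_mul h2 h3 (sum_nonneg fun v _ => mul_nonneg (hG.dp v).le
      (sq_nonneg _)) (by positivity)).trans (le_of_eq ?_))
    ring
  exact (abs_le_of_sq_le_sq' h4 (by positivity)).2

/-- the recursion of the traces -/
theorem tr_rec (hS : S.Nonempty) (lam a η : ℝ) (hlam : 0 < lam) (ha : 0 ≤ a) (ha1 : a ≤ 1 / 2)
    (hη : 0 < η) (f : W → ℝ) (hf : Sup S f) (hno : nq d f = 1)
    (heig : ∀ v ∈ S, ∑ u, w v u * f u = lam * (d v * f v))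
    (hmx : ∀ g, Sup S g → bf w g g ≤ lam * nq d g)
    (hfk : ∀ S' : Finset W, S'.Nonempty → ∀ g, Sup S' g →
        bf w g g ≤ lam * (vl d S' / vl d S) ^ a * nq d g) (j : ℕ) :
    Tr w d S (j + 1) * (1 - 2 * η) ≤ lam * (Tr w d S j ^ (1 / 2 : ℝ) *
      Tr w d S (j + 1) ^ (1 / 2 - a) * (2 / η * lam ^ (2 * j + 1)) ^ a) := by
  have hT : ∀ j, 0 < Tr w d S j := fun j =>
    lt_of_lt_of_le (by positivity) (pow_le_tr hG S lam f hf hno heig j)
  have hvS := vl_pos hG S hS
  have h1 : Tr w d S (j + 1) * (1 - 2 * η) ≤ ∑ x ∈ S, lam *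
      ((d x * nq d (pk w d S j x)) ^ (1 / 2 : ℝ) *
        (d x * nq d (pk w d S (j + 1) x)) ^ (1 / 2 - a) *
        (d x * (2 * el w d S (j + 1) x * el w d S j x / (η * vl d S))) ^ a) := by
    unfold Tr
    rw [sum_mul]
    exact sum_le_sum fun x hx => point hG S hS lam a η hlam ha hη hfk j x hx
  refine h1.trans ?_
  rw [← mul_sum]
  refine mul_le_mul_of_nonneg_left ?_ hlam.le
  refine holder3 S (fun x => d x * nq d (pk w d S j x))
    (fun x => d x * nq d (pk w d S (j + 1) x))
    (fun x => d x * (2 * el w d S (j + 1) x * el w d S j x / (η * vl d S))) _ _ _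
    (1 / 2) (1 / 2 - a) a
    (fun x _ => mul_nonneg (hG.dp x).le (nq_nonneg hG _))
    (fun x _ => mul_nonneg (hG.dp x).le (nq_nonneg hG _))
    (fun x _ => ?_) le_rfl le_rfl ?_ (hT j) (hT (j + 1)) (by positivity) (by norm_num)
    (by linarith) ha (by ring)
  · have := el_nonneg hG S j x
    have := el_nonneg hG S (j + 1) x
    have := hG.dp x
    positivity
  · have h2 := el_sum hG S lam hlam.le hmx j
    calc ∑ x ∈ S, d x * (2 * el w d S (j + 1) x * el w d S j x / (η * vl d S))
        = 2 / (η * vl d S) * ∑ x ∈ S, d x * (el w d S (j + 1) x * el w d S j x) := by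
          rw [mul_sum]
          exact sum_congr rfl fun x _ => by ring
      _ ≤ 2 / (η * vl d S) * (lam ^ (2 * j + 1) * vl d S) :=
          mul_le_mul_of_nonneg_left h2 (by positivity)
      _ = 2 / η * lam ^ (2 * j + 1) := by field_simp

/-- **decay of the trace** -/
theorem tr_decay (hS : S.Nonempty) (lam a N : ℝ) (hlam : 0 < lam) (hlam1 : lam ≤ 1) (ha : 0 < a)
    (ha1 : a ≤ 1 / 2) (hN : Real.log S.card ≤ N) (f : W → ℝ) (hf : Sup S f) (hno : nq d f = 1)
    (heig : ∀ v ∈ S, ∑ u, w v u * f u = lam * (d v * f v))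
    (hmx : ∀ g, Sup S g → bf w g g ≤ lam * nq d g)
    (hfk : ∀ S' : Finset W, S'.Nonempty → ∀ g, Sup S' g →
        bf w g g ≤ lam * (vl d S' / vl d S) ^ a * nq d g) (j : ℕ) :
    Tr w d S j ≤ lam ^ (2 * j) *
      Real.exp (Real.log (16 / (a * lam)) + 1 / 2 + N / (1 + 2 * a) ^ j) := by
  have hT : ∀ j, 0 < Tr w d S j := fun j =>
    lt_of_lt_of_le (by positivity) (pow_le_tr hG S lam f hf hno heig j)
  have hN0 : 0 ≤ N := by
    refine le_trans (Real.log_nonneg ?_) hN
    exact_mod_cast hS.card_pos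
  set ℓ := Real.log lam with hℓ
  have hℓ0 : ℓ ≤ 0 := Real.log_nonpos hlam.le hlam1
  set Ws := Real.log (16 / (a * lam)) + 1 / 2 with hWs
  have hWs2 : Ws = Real.log (16 / a) - ℓ + 1 / 2 := by
    rw [hWs, show 16 / (a * lam) = 16 / a / lam by field_simp, Real.log_div (by positivity)
      hlam.ne']
  have hWs0 : 0 ≤ Ws := by
    have : 0 ≤ Real.log (16 / a) := Real.log_nonneg (by rw [le_div_iff₀ ha]; linarith)
    rw [hWs2]; linarith
  have key : ∀ j : ℕ, Real.log (Tr w d S j) - 2 * j * ℓ ≤ Ws + N / (1 + 2 * a) ^ j := by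
    intro j
    induction j with
    | zero =>
      rw [tr_zero hG S]
      simp only [CharP.cast_eq_zero, mul_zero, zero_mul, sub_zero, pow_zero, div_one]
      linarith
    | succ j ih =>
      have h1 := tr_rec hG S hS lam a (a / 8) hlam ha.le ha1 (by positivity) f hf hno heig hmx
        hfk j
      have hb : 0 < 1 - 2 * (a / 8) := by linarith
      have h2 := Real.log_le_log (mul_pos (hT (j + 1)) hb) h1
      have hTa := hT j
      have hTb := hT (j + 1)
      rw [Real.log_mul hTb.ne' hb.ne', Real.log_mul hlam.ne' (by positivity),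
        Real.log_mul (by positivity) (by positivity), Real.log_mul (by positivity) (by positivity),
        Real.log_rpow hTa, Real.log_rpow hTb, Real.log_rpow (by positivity),
        Real.log_mul (by positivity) (by positivity), Real.log_pow, ← hℓ] at h2
      have h3 : -(a / 2) ≤ Real.log (1 - 2 * (a / 8)) := by
        have h4 := Real.one_sub_inv_le_log_of_pos hb
        have h5 : (1 - 2 * (a / 8))⁻¹ ≤ 1 + a / 2 := by
          rw [inv_le_comm₀ hb (by positivity), inv_eq_one_div, div_le_iff₀ (by positivity)]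
          nlinarith
        linarith
      have h6 : Real.log (2 / (a / 8)) = Real.log (16 / a) := by
        congr 1
        field_simp
        norm_num
      rw [h6] at h2
      push_cast at h2 ⊢
      have h7 : (1 + 2 * a) * (Real.log (Tr w d S (j + 1)) - 2 * (j + 1) * ℓ) ≤
          (Real.log (Tr w d S j) - 2 * j * ℓ) + 2 * a * Ws := by
        rw [hWs2]
        nlinarith
      have h8 : (1 + 2 * a) * (Real.log (Tr w d S (j + 1)) - 2 * (j + 1) * ℓ) ≤
          (1 + 2 * a) * (Ws + N / (1 + 2 * a) ^ (j + 1)) := by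
        calc _ ≤ _ := h7
          _ ≤ (Ws + N / (1 + 2 * a) ^ j) + 2 * a * Ws := by linarith
          _ = _ := by
              rw [pow_succ]
              have : 0 < 1 + 2 * a := by linarith
              field_simp
              ring
      exact le_of_mul_le_mul_left h8 (by linarith)
  have h1 := key j
  have h2 : Real.log (Tr w d S j) ≤ 2 * j * ℓ + (Ws + N / (1 + 2 * a) ^ j) := by linarith
  rw [Real.log_le_iff_le_exp (hT j), Real.exp_add] at h2
  have h3 : Real.exp (2 * j * ℓ) = lam ^ (2 * j) := by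
    rw [← Real.exp_log hlam, ← Real.exp_nat_mul, ← hℓ]
    congr 1
    push_cast
    ring
  rw [h3] at h2
  exact h2

end

end Run7.h881.GP
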