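import Mathlib
import Pool.Agent.H818R3.TwoMain

/-!
Weighted averages over the edges at a vertex, the weighted average projector, derandomization.
-/

set_option autoImplicit false
set_option linter.unusedSectionVars false

namespace Run7.h881.GP

open Finset Pool.Agent.H562R2 Pool.Agent.H818R3.Defl

section Av

variable {V E D : Type} [Fintype V] [DecidableEq V] [Fintype E] [Fintype D]

/-- weighted degree -/
def nu (t : E → V) (c : E → ℝ) (v : V) : ℝ := ∑ e, if t e = v then c e else 0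

/-- weighted average over the edges at a vertex -/
noncomputable def aw (t : E → V) (c : E → ℝ) (φ : E → ℝ) (v : V) : ℝ :=
  (∑ e, if t e = v then c e * φ e else 0) / nu t c v

theorem nu_nonneg (t : E → V) (c : E → ℝ) (hc : ∀ e, 0 ≤ c e) (v : V) : 0 ≤ nu t c v :=
  sum_nonneg fun e _ => by split_ifs; exacts [hc e, le_rfl]

theorem le_nu (t : E → V) (c : E → ℝ) (hc : ∀ e, 0 ≤ c e) (e : E) : c e ≤ nu t c (t e) := by
  unfold nu
  have h := single_le_sum (f := fun e' => if t e' = t e then c e' else 0)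
    (fun e' _ => by split_ifs; exacts [hc e', le_rfl]) (mem_univ e)
  rwa [if_pos rfl] at h

theorem fibre_sum (t : E → V) (g : V → E → ℝ) :
    ∑ e, g (t e) e = ∑ v, ∑ e, if t e = v then g v e else 0 := by
  rw [sum_comm]
  refine sum_congr rfl fun e _ => ?_
  rw [sum_ite_eq, if_pos (mem_univ _)]

theorem aw_mul_nu (t : E → V) (c : E → ℝ) (hc : ∀ e, 0 ≤ c e) (φ : E → ℝ) (v : V) :
    aw t c φ v * nu t c v = ∑ e, if t e = v then c e * φ e else 0 := by
  unfold aw
  by_cases h : nu t c v = 0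
  · rw [h, mul_zero]
    symm
    refine sum_eq_zero fun e _ => ?_
    split_ifs with he
    · have h1 := le_nu t c hc e
      rw [he, h] at h1
      rw [le_antisymm h1 (hc e), zero_mul]
    · rfl
  · rw [div_mul_cancel₀ _ h]

theorem aw_adj (t : E → V) (c : E → ℝ) (hc : ∀ e, 0 ≤ c e) (φ : E → ℝ) (q : V → ℝ) :
    ∑ e, c e * (φ e * q (t e)) = ∑ e, c e * (aw t c φ (t e) * q (t e)) := by
  rw [fibre_sum t (fun v e => c e * (φ e * q v)),
    fibre_sum t (fun v e => c e * (aw t c φ v * q v))]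
  refine sum_congr rfl fun v _ => ?_
  have h1 : ∑ e, (if t e = v then c e * (φ e * q v) else 0) =
      (∑ e, if t e = v then c e * φ e else 0) * q v := by
    rw [sum_mul]
    refine sum_congr rfl fun e _ => ?_
    split_ifs <;> ring
  have h2 : ∑ e, (if t e = v then c e * (aw t c φ v * q v) else 0) =
      nu t c v * (aw t c φ v * q v) := by
    unfold nu
    rw [sum_mul]
    refine sum_congr rfl fun e _ => ?_
    split_ifs <;> ring
  rw [h1, h2, ← aw_mul_nu t c hc φ v]
  ring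

theorem aw_sq_eq (t : E → V) (c : E → ℝ) (hc : ∀ e, 0 ≤ c e) (φ : E → ℝ) :
    ∑ e, c e * (φ e * aw t c φ (t e)) = ∑ e, c e * aw t c φ (t e) ^ 2 := by
  rw [aw_adj t c hc φ (aw t c φ)]
  exact sum_congr rfl fun e _ => by ring

theorem aw_sum {I : Type} (S : Finset I) (t : E → V) (c : E → ℝ) (φ : I → E → ℝ) (v : V) :
    aw t c (fun e => ∑ i ∈ S, φ i e) v = ∑ i ∈ S, aw t c (φ i) v := by
  unfold aw
  rw [← sum_div]
  congr 1
  rw [sum_comm]
  refine sum_congr rfl fun e _ => ?_
  split_ifs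
  · rw [mul_sum]
  · simp

theorem aw_smul (t : E → V) (c : E → ℝ) (k : ℝ) (φ : E → ℝ) (v : V) :
    aw t c (fun e => k * φ e) v = k * aw t c φ v := by
  unfold aw
  rw [← mul_div_assoc, mul_sum]
  congr 1
  refine sum_congr rfl fun e _ => ?_
  split_ifs <;> ring

theorem aw_nonneg (t : E → V) (c : E → ℝ) (hc : ∀ e, 0 ≤ c e) (φ : E → ℝ) (h : ∀ e, 0 ≤ φ e)
    (v : V) : 0 ≤ aw t c φ v := by
  refine div_nonneg (sum_nonneg fun e _ => ?_) (nu_nonneg t c hc v)
  split_ifs
  · exact mul_nonneg (hc e) (h e)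
  · exact le_rfl

theorem aw_mono (t : E → V) (c : E → ℝ) (hc : ∀ e, 0 ≤ c e) (φ ψ : E → ℝ) (h : ∀ e, φ e ≤ ψ e)
    (v : V) : aw t c φ v ≤ aw t c ψ v := by
  refine div_le_div_of_nonneg_right (sum_le_sum fun e _ => ?_) (nu_nonneg t c hc v)
  split_ifs
  · exact mul_le_mul_of_nonneg_left (h e) (hc e)
  · exact le_rfl

theorem aw_const (t : E → V) (c : E → ℝ) (k : ℝ) (v : V) (h : nu t c v ≠ 0) :
    aw t c (fun _ => k) v = k := by
  unfold aw
  have h1 : (∑ e, if t e = v then c e * k else 0) = nu t c v * k := by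
    unfold nu
    rw [sum_mul]
    refine sum_congr rfl fun e _ => ?_
    split_ifs <;> ring
  rw [h1, mul_comm, mul_div_assoc, div_self h, mul_one]

theorem aw_sq_le (t : E → V) (c : E → ℝ) (hc : ∀ e, 0 ≤ c e) (φ : E → ℝ) (v : V) :
    aw t c φ v ^ 2 ≤ aw t c (fun e => φ e ^ 2) v := by
  rcases (nu_nonneg t c hc v).eq_or_lt with h | h
  · unfold aw
    rw [← h]; simp
  · unfold aw
    have h1 := Finset.sum_sq_le_sum_mul_sum_of_sq_le_mul (univ : Finset E)
      (r := fun e => if t e = v then c e * φ e else 0)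
      (f := fun e => if t e = v then c e else 0)
      (g := fun e => if t e = v then c e * φ e ^ 2 else 0)
      (fun e _ => by split_ifs; exacts [hc e, le_rfl])
      (fun e _ => by split_ifs; exacts [mul_nonneg (hc e) (sq_nonneg _), le_rfl])
      (fun e _ => by split_ifs <;> exact le_of_eq (by ring))
    rw [div_pow, div_le_div_iff₀ (by positivity) h]
    change _ ≤ nu t c v * _ at h1
    nlinarith

/-- vector average -/
noncomputable def va (t : E → V) (c : E → ℝ) (F : E → D → ℝ) (v : V) : D → ℝ :=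
  (nu t c v)⁻¹ • ∑ e, if t e = v then c e • F e else 0

theorem va_dot (t : E → V) (c : E → ℝ) (F : E → D → ℝ) (g : D → ℝ) (v : V) :
    g ⬝ᵥ va t c F v = aw t c (fun e => g ⬝ᵥ F e) v := by
  unfold va aw
  rw [dotProduct_smul, dotProduct_sum, smul_eq_mul, div_eq_inv_mul]
  congr 1
  refine sum_congr rfl fun e _ => ?_
  split_ifs
  · rw [dotProduct_smul, smul_eq_mul]
  · rw [dotProduct_zero]

theorem va_map (t : E → V) (c : E → ℝ) (F : E → D → ℝ) (T : Module.End ℝ (D → ℝ)) (v : V) :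
    T (va t c F v) = va t c (fun e => T (F e)) v := by
  unfold va
  rw [map_smul, map_sum]
  congr 1
  refine sum_congr rfl fun e _ => ?_
  split_ifs
  · rw [map_smul]
  · rw [map_zero]

theorem va_adj (t : E → V) (c : E → ℝ) (hc : ∀ e, 0 ≤ c e) (F : E → D → ℝ) (q : V → D → ℝ) :
    ∑ e, c e * (F e ⬝ᵥ q (t e)) = ∑ e, c e * (va t c F (t e) ⬝ᵥ q (t e)) := by
  have h1 : ∀ e, va t c F (t e) ⬝ᵥ q (t e) = ∑ i, aw t c (fun e => F e i) (t e) * q (t e) i := by
    intro e
    rw [dotProduct]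
    refine sum_congr rfl fun i _ => ?_
    congr 1
    unfold va aw
    rw [Pi.smul_apply, Finset.sum_apply, smul_eq_mul, div_eq_inv_mul]
    congr 1
    refine sum_congr rfl fun e' _ => ?_
    split_ifs
    · rw [Pi.smul_apply, smul_eq_mul]
    · rfl
  simp only [h1]
  simp only [dotProduct, mul_sum]
  rw [sum_comm]
  conv_rhs => rw [sum_comm]
  refine sum_congr rfl fun i _ => ?_
  exact aw_adj t c hc (fun e => F e i) (fun v => q v i)

end Av

section Pw

variable {K D : Type} [Fintype K] [Fintype D]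

/-- weighted sum of projectors -/
noncomputable def pw (ω : K → ℝ) (w : K → D → ℝ) : Module.End ℝ (D → ℝ) where
  toFun v := ∑ k, (ω k * ((w k ⬝ᵥ v) / (w k ⬝ᵥ w k))) • w k
  map_add' v v' := by
    rw [← Finset.sum_add_distrib]
    refine Finset.sum_congr rfl fun k _ => ?_
    rw [dotProduct_add, add_div, mul_add, add_smul]
  map_smul' r v := by
    rw [RingHom.id_apply, Finset.smul_sum]
    refine Finset.sum_congr rfl fun k _ => ?_
    rw [dotProduct_smul, smul_eq_mul, smul_smul]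
    congr 1
    ring

theorem pw_dot (ω : K → ℝ) (w : K → D → ℝ) (v v' : D → ℝ) :
    pw ω w v ⬝ᵥ v' = ∑ k, ω k * ((w k ⬝ᵥ v) * (w k ⬝ᵥ v') / (w k ⬝ᵥ w k)) := by
  change (∑ k, (ω k * ((w k ⬝ᵥ v) / (w k ⬝ᵥ w k))) • w k) ⬝ᵥ v' = _
  rw [sum_dotProduct]
  refine Finset.sum_congr rfl fun k _ => ?_
  rw [smul_dotProduct, smul_eq_mul]
  ring

theorem pw_good (ω : K → ℝ) (hω : ∀ k, 0 ≤ ω k) (w : K → D → ℝ)
    (h4 : ∀ v, ∑ k, ω k * ((w k ⬝ᵥ v) ^ 2 / (w k ⬝ᵥ w k)) ≤ v ⬝ᵥ v) : Good (pw ω w) where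
  sym v v' := by
    rw [pw_dot, dotProduct_comm v, pw_dot]
    refine Finset.sum_congr rfl fun k _ => ?_
    ring
  pos v := by
    rw [dotProduct_comm, pw_dot]
    exact Finset.sum_nonneg fun k _ =>
      mul_nonneg (hω k) (div_nonneg (mul_self_nonneg _) (dot_self_nonneg _))
  sq v := by
    have h1 : pw ω w v ⬝ᵥ pw ω w v ≤ (v ⬝ᵥ pw ω w v + pw ω w v ⬝ᵥ pw ω w v) / 2 := by
      obtain ⟨u, hu⟩ : ∃ u, u = pw ω w v := ⟨_, rfl⟩
      have e1 : pw ω w v ⬝ᵥ u = ∑ k, ω k * ((w k ⬝ᵥ v) * (w k ⬝ᵥ u) / (w k ⬝ᵥ w k)) :=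
        pw_dot ω w v u
      have e2 : v ⬝ᵥ pw ω w v = ∑ k, ω k * ((w k ⬝ᵥ v) ^ 2 / (w k ⬝ᵥ w k)) := by
        rw [dotProduct_comm, pw_dot]
        refine Finset.sum_congr rfl fun k _ => ?_
        rw [sq]
      have e3 := h4 u
      have e4 : ∑ k, ω k * ((w k ⬝ᵥ v) * (w k ⬝ᵥ u) / (w k ⬝ᵥ w k)) ≤
          (∑ k, ω k * ((w k ⬝ᵥ v) ^ 2 / (w k ⬝ᵥ w k)) +
            ∑ k, ω k * ((w k ⬝ᵥ u) ^ 2 / (w k ⬝ᵥ w k))) / 2 := by
        rw [← Finset.sum_add_distrib, Finset.sum_div]
        refine Finset.sum_le_sum fun k _ => ?_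
        have e6 : (w k ⬝ᵥ v) * (w k ⬝ᵥ u) / (w k ⬝ᵥ w k) ≤
            ((w k ⬝ᵥ v) ^ 2 / (w k ⬝ᵥ w k) + (w k ⬝ᵥ u) ^ 2 / (w k ⬝ᵥ w k)) / 2 := by
          rw [← add_div, div_right_comm]
          apply div_le_div_of_nonneg_right _ (dot_self_nonneg _)
          nlinarith [sq_nonneg ((w k ⬝ᵥ v) - (w k ⬝ᵥ u))]
        have e7 := mul_le_mul_of_nonneg_left e6 (hω k)
        linarith
      have e5 : pw ω w v ⬝ᵥ u ≤ (v ⬝ᵥ pw ω w v + u ⬝ᵥ u) / 2 := by
        rw [e1, e2]
        linarith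
      rw [hu] at e5
      exact e5
    linarith

end Pw

section Derand

variable {U V E A B : Type} [Fintype U] [Fintype V] [Fintype E] [Fintype A] [Fintype B]
  [DecidableEq U] [DecidableEq V] [DecidableEq A] [DecidableEq B]

theorem wderand (s : E → U) (t : E → V) (π : E → A → B) (c : E → ℝ)
    (p : U → A → ℝ) (r : V → B → ℝ)
    (hp : ∀ u a, 0 ≤ p u a) (hp1 : ∀ u, ∑ a, p u a = 1)
    (hr : ∀ v b, 0 ≤ r v b) (hr1 : ∀ v, ∑ b, r v b = 1) :
    ∃ (L : U → A) (M : V → B), ∑ e, c e * ∑ a, p (s e) a * r (t e) (π e a) ≤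
      ∑ e, c e * (if π e (L (s e)) = M (t e) then 1 else 0) := by
  choose M hM using fun v => exists_ge_avg (r v) (hr v) (hr1 v)
    (fun b => ∑ e, if t e = v then c e * ∑ a, (if π e a = b then p (s e) a else 0) else 0)
  choose L hL using fun u => exists_ge_avg (p u) (hp u) (hp1 u)
    (fun a => ∑ e, if s e = u then c e * (if π e a = M (t e) then (1 : ℝ) else 0) else 0)
  refine ⟨L, M, ?_⟩
  have h1 : ∑ e, c e * ∑ a, p (s e) a * r (t e) (π e a) =
      ∑ v, ∑ b, r v b * ∑ e, if t e = v then c e * ∑ a, (if π e a = b then p (s e) a else 0)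
        else 0 := by
    simp only [Finset.mul_sum]
    have : ∀ v, ∑ b, ∑ e, r v b * (if t e = v then ∑ a, c e * (if π e a = b then p (s e) a else 0)
        else 0) = ∑ e, if t e = v then ∑ a, c e * (p (s e) a * r v (π e a)) else 0 := by
      intro v
      rw [Finset.sum_comm]
      refine Finset.sum_congr rfl fun e _ => ?_
      by_cases h : t e = v
      · simp only [h, if_true, Finset.mul_sum]
        rw [Finset.sum_comm]
        refine Finset.sum_congr rfl fun a _ => ?_
        rw [Finset.sum_eq_single (π e a)]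
        · rw [if_pos rfl]; ring
        · intro b _ hb
          rw [if_neg (fun h => hb h.symm)]; ring
        · intro h; exact absurd (mem_univ _) h
      · simp [h]
    simp only [this]
    conv_rhs => rw [Finset.sum_comm]
    refine Finset.sum_congr rfl fun e _ => ?_
    simp
  have h2 : ∑ v, ∑ b, r v b * ∑ e, (if t e = v then c e * ∑ a, (if π e a = b then p (s e) a else 0)
      else 0) ≤
      ∑ v, ∑ e, if t e = v then c e * ∑ a, (if π e a = M v then p (s e) a else 0) else 0 :=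
    Finset.sum_le_sum fun v _ => hM v
  have h3 : ∑ v, ∑ e, (if t e = v then c e * ∑ a, (if π e a = M v then p (s e) a else 0) else 0) =
      ∑ u, ∑ a, p u a * ∑ e, if s e = u then c e * (if π e a = M (t e) then (1 : ℝ) else 0)
        else 0 := by
    rw [Finset.sum_comm]
    have h4 : ∀ e, ∑ v, (if t e = v then c e * ∑ a, (if π e a = M v then p (s e) a else 0) else 0) =
        c e * ∑ a, (if π e a = M (t e) then p (s e) a else 0) := by
      intro e; simp
    simp only [h4]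
    simp only [Finset.mul_sum]
    have h5 : ∀ u, ∑ a, ∑ e, p u a * (if s e = u then c e * (if π e a = M (t e) then (1 : ℝ) else 0)
        else 0) = ∑ e, if s e = u then ∑ a, c e * (if π e a = M (t e) then p u a else 0) else 0 := by
      intro u
      rw [Finset.sum_comm]
      refine Finset.sum_congr rfl fun e _ => ?_
      by_cases h : s e = u
      · simp only [h, if_true]
        refine Finset.sum_congr rfl fun a _ => ?_
        split_ifs <;> ring
      · simp [h]
    simp only [h5]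
    conv_rhs => rw [Finset.sum_comm]
    refine Finset.sum_congr rfl fun e _ => ?_
    simp
  have h6 : ∑ u, ∑ a, p u a * ∑ e, (if s e = u then c e * (if π e a = M (t e) then (1 : ℝ) else 0)
      else 0) ≤ ∑ u, ∑ e, if s e = u then c e * (if π e (L u) = M (t e) then (1 : ℝ) else 0)
        else 0 :=
    Finset.sum_le_sum fun u _ => hL u
  have h7 : ∑ u, ∑ e, (if s e = u then c e * (if π e (L u) = M (t e) then (1 : ℝ) else 0) else 0) =
      ∑ e, c e * (if π e (L (s e)) = M (t e) then 1 else 0) := by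
    rw [Finset.sum_comm]
    refine Finset.sum_congr rfl fun e _ => ?_
    simp
  rw [h1, ← h7]
  exact h2.trans (h3.le.trans h6)

end Derand

end Run7.h881.GP
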